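import Mathlib
import Pool.Agent.Lib.MP_64d474_lc.Nc.Defs

/-!
# Partially commutative symbolic matrices: definitions
-/

open Matrix Module

set_option linter.unusedSectionVars false

namespace Pool.Agent.Lib.MP_64d474_lc.Pc

open Pool.Agent.Lib.MP_64d474_lc.Op (sgn)
open Pool.Agent.Lib.MP_64d474_lc.Nc

/-- the tensor product of `k` matrices -/
def prd {k : ℕ} {J R : Type*} [CommRing R] (Z : Fin k → Matrix J J R) :
    Matrix (Fin k → J) (Fin k → J) R := fun x y => ∏ i, Z i (x i) (y i)

/-- the matrix `1 ⊗ ⋯ ⊗ Y ⊗ ⋯ ⊗ 1` with `Y` at the place `i` -/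
def place {k : ℕ} {J R : Type*} [CommRing R] [DecidableEq J] (i : Fin k) (Y : Matrix J J R) :
    Matrix (Fin k → J) (Fin k → J) R := prd fun i' => if i' = i then Y else 1

/-- `∑ Y_j ⊗ B_j` is nonsingular for some square matrices `Y_j`, where matrices with different
classes `cl j` are put at different places of a tensor power and therefore commute -/
def PcNonsing {F : Type*} [Field F] {n m k : ℕ} (B : Fin m → Matrix (Fin n) (Fin n) F)
    (cl : Fin m → Fin k) : Prop :=
  ∃ D : ℕ, 0 < D ∧ ∃ Y : Fin m → Matrix (Fin D) (Fin D) F,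
    (tens (fun j => place (cl j) (Y j)) B).det ≠ 0

/-- the tensor product of `k` matrices on `(ℤ/2)^I`, on `(ℤ/2)^(k I)` -/
def pri {k : ℕ} {I R : Type*} [CommRing R] (Z : Fin k → Matrix (I → ZMod 2) (I → ZMod 2) R) :
    Matrix (Fin k × I → ZMod 2) (Fin k × I → ZMod 2) R := fun x y =>
  ∏ i, Z i (fun a => x (i, a)) (fun a => y (i, a))

/-- the twist of the matrix `T` with parameters `c, e`: the part of `T` along the signed
translation with parameters `S, u` is multiplied by `2 ^ |I| ∏_{S_i = 1} c_i ∏_{u_i = 1} e_i` -/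
def twist {I : Type*} [Fintype I] [DecidableEq I] (c e : I → ℤ)
    (T : Matrix (I → ZMod 2) (I → ZMod 2) ℤ) : Matrix (I → ZMod 2) (I → ZMod 2) ℤ := fun x y =>
  (∑ z, (∏ i, (1 + sgn (x i + z i) * c i)) * T z (z + x + y)) * ∏ i, if x i = y i then 1 else e i

variable {n m k : ℕ} (X : Data n (m + 1)) (cl : Fin m → Fin k)

/-- the explicit tuple: the matrix `T_{j+1}` at the place `cl j`, and `T_0` at the other places -/
def ptup (j : Fin m) : Matrix (Fin k × Fin X.t → ZMod 2) (Fin k × Fin X.t → ZMod 2) ℤ :=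
  pri fun i => X.T (if cl j = i then j.succ else 0)

/-- the twists of the tuple with parameters between `0` and `n 2 ^ (k t)` -/
def ptests : Finset (Fin m → Matrix (Fin k × Fin X.t → ZMod 2) (Fin k × Fin X.t → ZMod 2) ℤ) :=
  Finset.univ.image fun p : (Fin k × Fin X.t → Fin (n * 2 ^ (k * X.t) + 1)) ×
    (Fin k × Fin X.t → Fin (n * 2 ^ (k * X.t) + 1)) =>
      fun j => twist (fun i => (p.1 i : ℤ)) (fun i => (p.2 i : ℤ)) (ptup X cl j)

end Pool.Agent.Lib.MP_64d474_lc.Pc
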