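import Mathlib
import Pool.Agent.Lib.MP_64d474_lc.Nc.Defs
import Pool.Agent.Lib.MP_64d474_lc.Nc.Chain
import Pool.Agent.Lib.MP_64d474_lc.Nc.Dbl
import Pool.Agent.Lib.MP_64d474_lc.Pc.Defs

/-!
# Partially commutative symbolic matrices: module statements

Paper proofs: team-store `sdit_pc_blueprint.md`.
-/

open Matrix Module MvPolynomial

set_option linter.unusedSectionVars false

namespace Pool.Agent.Lib.MP_64d474_lc.Pc

open Pool.Agent.Lib.MP_64d474_lc.Op (sgn)
open Pool.Agent.Lib.MP_64d474_lc.Nc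

/-- a semilinear automorphism of a vector space -/
structure Semi (K V : Type*) [Field K] [AddCommGroup V] [Module K V] where
  σ : K ≃+* K
  g : V ≃+ V
  smul : ∀ (a : K) (v : V), g (a • v) = σ a • g v

/-- a subspace that is mapped to itself by a set of semilinear automorphisms -/
def Stable {K V : Type*} [Field K] [AddCommGroup V] [Module K V] (Γ : Set (Semi K V))
    (U : Submodule K V) : Prop := ∀ s ∈ Γ, ∀ v ∈ U, s.g v ∈ U

/-- the integer signed translation over a field -/
def fwop (F : Type*) [Field F] {t : ℕ} (σ τ : Fin t → ZMod 2) :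
    Matrix (Fin t → ZMod 2) (Fin t → ZMod 2) F := (wop σ τ).map fun z : ℤ => (z : F)

/-- PC-AVG: signs with the moments of independent signs reach on average one third of the
noncommutative rank, over every field of characteristic zero -/
def StAvgF.{u} : Prop :=
  ∀ (F : Type u) [Field F] [CharZero F] (κ Ω : Type) [Fintype κ] [DecidableEq κ] [Fintype Ω]
    [Nonempty Ω] (a : Ω → κ → ℤ), (Mom fun ω k => (a ω k : ℝ)) →
    ∀ (E E' : Type u) [AddCommGroup E] [Module F E] [FiniteDimensional F E] [AddCommGroup E']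
      [Module F E'] [FiniteDimensional F E'] (C : κ → E →ₗ[F] E'), ∃ U : Submodule F E,
      Fintype.card Ω * (finrank F E + finrank F (img C U)) ≤ Fintype.card Ω * finrank F U +
        3 * ∑ ω, finrank F (LinearMap.range (∑ k, (a ω k : F) • C k))

/-- PC-MIX: the signed translations mix the coordinates of every subspace up to a small
codimension, over every field of characteristic zero -/
def StMixF.{u} : Prop :=
  ∀ (F : Type u) [Field F] [CharZero F] (t : ℕ) (S : Type) [Fintype S] [Nonempty S]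
    (v : S → Fin t → ZMod 2) (δ : ℝ), Bias v δ → 0 ≤ δ →
    ∀ (V : Type u) [AddCommGroup V] [Module F V] [FiniteDimensional F V]
      (U Y : Submodule F ((Fin t → ZMod 2) → V)),
      (∀ s s', U.map (act (fwop F (v s) (v s'))) ≤ Y) →
      ∃ V' : Submodule F V,
        (finrank F U + 2 ^ t * finrank F V' : ℝ) ≤
          finrank F (U ⊓ pw (Fin t → ZMod 2) V' : Submodule F ((Fin t → ZMod 2) → V)) +
          finrank F (Y ⊓ pw (Fin t → ZMod 2) V' : Submodule F ((Fin t → ZMod 2) → V)) +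
          2 * δ * finrank F V * 2 ^ t

/-- PC-LEVEL: one level of a chain of stable subspaces -/
def StLevel.{u} : Prop :=
  ∀ (K V : Type u) [Field K] [CharZero K] [AddCommGroup V] [Module K V] [FiniteDimensional K V]
    (t m : ℕ) (S Ω : Type) [Fintype S] [DecidableEq S] [Nonempty S] [Fintype Ω] [Nonempty Ω]
    (v : S → Fin t → ZMod 2) (δ : ℝ), Bias v δ → 0 ≤ δ →
    ∀ a : Ω → Fin m × S × S → ℤ, (Mom fun ω p => (a ω p : ℝ)) →
    ∀ (B : Fin m → V →ₗ[K] V) (Γ : Set (Semi K V)),
      (∀ s ∈ Γ, ∀ k v, B k (s.g v) = s.g (B k v)) →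
    ∀ q : ℕ, 0 < q → (∀ U : Submodule K V, Stable Γ U → q ∣ finrank K U) →
    ∀ (T : Fin m → Matrix (Fin t → ZMod 2) (Fin t → ZMod 2) ℤ) (U U' : Submodule K V),
      Stable Γ U → Stable Γ U' → U' ≤ U →
      ∃ V' : Submodule K V, Stable Γ V' ∧ U' ≤ V' ∧ V' ≤ U ∧
        (Fintype.card Ω : ℝ) * (term B (cst K T) U U' V' : ℤ) ≤
          3 * (∑ ω, crk B (cst K T) (cst K (iprt v a ω)) U U' : ℕ) +
          Fintype.card Ω * ((m + 1) * (2 * δ * finrank K V * 2 ^ t) / q *
            ((finrank K U : ℝ) - finrank K U'))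

/-- PC-SYMRANK: if a family of endomorphisms of a space of dimension `n q` without shrunk subspace
commutes with semilinear automorphisms, and if the dimensions of all subspaces stable under these
automorphisms are multiples of `q`, then the tuple for size `n` is good for it -/
def StSymRank.{u} : Prop :=
  ∀ (K₁ K₂ : Type) [Field K₁] [Field K₂] [CharP K₁ 2] [CharP K₂ 2] [Fintype K₁]
    (l₁ l₂ m n L : ℕ) (φ₁ : K₁ → Fin l₁ → ZMod 2) (φ₂ : K₂ → Fin l₂ → ZMod 2)
    (α : Fin m × (K₁ × (Fin l₁ → ZMod 2)) × (K₁ × (Fin l₁ → ZMod 2)) → K₂),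
    IsData φ₁ φ₂ α n L →
    ∀ (K V : Type u) [Field K] [CharZero K] [AddCommGroup V] [Module K V] [FiniteDimensional K V]
      (B : Fin m → V →ₗ[K] V), Nsh B →
    ∀ Γ : Set (Semi K V), (∀ s ∈ Γ, ∀ k v, B k (s.g v) = s.g (B k v)) →
    ∀ q : ℕ, 0 < q → (∀ U : Submodule K V, Stable Γ U → q ∣ finrank K U) →
      finrank K V = n * q →
      2 ^ ((l₂ + l₂ + 1) * L) * (n * q) <
        finrank K (LinearMap.range (ev B (cst K (tower φ₁ φ₂ α L)))) +
          2 ^ ((l₂ + l₂ + 1) * L) * q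

section Torus

variable {I : Type*} [Fintype I] [DecidableEq I]

/-- the twist of a matrix on `(ℤ/2)^I` -/
def tw {R : Type*} [CommRing R] (c e : I → R) (T : Matrix (I → ZMod 2) (I → ZMod 2) ℤ) :
    Matrix (I → ZMod 2) (I → ZMod 2) R := fun x y =>
  (∑ z, (∏ i, (1 + ((sgn (x i + z i) : ℤ) : R) * c i)) * ((T z (z + x + y) : ℤ) : R)) *
    ∏ i, if x i = y i then 1 else e i

/-- the matrix `∑ T_k(c, e) ⊗ B_k` -/
def big {κ ι : Type*} [Fintype κ] {R : Type*} [CommRing R] (c e : I → R)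
    (T : κ → Matrix (I → ZMod 2) (I → ZMod 2) ℤ) (b : κ → Matrix ι ι R) :
    Matrix ((I → ZMod 2) × ι) ((I → ZMod 2) × ι) R :=
  fun p q => ∑ k, tw c e (T k) p.1 q.1 * b k p.2 q.2

/-- the field of rational functions in `c_i, e_i` -/
abbrev FK (I : Type*) (F : Type*) [Field F] : Type _ := FractionRing (MvPolynomial (I ⊕ I) F)

/-- the variables `c_i` -/
noncomputable def gc (F : Type*) [Field F] (i : I) : FK I F :=
  algebraMap (MvPolynomial (I ⊕ I) F) (FK I F) (X (Sum.inl i))

/-- the variables `e_i` -/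
noncomputable def ge (F : Type*) [Field F] (i : I) : FK I F :=
  algebraMap (MvPolynomial (I ⊕ I) F) (FK I F) (X (Sum.inr i))

/-- the generic twist -/
noncomputable def gtw (F : Type*) [Field F] (T : Matrix (I → ZMod 2) (I → ZMod 2) ℤ) :
    Matrix (I → ZMod 2) (I → ZMod 2) (FK I F) := tw (gc F) (ge F) T

/-- some twist of the tuple makes the symbolic matrix nonsingular -/
def GN {F : Type*} [Field F] {n m : ℕ}
    (P : Fin m → Matrix (I → ZMod 2) (I → ZMod 2) ℤ) (B : Fin m → Matrix (Fin n) (Fin n) F) :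
    Prop := ∃ c e : I → F, (big c e P B).det ≠ 0

end Torus

/-- PC-TORUS: semilinear automorphisms that commute with all generic twists -/
def StTorus.{u} : Prop :=
  ∀ (F : Type u) [Field F] [CharZero F] (I : Type) [Fintype I] [DecidableEq I] (n : ℕ),
    ∃ Γ : Set (Semi (FK I F) ((I → ZMod 2) × Fin n → FK I F)),
      (∀ s ∈ Γ, ∀ (T : Matrix (I → ZMod 2) (I → ZMod 2) ℤ) (b : Matrix (Fin n) (Fin n) F)
        (v : (I → ZMod 2) × Fin n → FK I F),
          kroneckerMap (· * ·) (gtw F T) (b.map (algebraMap F (FK I F))) *ᵥ s.g v =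
            s.g (kroneckerMap (· * ·) (gtw F T) (b.map (algebraMap F (FK I F))) *ᵥ v)) ∧
      ∀ U : Submodule (FK I F) ((I → ZMod 2) × Fin n → FK I F), Stable Γ U →
        2 ^ Fintype.card I ∣ finrank (FK I F) U

/-- PC-CORANK -/
def StCorank.{u} : Prop :=
  ∀ (F : Type u) [Field F] [CharZero F] (I : Type) [Fintype I] [DecidableEq I] (n m : ℕ)
    (P : Fin m → Matrix (I → ZMod 2) (I → ZMod 2) ℤ) (B : Fin m → Matrix (Fin n) (Fin n) F),
    ¬ GN P B →
      (big (gc F) (ge F) P fun j => (B j).map (algebraMap F (FK I F))).rank +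
        2 ^ Fintype.card I ≤ 2 ^ Fintype.card I * n

section Slots

/-- the tensor product of a matrix on `(ℤ/2)^I` and a matrix on `(ℤ/2)^I'` -/
def two {I I' : Type*} (P : Matrix (I → ZMod 2) (I → ZMod 2) ℤ)
    (Z : Matrix (I' → ZMod 2) (I' → ZMod 2) ℤ) :
    Matrix (I ⊕ I' → ZMod 2) (I ⊕ I' → ZMod 2) ℤ := fun x y =>
  P (fun i => x (Sum.inl i)) (fun i => y (Sum.inl i)) *
    Z (fun i => x (Sum.inr i)) (fun i => y (Sum.inr i))

end Slots

/-- PC-REPLACE: in one factor, an arbitrary tuple can be replaced by the explicit tuple -/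
def StReplace.{u} : Prop :=
  ∀ (F : Type u) [Field F] [CharZero F] (n m r : ℕ) (X : Data n r) (I I' : Type) [Fintype I]
    [DecidableEq I] [Fintype I'] [DecidableEq I']
    (P : Fin m → Matrix (I → ZMod 2) (I → ZMod 2) ℤ) (σ : Fin m → Fin r)
    (Z : Fin r → Matrix (I' → ZMod 2) (I' → ZMod 2) ℤ) (B : Fin m → Matrix (Fin n) (Fin n) F),
    GN (fun j => two (P j) (Z (σ j))) B → GN (fun j => two (P j) (X.T (σ j))) B

/-- PC-PLAIN: in one factor, an arbitrary tuple can be replaced by a tuple of integer matrices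
whose size is a power of two -/
def StPlain.{u} : Prop :=
  ∀ (F : Type u) [Field F] [CharZero F] (n m r : ℕ) (E J : Type) [Fintype E] [DecidableEq E]
    [Fintype J] [DecidableEq J] [Nonempty J] (P : Fin m → Matrix E E F) (σ : Fin m → Fin r)
    (Y : Fin r → Matrix J J F) (B : Fin m → Matrix (Fin n) (Fin n) F),
    (tens (fun j => kroneckerMap (· * ·) (P j) (Y (σ j))) B).det ≠ 0 →
    ∃ (t : ℕ) (Z : Fin r → Matrix (Fin t → ZMod 2) (Fin t → ZMod 2) ℤ),
      (tens (fun j => kroneckerMap (· * ·) (P j) ((Z (σ j)).map fun z : ℤ => (z : F))) B).det ≠ 0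

/-- PC-PHASE1: in all factors, an arbitrary tuple can be replaced by a tuple of integer matrices
whose size is a power of two -/
def StPhase1.{u} : Prop :=
  ∀ (F : Type u) [Field F] [CharZero F] (n m r k : ℕ) (σ : Fin k → Fin m → Fin r)
    (J : Type) [Fintype J] [DecidableEq J] [Nonempty J] (Y : Fin k → Fin r → Matrix J J F)
    (B : Fin m → Matrix (Fin n) (Fin n) F),
    (tens (fun j => prd fun i => Y i (σ i j)) B).det ≠ 0 →
      ∃ (t : ℕ) (Z : Fin k → Fin r → Matrix (Fin t → ZMod 2) (Fin t → ZMod 2) ℤ),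
        (tens (fun j => prd fun i => (Z i (σ i j)).map fun z : ℤ => (z : F)) B).det ≠ 0

/-- PC-PHASE2: in all factors, arbitrary tuples can be replaced by the explicit tuple -/
def StPhase2.{u} : Prop :=
  ∀ (F : Type u) [Field F] [CharZero F] (n m r k t : ℕ) (X : Data n r)
    (σ : Fin k → Fin m → Fin r)
    (Z : Fin k → Fin r → Matrix (Fin t → ZMod 2) (Fin t → ZMod 2) ℤ)
    (B : Fin m → Matrix (Fin n) (Fin n) F),
    GN (fun j => pri fun i => Z i (σ i j)) B → GN (fun j => pri fun i => X.T (σ i j)) B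

/-- PC-GRID: small integer parameters suffice -/
def StGrid.{u} : Prop :=
  ∀ (F : Type u) [Field F] [CharZero F] (I : Type) [Fintype I] [DecidableEq I] (n m : ℕ)
    (P : Fin m → Matrix (I → ZMod 2) (I → ZMod 2) ℤ) (B : Fin m → Matrix (Fin n) (Fin n) F),
    GN P B → ∃ c e : I → ℕ, (∀ i, c i ≤ n * 2 ^ Fintype.card I) ∧
      (∀ i, e i ≤ n * 2 ^ Fintype.card I) ∧
      (tens (cst F fun j => twist (fun i => (c i : ℤ)) (fun i => (e i : ℤ)) (P j)) B).det ≠ 0

/-- PC-COMMON: common parameters for two tuples -/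
def StCommon.{u} : Prop :=
  ∀ (F : Type u) [Field F] [CharZero F] (I : Type) [Fintype I] [DecidableEq I] (n m n' m' : ℕ)
    (P : Fin m → Matrix (I → ZMod 2) (I → ZMod 2) ℤ) (B : Fin m → Matrix (Fin n) (Fin n) F)
    (P' : Fin m' → Matrix (I → ZMod 2) (I → ZMod 2) ℤ) (B' : Fin m' → Matrix (Fin n') (Fin n') F),
    GN P B → GN P' B' → ∃ c e : I → F, (big c e P B).det ≠ 0 ∧ (big c e P' B').det ≠ 0

/-- PC-CONV: the converse -/
def StConv.{u} : Prop :=
  ∀ (F : Type u) [Field F] [CharZero F] (n m k : ℕ) (X : Data n (m + 1)) (cl : Fin m → Fin k)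
    (B : Fin m → Matrix (Fin n) (Fin n) F), GN (ptup X cl) B → PcNonsing B cl

/-- PC-HIER: the first properties of the hierarchy -/
def StHier.{u} : Prop :=
  ∀ (F : Type u) [Field F] [CharZero F] (n m k : ℕ) (B : Fin m → Matrix (Fin n) (Fin n) F)
    (cl : Fin m → Fin k),
    (Nonsing B → PcNonsing B cl) ∧ (Function.Injective cl → PcNonsing B cl → Nonsing B) ∧
      (k = 1 → (PcNonsing B cl ↔ NcNonsing B))

/-- PC-COARSE: fewer relations make more matrices nonsingular -/
def StCoarse.{u} : Prop :=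
  ∀ (F : Type u) [Field F] [CharZero F] (n m k k' : ℕ) (B : Fin m → Matrix (Fin n) (Fin n) F)
    (cl : Fin m → Fin k) (π : Fin k → Fin k'), PcNonsing B cl → PcNonsing B (π ∘ cl)

end Pool.Agent.Lib.MP_64d474_lc.Pc
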