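import Mathlib
import Pool.Agent.Lib.MP_64d474_lc.Pc.Stmts
import Pool.Agent.Lib.MP_64d474_lc.Nc.Avg
import Pool.Agent.Lib.MP_64d474_lc.Nc.Comp
import Pool.Agent.Lib.MP_64d474_lc.Nc.Scale
import Pool.Agent.Lib.MP_64d474_lc.Nc.Rank

/-!
Signs with the moments of independent signs reach on average one third of the noncommutative rank,
over every field of characteristic zero.
-/

open Matrix Module

set_option linter.unusedSectionVars false

namespace Pool.Agent.Lib.MP_64d474_lc.Pc

open Pool.Agent.Lib.MP_64d474_lc.Op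
open Pool.Agent.Lib.MP_64d474_lc.Nc

namespace AvgF

/-- the rank of an integer combination as the rank of a tensor -/
theorem rank_comb {F : Type*} [Field F] {r m : ℕ} (a : Fin m → ℤ)
    (B : Fin m → Matrix (Fin r) (Fin r) F) :
    (tens (cst F fun k => a k • (1 : Matrix (Fin 1) (Fin 1) ℤ)) B).rank =
      (∑ k, (a k : F) • B k).rank := by
  have e : tens (cst F fun k => a k • (1 : Matrix (Fin 1) (Fin 1) ℤ)) B =
      (∑ k, (a k : F) • B k).submatrix (Equiv.uniqueProd (Fin r) (Fin 1))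
        (Equiv.uniqueProd (Fin r) (Fin 1)) := by
    ext ⟨i, x⟩ ⟨j, y⟩
    have hij : i = j := Subsingleton.elim _ _
    subst hij
    rw [tens_apply, Matrix.submatrix_apply, Matrix.sum_apply]
    refine Finset.sum_congr rfl fun k _ => ?_
    rw [cst, Matrix.map_apply, Matrix.smul_apply, Matrix.one_apply_eq, Matrix.smul_apply,
      smul_eq_mul, smul_eq_mul, mul_one]
    rfl
  rw [e, Matrix.rank_submatrix]

/-- the square case -/
theorem third_avg_field.{u} {F : Type u} [Field F] [CharZero F] {κ Ω : Type} [Fintype κ]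
    [DecidableEq κ] [Fintype Ω] [Nonempty Ω] (a : Ω → κ → ℤ) (ha : Mom fun ω k => (a ω k : ℝ))
    (r : ℕ) (A : κ → Matrix (Fin r) (Fin r) F) (hA : Nsh fun k => (A k).mulVecLin) :
    Fintype.card Ω * r ≤ 3 * ∑ ω, (∑ k, (a ω k : F) • A k).rank := by
  let e : Fin (Fintype.card κ) ≃ κ := (Fintype.equivFin κ).symm
  have h1 : Nonshrunk fun k => A (e k) := by
    intro U
    have h2 := hA U
    have h3 : img (fun k => (A k).mulVecLin) U =
        ⨆ k, U.map (A (e k)).mulVecLin := by
      unfold img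
      exact (e.iSup_comp (g := fun k => U.map (A k).mulVecLin)).symm
    rwa [h3] at h2
  obtain ⟨B', hB', hrk⟩ := exists_complex_tens (fun k => A (e k)) h1
  have hN : Nsh fun k => (B' (e.symm k)).mulVecLin := by
    intro U
    have h2 := hB' U
    have h3 : img (fun k => (B' (e.symm k)).mulVecLin) U = ⨆ k, U.map (B' k).mulVecLin := by
      unfold img
      exact e.symm.iSup_comp (g := fun k => U.map (B' k).mulVecLin)
    rwa [← h3] at h2
  have h4 := third_avg stScale (fun ω k => (a ω k : ℝ)) ha r (fun k => B' (e.symm k)) hN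
  have h5 : ∀ ω, (∑ k, ((a ω k : ℝ) : ℂ) • B' (e.symm k)).rank =
      (∑ k, (a ω k : F) • A k).rank := by
    intro ω
    have h6 := hrk (Fin 1) (fun k => a ω (e k) • (1 : Matrix (Fin 1) (Fin 1) ℤ))
    rw [rank_comb, rank_comb] at h6
    have h7 : ∑ k, ((a ω k : ℝ) : ℂ) • B' (e.symm k) = ∑ k, (a ω (e k) : ℂ) • B' k := by
      rw [← e.sum_comp]
      refine Finset.sum_congr rfl fun k _ => ?_
      rw [Equiv.symm_apply_apply]
      push_cast
      rfl
    have h8 : ∑ k, (a ω k : F) • A k = ∑ k, (a ω (e k) : F) • A (e k) :=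
      (e.sum_comp fun k => (a ω k : F) • A k).symm
    rw [h7, h8, h6]
  rw [Finset.sum_congr rfl fun ω _ => h5 ω] at h4
  exact h4

end AvgF

open AvgF

theorem stAvgF.{u} : StAvgF.{u} := by
  intro F _ _ κ Ω _ _ _ _ a ha E E' _ _ _ _ _ _ C
  obtain ⟨U, r, L, R, hU, hN⟩ := stComp.{u} F κ E E' C
  refine ⟨U, ?_⟩
  set A : κ → Matrix (Fin r) (Fin r) F := fun k => LinearMap.toMatrix' (L ∘ₗ C k ∘ₗ R) with hA
  have hlin : ∀ k, (A k).mulVecLin = L ∘ₗ C k ∘ₗ R := by
    intro k
    rw [hA, ← Matrix.toLin'_apply']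
    exact Matrix.toLin'_toMatrix' _
  have hN' : Nsh fun k => (A k).mulVecLin := by
    simp only [hlin]
    exact hN
  have h1 := third_avg_field a ha r A hN'
  have h2 : ∀ ω, (∑ k, (a ω k : F) • A k).rank ≤
      finrank F (LinearMap.range (∑ k, (a ω k : F) • C k)) := by
    intro ω
    have h3 : (∑ k, (a ω k : F) • A k).mulVecLin = L ∘ₗ (∑ k, (a ω k : F) • C k) ∘ₗ R := by
      have h4 : (∑ k, (a ω k : F) • A k) =
          LinearMap.toMatrix' (L ∘ₗ (∑ k, (a ω k : F) • C k) ∘ₗ R) := by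
        have h5 : L ∘ₗ (∑ k, (a ω k : F) • C k) ∘ₗ R =
            ∑ k, (a ω k : F) • (L ∘ₗ C k ∘ₗ R) := by
          ext x
          simp [map_sum]
        rw [h5, map_sum]
        refine Finset.sum_congr rfl fun k _ => ?_
        rw [map_smul]
      rw [h4, ← Matrix.toLin'_apply']
      exact Matrix.toLin'_toMatrix' _
    rw [Matrix.rank, h3]
    have h6 : LinearMap.range (L ∘ₗ (∑ k, (a ω k : F) • C k) ∘ₗ R) ≤
        (LinearMap.range (∑ k, (a ω k : F) • C k)).map L := by
      rintro _ ⟨x, rfl⟩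
      exact ⟨_, ⟨R x, rfl⟩, rfl⟩
    exact (Submodule.finrank_mono h6).trans (Submodule.finrank_map_le _ _)
  have h7 : ∑ ω, (∑ k, (a ω k : F) • A k).rank ≤
      ∑ ω, finrank F (LinearMap.range (∑ k, (a ω k : F) • C k)) :=
    Finset.sum_le_sum fun ω _ => h2 ω
  calc Fintype.card Ω * (finrank F E + finrank F (img C U))
      ≤ Fintype.card Ω * (finrank F U + r) := Nat.mul_le_mul_left _ hU
    _ = Fintype.card Ω * finrank F U + Fintype.card Ω * r := Nat.mul_add _ _ _
    _ ≤ Fintype.card Ω * finrank F U +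
        3 * ∑ ω, finrank F (LinearMap.range (∑ k, (a ω k : F) • C k)) := by
      refine Nat.add_le_add_left ?_ _
      exact h1.trans (Nat.mul_le_mul_left _ h7)

end Pool.Agent.Lib.MP_64d474_lc.Pc
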