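import Pool.Agent.Lib.MP_64d474_lc.Pc.Stmts

/-!
# Module Coarse: fewer relations make more matrices nonsingular
(helper3, MP_64d474_lc)
-/

open Matrix Module

set_option linter.unusedSectionVars false

namespace Pool.Agent.Lib.MP_64d474_lc.Pc

open Pool.Agent.Lib.MP_64d474_lc.Nc

namespace Coarse

theorem prod_one {ι J R : Type*} [Fintype ι] [DecidableEq J] [DecidableEq (ι → J)] [CommRing R]
    (u v : ι → J) :
    ∏ i, (1 : Matrix J J R) (u i) (v i) = (1 : Matrix (ι → J) (ι → J) R) u v := by
  by_cases h : u = v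
  · subst h
    simp
  · rw [Matrix.one_apply_ne h]
    obtain ⟨i, hi⟩ := Function.ne_iff.1 h
    exact Finset.prod_eq_zero (Finset.mem_univ i) (Matrix.one_apply_ne hi)

variable {k k' D N : ℕ} (π : Fin k → Fin k') (ε : Fin N ≃ (Fin k → Fin D))

/-- the pairs which are not of the form `(π i, i)` -/
abbrev Rest : Type := {p : Fin k' × Fin k // ¬ p.1 = π p.2}

/-- the coordinates `(π i, i)` and the other coordinates -/
def split (n : ℕ) : (Fin k' → Fin N) × Fin n ≃ ((Fin k → Fin D) × Fin n) × (Rest π → Fin D) where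
  toFun z := ((fun i => ε (z.1 (π i)) i, z.2), fun p => ε (z.1 p.1.1) p.1.2)
  invFun w := (fun i' => ε.symm fun i => if h : i' = π i then w.1.1 i else w.2 ⟨(i', i), h⟩, w.1.2)
  left_inv z := by
    refine Prod.ext ?_ rfl
    funext i'
    apply ε.injective
    simp only [Equiv.apply_symm_apply]
    funext i
    by_cases h : i' = π i
    · rw [dif_pos h, h]
    · rw [dif_neg h]
  right_inv w := by
    refine Prod.ext (Prod.ext ?_ rfl) ?_
    · funext i
      simp only [Equiv.apply_symm_apply]
      simp
    · funext p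
      simp only [Equiv.apply_symm_apply]
      rw [dif_neg p.2]

theorem place_split {F : Type*} [Field F] (c : Fin k) (Y : Matrix (Fin D) (Fin D) F)
    (x y : Fin k' → Fin N) :
    place (π c) ((place c Y).submatrix ε ε) x y =
      place c Y (fun i => ε (x (π i)) i) (fun i => ε (y (π i)) i) *
        (1 : Matrix (Rest π → Fin D) (Rest π → Fin D) F) (fun p => ε (x p.1.1) p.1.2)
          (fun p => ε (y p.1.1) p.1.2) := by
  classical
  let f : Fin k' × Fin k → F := fun p =>
    (if p.1 = π c ∧ p.2 = c then Y else 1) (ε (x p.1) p.2) (ε (y p.1) p.2)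
  have h1 : place (π c) ((place c Y).submatrix ε ε) x y = ∏ p : Fin k' × Fin k, f p := by
    rw [Fintype.prod_prod_type]
    change ∏ i' : Fin k', (if i' = π c then (place c Y).submatrix ε ε else 1) (x i') (y i') = _
    refine Finset.prod_congr rfl fun i' _ => ?_
    by_cases h : i' = π c
    · rw [if_pos h]
      change ∏ i : Fin k, (if i = c then Y else 1) (ε (x i') i) (ε (y i') i) = _
      refine Finset.prod_congr rfl fun i _ => ?_
      by_cases h2 : i = c
      · simp only [f, h, h2, and_self, if_true]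
      · simp only [f, h, h2, and_false, if_false]
    · rw [if_neg h]
      have h3 : (1 : Matrix (Fin N) (Fin N) F) (x i') (y i') =
          (1 : Matrix (Fin k → Fin D) (Fin k → Fin D) F) (ε (x i')) (ε (y i')) := by
        simp only [Matrix.one_apply, ε.injective.eq_iff]
      rw [h3, ← prod_one]
      refine Finset.prod_congr rfl fun i _ => ?_
      simp only [f, h, false_and, if_false]
  rw [h1, ← Fintype.prod_subtype_mul_prod_subtype (fun p : Fin k' × Fin k => p.1 = π p.2) f]
  congr 1
  · let e : Fin k ≃ {p : Fin k' × Fin k // p.1 = π p.2} :=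
      { toFun := fun i => ⟨(π i, i), rfl⟩
        invFun := fun p => p.1.2
        left_inv := fun i => rfl
        right_inv := fun p => Subtype.ext (Prod.ext p.2.symm rfl) }
    rw [← e.prod_comp]
    change _ = ∏ i : Fin k, (if i = c then Y else 1) (ε (x (π i)) i) (ε (y (π i)) i)
    refine Finset.prod_congr rfl fun i _ => ?_
    by_cases h2 : i = c
    · simp only [f, e, Equiv.coe_fn_mk, h2, and_self, if_true]
    · simp only [f, e, Equiv.coe_fn_mk, h2, and_false, if_false]
  · rw [← prod_one]
    refine Finset.prod_congr rfl fun p _ => ?_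
    have hp : ¬ (p.1.1 = π c ∧ p.1.2 = c) := by
      rintro ⟨h2, h3⟩
      exact p.2 (by rw [h2, h3])
    simp only [f, hp, if_false]

end Coarse

/-- Module Coarse. -/
theorem stCoarse.{u} : StCoarse.{u} := by
  intro F _ _ n m k k' B cl π h
  obtain ⟨D, hD, Y, hY⟩ := h
  let ε : Fin (Fintype.card (Fin k → Fin D)) ≃ (Fin k → Fin D) := (Fintype.equivFin _).symm
  have : Nonempty (Fin D) := ⟨⟨0, hD⟩⟩
  refine ⟨Fintype.card (Fin k → Fin D), Fintype.card_pos,
    fun j => (place (cl j) (Y j)).submatrix ε ε, ?_⟩
  have h1 : tens (fun j => place ((π ∘ cl) j) ((place (cl j) (Y j)).submatrix ε ε)) B =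
      (kroneckerMap (· * ·) (tens (fun j => place (cl j) (Y j)) B)
        (1 : Matrix (Coarse.Rest π → Fin D) (Coarse.Rest π → Fin D) F)).submatrix
          (Coarse.split π ε n) (Coarse.split π ε n) := by
    ext z w
    rw [Matrix.submatrix_apply, Matrix.kroneckerMap_apply, tens, tens, Matrix.sum_apply,
      Matrix.sum_apply, Finset.sum_mul]
    refine Finset.sum_congr rfl fun j _ => ?_
    rw [Matrix.kroneckerMap_apply, Matrix.kroneckerMap_apply]
    have := Coarse.place_split π ε (cl j) (Y j) z.1 w.1
    rw [Function.comp_apply, this]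
    have h2 : (1 : Matrix (Coarse.Rest π → Fin D) (Coarse.Rest π → Fin D) F)
        (Coarse.split π ε n z).2 (Coarse.split π ε n w).2 =
        (1 : Matrix (Coarse.Rest π → Fin D) (Coarse.Rest π → Fin D) F)
          (fun p => ε (z.1 p.1.1) p.1.2) (fun p => ε (w.1 p.1.1) p.1.2) := rfl
    rw [h2]
    exact mul_right_comm _ _ _
  rw [h1, Matrix.det_submatrix_equiv_self]
  have h2 := Matrix.det_kronecker (tens (fun j => place (cl j) (Y j)) B)
    (1 : Matrix (Coarse.Rest π → Fin D) (Coarse.Rest π → Fin D) F)
  rw [h2, Matrix.det_one, one_pow, mul_one]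
  exact pow_ne_zero _ hY

end Pool.Agent.Lib.MP_64d474_lc.Pc
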