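import Mathlib
import Pool.Agent.Lib.MP_64d474_lc.Pc.Stmts

/-!
# Partially commutative symbolic matrices: the corank is a multiple of the size of the torus

If all twists of the tuple are singular, then the kernel of the generic twist is a nonzero
subspace which is stable under the semilinear automorphisms of `StTorus`, so its dimension is a
positive multiple of `2 ^ |I|`.
-/

open Matrix Module MvPolynomial

set_option linter.unusedSectionVars false

namespace Pool.Agent.Lib.MP_64d474_lc.Pc

open Pool.Agent.Lib.MP_64d474_lc.Op (sgn)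
open Pool.Agent.Lib.MP_64d474_lc.Nc

namespace Corank

variable {I : Type*} [Fintype I] [DecidableEq I]

theorem tw_hom {R S : Type*} [CommRing R] [CommRing S] (f : R →+* S) (c e : I → R)
    (T : Matrix (I → ZMod 2) (I → ZMod 2) ℤ) (x y : I → ZMod 2) :
    f (tw c e T x y) = tw (fun i => f (c i)) (fun i => f (e i)) T x y := by
  rw [tw, tw, map_mul, map_sum, map_prod]
  congr 1
  · refine Finset.sum_congr rfl fun z _ => ?_
    rw [map_mul, map_prod, map_intCast]
    congr 1
    refine Finset.prod_congr rfl fun i _ => ?_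
    rw [map_add, map_one, map_mul, map_intCast]
  · refine Finset.prod_congr rfl fun i _ => ?_
    split_ifs
    · exact map_one f
    · rfl

theorem big_hom {κ ι R S : Type*} [Fintype κ] [CommRing R] [CommRing S] (f : R →+* S)
    (c e : I → R) (T : κ → Matrix (I → ZMod 2) (I → ZMod 2) ℤ) (b : κ → Matrix ι ι R) :
    (big c e T b).map f = big (fun i => f (c i)) (fun i => f (e i)) T fun k => (b k).map f := by
  ext p q
  simp only [Matrix.map_apply, big, map_sum, map_mul, tw_hom]

theorem det_hom {κ ι R S : Type*} [Fintype κ] [Fintype ι] [DecidableEq ι] [CommRing R]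
    [CommRing S] (f : R →+* S)
    (c e : I → R) (T : κ → Matrix (I → ZMod 2) (I → ZMod 2) ℤ) (b : κ → Matrix ι ι R) :
    f (big c e T b).det =
      (big (fun i => f (c i)) (fun i => f (e i)) T fun k => (b k).map f).det := by
  rw [RingHom.map_det, RingHom.mapMatrix_apply, big_hom]

/-- if all twists are singular then the generic twist is singular -/
theorem det_gen {F : Type*} [Field F] [CharZero F] {n m : ℕ}
    (P : Fin m → Matrix (I → ZMod 2) (I → ZMod 2) ℤ) (B : Fin m → Matrix (Fin n) (Fin n) F)
    (h : ¬ GN P B) :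
    (big (gc F) (ge F) P fun j => (B j).map (algebraMap F (FK I F))).det = 0 := by
  have h0 : (big (fun i : I => (X (Sum.inl i) : MvPolynomial (I ⊕ I) F))
      (fun i => X (Sum.inr i)) P fun j => (B j).map (C : F →+* MvPolynomial (I ⊕ I) F)).det
        = 0 := by
    refine MvPolynomial.funext fun x => ?_
    rw [map_zero, det_hom]
    have hb : (fun k => ((B k).map (C : F →+* MvPolynomial (I ⊕ I) F)).map (eval x)) = B := by
      funext k
      ext a b
      simp
    rw [hb]
    by_contra hne
    exact h ⟨fun i => x (Sum.inl i), fun i => x (Sum.inr i), by simpa using hne⟩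
  have h1 := congrArg (algebraMap (MvPolynomial (I ⊕ I) F) (FK I F)) h0
  rw [map_zero, det_hom] at h1
  rw [← h1]
  congr 2

end Corank

/-- PC-CORANK -/
theorem stCorank.{u} (h : StTorus.{u}) : StCorank.{u} := by
  intro F _ _ I _ _ n m P B hGN
  obtain ⟨Γ, hΓ, hdvd⟩ := h F I n
  set M := big (gc F) (ge F) P fun j => (B j).map (algebraMap F (FK I F)) with hM
  have hdet : M.det = 0 := Corank.det_gen P B hGN
  have hMsum : ∀ v, M *ᵥ v = ∑ j, kroneckerMap (· * ·) (gtw F (P j))
      ((B j).map (algebraMap F (FK I F))) *ᵥ v := by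
    intro v
    have : M = ∑ j, kroneckerMap (· * ·) (gtw F (P j)) ((B j).map (algebraMap F (FK I F))) := by
      ext p q
      rw [hM, big, Matrix.sum_apply]
      rfl
    rw [this, Matrix.sum_mulVec]
  have hst : Stable Γ (LinearMap.ker M.mulVecLin) := by
    intro s hs v hv
    rw [LinearMap.mem_ker, Matrix.mulVecLin_apply] at hv ⊢
    rw [hMsum]
    calc ∑ j, kroneckerMap (· * ·) (gtw F (P j)) ((B j).map (algebraMap F (FK I F))) *ᵥ s.g v
        = ∑ j, s.g (kroneckerMap (· * ·) (gtw F (P j))
            ((B j).map (algebraMap F (FK I F))) *ᵥ v) :=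
          Finset.sum_congr rfl fun j _ => hΓ s hs _ _ _
      _ = s.g (M *ᵥ v) := by rw [hMsum, map_sum]
      _ = 0 := by rw [hv, map_zero]
  have hd := hdvd _ hst
  have hpos : 0 < finrank (FK I F) (LinearMap.ker M.mulVecLin) := by
    obtain ⟨v, hv0, hv⟩ := Matrix.exists_mulVec_eq_zero_iff.mpr hdet
    rw [Module.finrank_pos_iff]
    exact ⟨⟨⟨v, by rw [LinearMap.mem_ker, Matrix.mulVecLin_apply, hv]⟩, 0,
      fun he => hv0 (congrArg Subtype.val he)⟩⟩
  have hle := Nat.le_of_dvd hpos hd
  have hrn := LinearMap.finrank_range_add_finrank_ker M.mulVecLin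
  have hcard : finrank (FK I F) ((I → ZMod 2) × Fin n → FK I F) = 2 ^ Fintype.card I * n := by
    rw [Module.finrank_fintype_fun_eq_card, Fintype.card_prod, Fintype.card_fun, ZMod.card,
      Fintype.card_fin]
  rw [hcard] at hrn
  have hr : M.rank = finrank (FK I F) (LinearMap.range M.mulVecLin) := rfl
  omega

end Pool.Agent.Lib.MP_64d474_lc.Pc
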