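import Mathlib
import Pool.Agent.Lib.MP_64d474_lc.Pc.Stmts

/-!
# Partially commutative symbolic matrices: first properties of the hierarchy

Nonsingular matrices stay nonsingular with fewer relations; with all relations one gets the usual
singularity, with no relations the noncommutative singularity.
-/

open Matrix Module

set_option linter.unusedSectionVars false

namespace Pool.Agent.Lib.MP_64d474_lc.Pc

open Pool.Agent.Lib.MP_64d474_lc.Nc

namespace HierAux

theorem tens_entry {F : Type*} [Field F] {κ J : Type*} [Fintype κ] [Fintype J] {n : ℕ}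
    (T : κ → Matrix J J F) (B : κ → Matrix (Fin n) (Fin n) F) (p q : J × Fin n) :
    tens T B p q = ∑ k, T k p.1 q.1 * B k p.2 q.2 := by
  rw [tens, Matrix.sum_apply]
  rfl

theorem reindex {F : Type*} [Field F] {n m : ℕ} {J J' : Type*} [Fintype J] [Fintype J']
    [DecidableEq J] [DecidableEq J'] (e : J' ≃ J) (Y : Fin m → Matrix J J F)
    (B : Fin m → Matrix (Fin n) (Fin n) F) :
    (tens (fun k => (Y k).submatrix e e) B).det = (tens Y B).det := by
  have h1 : tens (fun k => (Y k).submatrix e e) B =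
      (tens Y B).submatrix (e.prodCongr (Equiv.refl (Fin n)))
        (e.prodCongr (Equiv.refl (Fin n))) := by
    ext p q
    rw [tens_entry, Matrix.submatrix_apply, tens_entry]
    rfl
  rw [h1, Matrix.det_submatrix_equiv_self]

/-! ### Nonsingular matrices -/

theorem of_nonsing {F : Type*} [Field F] {n m k : ℕ} (B : Fin m → Matrix (Fin n) (Fin n) F)
    (cl : Fin m → Fin k) (h : Nonsing B) : PcNonsing B cl := by
  obtain ⟨x, hx⟩ := h
  refine ⟨1, one_pos, fun j => x j • (1 : Matrix (Fin 1) (Fin 1) F), ?_⟩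
  have hp : ∀ (j : Fin m) (p q : Fin k → Fin 1),
      place (cl j) (x j • (1 : Matrix (Fin 1) (Fin 1) F)) p q = x j := by
    intro j p q
    have hpq : p = q := Subsingleton.elim _ _
    subst hpq
    have h1 : place (cl j) (x j • (1 : Matrix (Fin 1) (Fin 1) F)) p p =
        ∏ i, if i = cl j then x j else 1 := by
      rw [place, prd]
      refine Finset.prod_congr rfl fun i _ => ?_
      by_cases hi : i = cl j
      · rw [if_pos hi, if_pos hi, Matrix.smul_apply, Matrix.one_apply_eq, smul_eq_mul, mul_one]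
      · rw [if_neg hi, if_neg hi, Matrix.one_apply_eq]
    rw [h1, Finset.prod_ite_eq' Finset.univ (cl j) fun _ => x j, if_pos (Finset.mem_univ _)]
  have e : tens (fun j => place (cl j) (x j • (1 : Matrix (Fin 1) (Fin 1) F))) B =
      (∑ k, x k • B k).submatrix (Equiv.uniqueProd (Fin n) (Fin k → Fin 1))
        (Equiv.uniqueProd (Fin n) (Fin k → Fin 1)) := by
    ext ⟨p, a⟩ ⟨q, b⟩
    rw [tens_entry, Matrix.submatrix_apply, Matrix.sum_apply]
    refine Finset.sum_congr rfl fun j _ => ?_
    rw [hp, Matrix.smul_apply, smul_eq_mul]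
    rfl
  rw [e, Matrix.det_submatrix_equiv_self]
  exact hx

/-! ### One class -/

theorem place_one {F : Type*} [Field F] {D : ℕ} (i : Fin 1) (Y : Matrix (Fin D) (Fin D) F) :
    place i Y = Y.submatrix (Equiv.funUnique (Fin 1) (Fin D)) (Equiv.funUnique (Fin 1) (Fin D)) := by
  ext p q
  have hi : i = 0 := Subsingleton.elim _ _
  subst hi
  rw [place, prd, Matrix.submatrix_apply, Fintype.prod_subsingleton _ (0 : Fin 1), if_pos rfl]
  rfl

theorem one_iff {F : Type*} [Field F] {n m : ℕ} (B : Fin m → Matrix (Fin n) (Fin n) F)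
    (cl : Fin m → Fin 1) : PcNonsing B cl ↔ NcNonsing B := by
  have key : ∀ (D : ℕ) (Y : Fin m → Matrix (Fin D) (Fin D) F),
      (tens (fun j => place (cl j) (Y j)) B).det = (tens Y B).det := by
    intro D Y
    rw [← reindex (Equiv.funUnique (Fin 1) (Fin D)) Y B]
    congr 2
    funext j
    exact place_one (cl j) (Y j)
  constructor
  · rintro ⟨D, hD, Y, hY⟩
    exact ⟨D, hD, Y, by rwa [key] at hY⟩
  · rintro ⟨D, hD, Y, hY⟩
    exact ⟨D, hD, Y, by rwa [key]⟩

/-! ### All relations -/

/-- tensor products of matrices and vectors -/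
theorem prd_mulVec {R : Type*} [CommRing R] {k : ℕ} {J : Type*} [Fintype J] [DecidableEq J]
    (Z : Fin k → Matrix J J R) (w : Fin k → J → R) (x : Fin k → J) :
    (prd Z *ᵥ fun y => ∏ i, w i (y i)) x = ∏ i, (Z i *ᵥ w i) (x i) := by
  simp only [Matrix.mulVec, dotProduct, prd]
  rw [Finset.prod_univ_sum, Fintype.piFinset_univ]
  refine Finset.sum_congr rfl fun y _ => ?_
  rw [Finset.prod_mul_distrib]

/-- a tensor product of vectors is an eigenvector of a matrix at one place if the vector at this
place is one -/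
theorem place_mulVec {R : Type*} [CommRing R] {k : ℕ} {J : Type*} [Fintype J] [DecidableEq J]
    (i : Fin k) (Y : Matrix J J R) (w : Fin k → J → R) (c : R) (h : Y *ᵥ w i = c • w i)
    (x : Fin k → J) :
    (place i Y *ᵥ fun y => ∏ i, w i (y i)) x = c * ∏ i, w i (x i) := by
  rw [place, prd_mulVec]
  have h1 : ∀ i' : Fin k, ((if i' = i then Y else 1) *ᵥ w i') (x i') =
      (if i' = i then c else 1) * w i' (x i') := by
    intro i'
    by_cases hi : i' = i
    · subst hi
      rw [if_pos rfl, if_pos rfl, h, Pi.smul_apply, smul_eq_mul]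
    · rw [if_neg hi, if_neg hi, Matrix.one_mulVec, one_mul]
  rw [Finset.prod_congr rfl fun i' _ => h1 i', Finset.prod_mul_distrib,
    Finset.prod_ite_eq' Finset.univ i fun _ => c, if_pos (Finset.mem_univ _)]

/-- singularity over the field implies singularity over every extension -/
theorem det_ext {F : Type*} [Field F] [Infinite F] {K : Type*} [Field K] [Algebra F K] {n m : ℕ}
    (B : Fin m → Matrix (Fin n) (Fin n) F) (h : ∀ x : Fin m → F, (∑ k, x k • B k).det = 0)
    (x : Fin m → K) : (∑ k, x k • (B k).map (algebraMap F K)).det = 0 := by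
  classical
  set P : Matrix (Fin n) (Fin n) (MvPolynomial (Fin m) F) :=
    ∑ k, (MvPolynomial.X k : MvPolynomial (Fin m) F) • (B k).map MvPolynomial.C with hP
  have h0 : P.det = 0 := by
    refine MvPolynomial.funext fun y => ?_
    rw [RingHom.map_det, map_zero, ← h y]
    congr 1
    ext a b
    rw [RingHom.mapMatrix_apply, Matrix.map_apply, hP, Matrix.sum_apply, map_sum,
      Matrix.sum_apply]
    refine Finset.sum_congr rfl fun k _ => ?_
    rw [Matrix.smul_apply, Matrix.smul_apply, Matrix.map_apply, smul_eq_mul, smul_eq_mul, map_mul,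
      MvPolynomial.eval_X, MvPolynomial.eval_C]
  have h1 : (MvPolynomial.aeval x : MvPolynomial (Fin m) F →ₐ[F] K) P.det = 0 := by
    rw [h0, map_zero]
  rw [AlgHom.map_det] at h1
  rw [← h1]
  congr 1
  ext a b
  rw [AlgHom.mapMatrix_apply, Matrix.map_apply, hP, Matrix.sum_apply, Matrix.sum_apply, map_sum]
  refine Finset.sum_congr rfl fun k _ => ?_
  rw [Matrix.smul_apply, Matrix.smul_apply, Matrix.map_apply, Matrix.map_apply, smul_eq_mul,
    smul_eq_mul, map_mul, MvPolynomial.aeval_X, MvPolynomial.algHom_C]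

theorem exists_eigen {K : Type*} [Field K] [IsAlgClosed K] {D : ℕ} (hD : 0 < D)
    (Y : Matrix (Fin D) (Fin D) K) : ∃ (c : K) (w : Fin D → K), w ≠ 0 ∧ Y *ᵥ w = c • w := by
  have : Nonempty (Fin D) := ⟨⟨0, hD⟩⟩
  obtain ⟨c, hc⟩ := Module.End.exists_eigenvalue (K := K) (V := Fin D → K) Y.mulVecLin
  obtain ⟨w, hw⟩ := hc.exists_hasEigenvector
  exact ⟨c, w, hw.2, hw.apply_eq_smul⟩

theorem to_nonsing {F : Type*} [Field F] [CharZero F] {n m k : ℕ}
    (B : Fin m → Matrix (Fin n) (Fin n) F) (cl : Fin m → Fin k) (hcl : Function.Injective cl)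
    (h : PcNonsing B cl) : Nonsing B := by
  classical
  obtain ⟨D, hD, Y, hY⟩ := h
  by_contra hB
  have hB' : ∀ x : Fin m → F, (∑ k, x k • B k).det = 0 := fun x => by
    by_contra hx
    exact hB ⟨x, hx⟩
  let K := AlgebraicClosure F
  let φ : F →+* K := algebraMap F K
  -- the vectors
  have hw : ∀ i : Fin k, ∃ w : Fin D → K, w ≠ 0 ∧
      ∀ j, cl j = i → ∃ c : K, (Y j).map φ *ᵥ w = c • w := by
    intro i
    by_cases hi : ∃ j, cl j = i
    · obtain ⟨j, hj⟩ := hi
      obtain ⟨c, w, hw0, hw⟩ := exists_eigen hD ((Y j).map φ)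
      refine ⟨w, hw0, fun j' hj' => ?_⟩
      have : j' = j := hcl (hj'.trans hj.symm)
      subst this
      exact ⟨c, hw⟩
    · refine ⟨fun _ => 1, fun h0 => ?_, fun j hj => absurd ⟨j, hj⟩ hi⟩
      exact one_ne_zero (congrFun h0 ⟨0, hD⟩)
  choose w hw0 hw1 using hw
  have hc : ∀ j : Fin m, ∃ c : K, (Y j).map φ *ᵥ w (cl j) = c • w (cl j) := fun j =>
    hw1 (cl j) j rfl
  choose c hc using hc
  -- a kernel vector
  obtain ⟨v, hv0, hv⟩ := Matrix.exists_mulVec_eq_zero_iff.mpr (det_ext (K := K) B hB' c)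
  -- the matrix over the extension
  have hmap : (tens (fun j => place (cl j) (Y j)) B).map φ =
      tens (fun j => place (cl j) ((Y j).map φ)) fun j => (B j).map φ := by
    ext p q
    rw [Matrix.map_apply, tens_entry, tens_entry, map_sum]
    refine Finset.sum_congr rfl fun j _ => ?_
    rw [map_mul, Matrix.map_apply]
    congr 1
    rw [place, place, prd, prd, map_prod]
    refine Finset.prod_congr rfl fun i _ => ?_
    by_cases hi : i = cl j
    · rw [if_pos hi, if_pos hi, Matrix.map_apply]
    · rw [if_neg hi, if_neg hi, Matrix.one_apply, Matrix.one_apply, apply_ite φ, map_one,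
        map_zero]
  have hdet : (tens (fun j => place (cl j) ((Y j).map φ)) fun j => (B j).map φ).det ≠ 0 := by
    rw [← hmap]
    have : ((tens (fun j => place (cl j) (Y j)) B).map φ).det =
        φ (tens (fun j => place (cl j) (Y j)) B).det := by
      rw [RingHom.map_det]
      rfl
    rw [this]
    exact (map_ne_zero φ).mpr hY
  apply hdet
  rw [← Matrix.exists_mulVec_eq_zero_iff]
  refine ⟨fun p => (∏ i, w i (p.1 i)) * v p.2, fun h0 => ?_, ?_⟩
  · -- the vector is nonzero
    have hx : ∀ i, ∃ x : Fin D, w i x ≠ 0 := by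
      intro i
      by_contra hcon
      push Not at hcon
      exact hw0 i (funext hcon)
    choose x hx using hx
    obtain ⟨a, ha⟩ : ∃ a, v a ≠ 0 := by
      by_contra hcon
      push Not at hcon
      exact hv0 (funext hcon)
    have h1 := congrFun h0 (x, a)
    rw [Pi.zero_apply] at h1
    rcases mul_eq_zero.mp h1 with h2 | h2
    · exact Finset.prod_ne_zero_iff.mpr (fun i _ => hx i) h2
    · exact ha h2
  · funext p
    obtain ⟨x, a⟩ := p
    rw [Pi.zero_apply, Matrix.mulVec, dotProduct, Fintype.sum_prod_type]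
    have h1 : ∀ y b, tens (fun j => place (cl j) ((Y j).map φ)) (fun j => (B j).map φ)
          (x, a) (y, b) * ((∏ i, w i (y i)) * v b) =
        ∑ j, (place (cl j) ((Y j).map φ) x y * ∏ i, w i (y i)) * ((B j).map φ a b * v b) := by
      intro y b
      rw [tens_entry, Finset.sum_mul]
      refine Finset.sum_congr rfl fun j _ => ?_
      ring
    have h2 : ∑ y, ∑ b, tens (fun j => place (cl j) ((Y j).map φ)) (fun j => (B j).map φ)
          (x, a) (y, b) * ((∏ i, w i (y i)) * v b) =
        ∑ j, (place (cl j) ((Y j).map φ) *ᵥ fun y => ∏ i, w i (y i)) x *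
          ((B j).map φ *ᵥ v) a := by
      rw [Finset.sum_congr rfl fun y _ => (Finset.sum_congr rfl fun b _ => h1 y b)]
      rw [Finset.sum_congr rfl fun y _ => Finset.sum_comm, Finset.sum_comm]
      refine Finset.sum_congr rfl fun j _ => ?_
      simp only [Matrix.mulVec, dotProduct]
      rw [Finset.sum_mul_sum]
    rw [h2]
    have h3 := congrFun hv a
    rw [Matrix.sum_mulVec, Finset.sum_apply, Pi.zero_apply] at h3
    rw [Finset.sum_congr rfl fun j _ => by
      rw [place_mulVec (cl j) ((Y j).map φ) w (c j) (hc j) x]]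
    have h4 : ∀ j, c j * (∏ i, w i (x i)) * ((B j).map φ *ᵥ v) a =
        (∏ i, w i (x i)) * ((c j • (B j).map φ) *ᵥ v) a := by
      intro j
      rw [Matrix.smul_mulVec, Pi.smul_apply, smul_eq_mul]
      ring
    rw [Finset.sum_congr rfl fun j _ => h4 j, ← Finset.mul_sum]
    rw [show (∑ j, ((c j • (B j).map φ) *ᵥ v) a) = 0 from h3, mul_zero]

end HierAux

/-- PC-HIER -/
theorem stHier.{u} : StHier.{u} := by
  intro F _ _ n m k B cl
  refine ⟨HierAux.of_nonsing B cl, HierAux.to_nonsing B cl, fun hk => ?_⟩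
  subst hk
  exact HierAux.one_iff B cl

end Pool.Agent.Lib.MP_64d474_lc.Pc
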