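import Mathlib
import Pool.Agent.Lib.MP_64d474_lc.Nc.Level
import Pool.Agent.Lib.MP_64d474_lc.Pc.Stmts

/-!
One level of a chain of stable subspaces: the average over the signs and the mixing by signed
translations, with stable minimisers of two submodular functions.
-/

open Matrix Module

set_option linter.unusedSectionVars false

namespace Pool.Agent.Lib.MP_64d474_lc.Pc

open Pool.Agent.Lib.MP_64d474_lc.Op (sgn)
open Pool.Agent.Lib.MP_64d474_lc.Nc

namespace LevelAux

section SemiSec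

variable {K X Y : Type*} [Field K] [AddCommGroup X] [Module K X] [AddCommGroup Y] [Module K Y]

/-- the preimage of a subspace under a semilinear automorphism -/
def pull (s : Semi K X) (U : Submodule K X) : Submodule K X where
  carrier := {v | s.g v ∈ U}
  add_mem' := fun {a b} ha hb => by
    change s.g (a + b) ∈ U
    rw [map_add]
    exact U.add_mem ha hb
  zero_mem' := by
    change s.g 0 ∈ U
    rw [map_zero]
    exact U.zero_mem
  smul_mem' a v hv := by
    change s.g (a • v) ∈ U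
    rw [s.smul]
    exact U.smul_mem _ hv

theorem mem_pull {s : Semi K X} {U : Submodule K X} {v : X} : v ∈ pull s U ↔ s.g v ∈ U := Iff.rfl

theorem stable_iff {Γ : Set (Semi K X)} {U : Submodule K X} :
    Stable Γ U ↔ ∀ s ∈ Γ, U ≤ pull s U := Iff.rfl

/-- the inverse -/
def inv (s : Semi K X) : Semi K X where
  σ := s.σ.symm
  g := s.g.symm
  smul a v := by
    rw [AddEquiv.symm_apply_eq, s.smul, RingEquiv.apply_symm_apply, AddEquiv.apply_symm_apply]

/-- the preimages as an order isomorphism -/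
def pullIso (s : Semi K X) : Submodule K X ≃o Submodule K X where
  toFun := pull s
  invFun := pull (inv s)
  left_inv U := by
    ext v
    change s.g (s.g.symm v) ∈ U ↔ v ∈ U
    rw [AddEquiv.apply_symm_apply]
  right_inv U := by
    ext v
    change s.g.symm (s.g v) ∈ U ↔ v ∈ U
    rw [AddEquiv.symm_apply_apply]
  map_rel_iff' {U U'} := by
    constructor
    · intro h v hv
      have h1 : s.g.symm v ∈ pull s U := by
        change s.g (s.g.symm v) ∈ U
        rw [AddEquiv.apply_symm_apply]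
        exact hv
      have h2 : s.g (s.g.symm v) ∈ U' := h h1
      rwa [AddEquiv.apply_symm_apply] at h2
    · intro h v hv
      exact h hv

theorem pullIso_apply (s : Semi K X) (U : Submodule K X) : pullIso s U = pull s U := rfl

theorem pull_mono (s : Semi K X) {U U' : Submodule K X} (h : U ≤ U') : pull s U ≤ pull s U' :=
  fun _ hv => h hv

theorem pull_inf (s : Semi K X) (U U' : Submodule K X) :
    pull s (U ⊓ U') = pull s U ⊓ pull s U' := (pullIso s).map_inf U U'

theorem pull_sup (s : Semi K X) (U U' : Submodule K X) :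
    pull s (U ⊔ U') = pull s U ⊔ pull s U' := (pullIso s).map_sup U U'

theorem pull_iSup {ι : Sort*} (s : Semi K X) (U : ι → Submodule K X) :
    pull s (⨆ i, U i) = ⨆ i, pull s (U i) := (pullIso s).map_iSup U

theorem pull_top (s : Semi K X) : pull s ⊤ = ⊤ := (pullIso s).map_top

theorem finrank_pull (s : Semi K X) (U : Submodule K X) :
    finrank K (pull s U) = finrank K U := by
  let j : pull s U ≃+ U :=
    { toFun := fun v => ⟨s.g v.1, v.2⟩
      invFun := fun w => ⟨s.g.symm w.1, by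
        change s.g (s.g.symm w.1) ∈ U
        rw [AddEquiv.apply_symm_apply]
        exact w.2⟩
      left_inv := fun v => Subtype.ext (s.g.symm_apply_apply v.1)
      right_inv := fun w => Subtype.ext (s.g.apply_symm_apply w.1)
      map_add' := fun v w => Subtype.ext (s.g.map_add v.1 w.1) }
  have h := rank_eq_of_equiv_equiv (R := K) (R' := K) s.σ j s.σ.bijective fun r m =>
    Subtype.ext (s.smul r m.1)
  rw [finrank, finrank, h]

theorem stable_eq [FiniteDimensional K X] {Γ : Set (Semi K X)} {U : Submodule K X}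
    (h : Stable Γ U) {s : Semi K X} (hs : s ∈ Γ) : pull s U = U :=
  (Submodule.eq_of_le_of_finrank_eq (stable_iff.mp h s hs) (finrank_pull s U).symm).symm

theorem stable_of_eq {Γ : Set (Semi K X)} {U : Submodule K X}
    (h : ∀ s ∈ Γ, pull s U = U) : Stable Γ U := stable_iff.mpr fun s hs => (h s hs).ge

theorem st_inf {Γ : Set (Semi K X)} {U U' : Submodule K X} (h : Stable Γ U)
    (h' : Stable Γ U') : Stable Γ (U ⊓ U') := fun s hs v hv => ⟨h s hs v hv.1, h' s hs v hv.2⟩

theorem st_sup {Γ : Set (Semi K X)} {U U' : Submodule K X} (h : Stable Γ U)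
    (h' : Stable Γ U') : Stable Γ (U ⊔ U') := by
  rw [stable_iff]
  intro s hs
  rw [pull_sup]
  exact sup_le_sup (stable_iff.mp h s hs) (stable_iff.mp h' s hs)

/-- a linear map that commutes with semilinear automorphisms -/
def Com (s : Semi K X) (s' : Semi K Y) (f : X →ₗ[K] Y) : Prop := ∀ x, f (s.g x) = s'.g (f x)

theorem Com.pull_map {s : Semi K X} {s' : Semi K Y} {f : X →ₗ[K] Y} (h : Com s s' f)
    (U : Submodule K X) : pull s' (U.map f) = (pull s U).map f := by
  ext y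
  constructor
  · rintro ⟨u, hu, e⟩
    refine ⟨s.g.symm u, ?_, ?_⟩
    · change s.g (s.g.symm u) ∈ U
      rw [AddEquiv.apply_symm_apply]
      exact hu
    · apply s'.g.injective
      rw [← h, AddEquiv.apply_symm_apply, e]
  · rintro ⟨u, hu, rfl⟩
    change s'.g (f u) ∈ U.map f
    rw [← h]
    exact ⟨s.g u, hu, rfl⟩

theorem Com.pull_comap {s : Semi K X} {s' : Semi K Y} {f : X →ₗ[K] Y} (h : Com s s' f)
    (Z : Submodule K Y) : pull s (Z.comap f) = (pull s' Z).comap f := by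
  ext x
  change f (s.g x) ∈ Z ↔ s'.g (f x) ∈ Z
  rw [h]

theorem Com.comp {Z : Type*} [AddCommGroup Z] [Module K Z] {s : Semi K X} {s' : Semi K Y}
    {s'' : Semi K Z} {f : X →ₗ[K] Y} {g : Y →ₗ[K] Z} (hg : Com s' s'' g) (hf : Com s s' f) :
    Com s s'' (g ∘ₗ f) := fun x => by
  rw [LinearMap.comp_apply, hf, hg, LinearMap.comp_apply]

/-- the coordinatewise semilinear automorphism -/
def pi (J : Type*) (s : Semi K X) : Semi K (J → X) where
  σ := s.σ
  g := AddEquiv.piCongrRight fun _ => s.g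
  smul a v := funext fun j => s.smul a (v j)

theorem pi_apply (J : Type*) (s : Semi K X) (v : J → X) (j : J) : (pi J s).g v j = s.g (v j) := rfl

theorem pull_pw (J : Type*) (s : Semi K X) (U : Submodule K X) :
    pull (pi J s) (pw J U) = pw J (pull s U) := by
  ext v
  rw [mem_pull, mem_pw, mem_pw]
  exact Iff.rfl

theorem smul_int (s : Semi K X) (z : ℤ) (v : X) : s.g ((z : K) • v) = (z : K) • s.g v := by
  rw [s.smul, map_intCast]

theorem com_act {J : Type*} [Fintype J] (s : Semi K X) (M : Matrix J J ℤ) :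
    Com (pi J s) (pi J s) (act (V := X) (M.map fun z : ℤ => (z : K))) := by
  intro x
  funext i
  rw [pi_apply, act_apply, act_apply, map_sum]
  refine Finset.sum_congr rfl fun j _ => ?_
  rw [pi_apply, Matrix.map_apply, smul_int]

theorem com_left (J : Type*) {s : Semi K X} {s' : Semi K Y} {f : X →ₗ[K] Y} (h : Com s s' f) :
    Com (pi J s) (pi J s') (f.compLeft J) := fun x => funext fun j => h (x j)

theorem com_ev {κ J : Type*} [Fintype κ] [Fintype J] {s : Semi K X} {s' : Semi K Y}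
    {B : κ → X →ₗ[K] Y} (h : ∀ k, Com s s' (B k)) (T : κ → Matrix J J ℤ) :
    Com (pi J s) (pi J s') (ev B (cst K T)) := by
  intro x
  funext i
  rw [pi_apply, ev_apply, ev_apply, map_sum]
  refine Finset.sum_congr rfl fun k _ => ?_
  rw [map_sum]
  refine Finset.sum_congr rfl fun j _ => ?_
  rw [pi_apply, cst, Matrix.map_apply, smul_int, h]

theorem pull_img {κ : Type*} {s : Semi K X} {s' : Semi K Y} {B : κ → X →ₗ[K] Y}
    (h : ∀ k, Com s s' (B k)) (U : Submodule K X) : pull s' (img B U) = img B (pull s U) := by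
  rw [img, img, pull_iSup]
  exact iSup_congr fun k => (h k).pull_map U

theorem pull_tgt {κ J : Type*} [Fintype κ] [Fintype J] [FiniteDimensional K X]
    [FiniteDimensional K Y] {s : Semi K X} {s' : Semi K Y}
    {B : κ → X →ₗ[K] Y} (h : ∀ k, Com s s' (B k)) (T : κ → Matrix J J ℤ)
    (U U' : Submodule K X) :
    pull (pi J s') (tgt B (cst K T) U U') = tgt B (cst K T) (pull s U) (pull s U') := by
  rw [tgt, tgt, pull_sup, (com_ev h T).pull_map, pull_pw, pull_pw, pull_img h]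

theorem pull_dom {κ J : Type*} [Fintype κ] [Fintype J] [FiniteDimensional K X]
    [FiniteDimensional K Y] {s : Semi K X} {s' : Semi K Y}
    {B : κ → X →ₗ[K] Y} (h : ∀ k, Com s s' (B k)) (T : κ → Matrix J J ℤ)
    (U U' : Submodule K X) :
    pull (pi J s) (dom B (cst K T) U U') = dom B (cst K T) (pull s U) (pull s U') := by
  rw [dom, dom, pull_inf, (com_ev h T).pull_comap, pull_pw, pull_pw, pull_img h]

end SemiSec

section Min

variable {K X : Type*} [Field K] [AddCommGroup X] [Module K X] [FiniteDimensional K X]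

/-- the least minimiser of a submodular function -/
theorem exists_min (D : Submodule K X) (f : Submodule K X → ℤ) (N : ℤ)
    (hN : ∀ A, A ≤ D → -N ≤ f A)
    (hf : ∀ A A', A ≤ D → A' ≤ D → f (A ⊔ A') + f (A ⊓ A') ≤ f A + f A') :
    ∃ A₀, A₀ ≤ D ∧ (∀ A, A ≤ D → f A₀ ≤ f A) ∧ ∀ A, A ≤ D → f A = f A₀ → A₀ ≤ A := by
  classical
  have h1 : ∃ A₁ : {A : Submodule K X // A ≤ D}, ∀ A : {A : Submodule K X // A ≤ D},
      (f A₁ + N).toNat ≤ (f A + N).toNat := by
    have : Nonempty {A : Submodule K X // A ≤ D} := ⟨⟨D, le_rfl⟩⟩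
    exact ⟨Function.argmin (fun A : {A : Submodule K X // A ≤ D} => (f A + N).toNat),
      fun A => Function.argmin_le (f := fun A : {A : Submodule K X // A ≤ D} =>
        (f A + N).toNat) A⟩
  obtain ⟨A₁, hA₁⟩ := h1
  have hmin : ∀ A, A ≤ D → f A₁ ≤ f A := by
    intro A hA
    have h2 := hA₁ ⟨A, hA⟩
    have h3 := hN A hA
    have h4 := hN A₁ A₁.2
    simp only at h2
    omega
  have h2 : ∃ A₀ : {A : Submodule K X // A ≤ D ∧ f A = f A₁}, ∀ A : {A : Submodule K X //
      A ≤ D ∧ f A = f A₁}, finrank K A₀.1 ≤ finrank K A.1 := by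
    have : Nonempty {A : Submodule K X // A ≤ D ∧ f A = f A₁} := ⟨⟨A₁, A₁.2, rfl⟩⟩
    exact ⟨Function.argmin (fun A : {A : Submodule K X // A ≤ D ∧ f A = f A₁} => finrank K A.1),
      fun A => Function.argmin_le (f := fun A : {A : Submodule K X // A ≤ D ∧ f A = f A₁} =>
        finrank K A.1) A⟩
  obtain ⟨⟨A₀, hA₀D, hA₀⟩, hA₀min⟩ := h2
  refine ⟨A₀, hA₀D, fun A hA => by rw [hA₀]; exact hmin A hA, fun A hA hfA => ?_⟩
  have h3 := hf A A₀ hA hA₀D
  have h4 := hmin (A ⊔ A₀) (sup_le hA hA₀D)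
  have h5 := hmin (A ⊓ A₀) (inf_le_left.trans hA)
  have h6 : f (A ⊓ A₀) = f A₁ := by omega
  have h7 := hA₀min ⟨A ⊓ A₀, inf_le_left.trans hA, h6⟩
  have h8 : A ⊓ A₀ = A₀ := Submodule.eq_of_le_of_finrank_le inf_le_right h7
  rw [← h8]
  exact inf_le_left

end Min

section Level

universe u

variable {K V : Type u} [Field K] [CharZero K] [AddCommGroup V] [Module K V]
  [FiniteDimensional K V]

theorem ev_pert {t m : ℕ} {S Ω : Type} [Fintype S] (v : S → Fin t → ZMod 2)
    (a : Ω → Fin m × S × S → ℤ) (ω : Ω) (B : Fin m → V →ₗ[K] V) :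
    ev B (cst K (iprt v a ω)) = ∑ p : Fin m × S × S, (a ω p : K) •
      ((B p.1).compLeft (Fin t → ZMod 2) ∘ₗ act (fwop K (v p.2.1) (v p.2.2))) := by
  refine LinearMap.ext fun x => funext fun i => ?_
  rw [ev_apply, LinearMap.sum_apply, Finset.sum_apply, Fintype.sum_prod_type]
  refine Finset.sum_congr rfl fun k _ => ?_
  rw [Fintype.sum_prod_type]
  have h1 : ∀ s s', ((a ω (k, s, s') : K) • ((B k).compLeft (Fin t → ZMod 2) ∘ₗ
      act (fwop K (v s) (v s')))) x i =
      ∑ j, ((a ω (k, s, s') : K) * fwop K (v s) (v s') i j) • B k (x j) := by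
    intro s s'
    show (a ω (k, s, s') : K) • B k (act (fwop K (v s) (v s')) x i) = _
    rw [act_apply, map_sum, Finset.smul_sum]
    refine Finset.sum_congr rfl fun j _ => ?_
    rw [map_smul, smul_smul]
  simp only [h1]
  rw [Finset.sum_congr rfl fun s _ => Finset.sum_comm, Finset.sum_comm]
  refine Finset.sum_congr rfl fun j _ => ?_
  rw [cst, Matrix.map_apply, iprt, Matrix.sum_apply, Int.cast_sum, Finset.sum_smul]
  refine Finset.sum_congr rfl fun s _ => ?_
  rw [Matrix.sum_apply, Int.cast_sum, Finset.sum_smul]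
  refine Finset.sum_congr rfl fun s' _ => ?_
  rw [Matrix.smul_apply, smul_eq_mul, Int.cast_mul, fwop, Matrix.map_apply]

/-- the first submodular function -/
noncomputable def f₁ {X Y κ : Type*} [AddCommGroup X] [Module K X] [AddCommGroup Y] [Module K Y]
    (Z : Submodule K Y) (g : κ → X →ₗ[K] Y) (A : Submodule K X) : ℤ :=
  finrank K (Z ⊔ ⨆ p, A.map (g p) : Submodule K Y) - finrank K A

theorem f₁_sub {X Y κ : Type*} [AddCommGroup X] [Module K X] [AddCommGroup Y] [Module K Y]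
    [FiniteDimensional K X] [FiniteDimensional K Y]
    (Z : Submodule K Y) (g : κ → X →ₗ[K] Y) (A A' : Submodule K X) :
    f₁ Z g (A ⊔ A') + f₁ Z g (A ⊓ A') ≤ f₁ Z g A + f₁ Z g A' := by
  have h1 := Submodule.finrank_sup_add_finrank_inf_eq A A'
  have h2 := Submodule.finrank_sup_add_finrank_inf_eq (Z ⊔ ⨆ p, A.map (g p))
    (Z ⊔ ⨆ p, A'.map (g p))
  have h3 : (Z ⊔ ⨆ p, (A ⊔ A').map (g p)) ≤ (Z ⊔ ⨆ p, A.map (g p)) ⊔ (Z ⊔ ⨆ p, A'.map (g p)) := by
    refine sup_le (le_sup_left.trans le_sup_left) (iSup_le fun p => ?_)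
    rw [Submodule.map_sup]
    exact sup_le
      ((le_iSup (fun p => A.map (g p)) p).trans (le_sup_right.trans le_sup_left))
      ((le_iSup (fun p => A'.map (g p)) p).trans (le_sup_right.trans le_sup_right))
  have h4 : (Z ⊔ ⨆ p, (A ⊓ A').map (g p)) ≤ (Z ⊔ ⨆ p, A.map (g p)) ⊓ (Z ⊔ ⨆ p, A'.map (g p)) :=
    le_inf (sup_le_sup_left (iSup_mono fun p => Submodule.map_mono inf_le_left) _)
      (sup_le_sup_left (iSup_mono fun p => Submodule.map_mono inf_le_right) _)
  have h5 := Submodule.finrank_mono h3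
  have h6 := Submodule.finrank_mono h4
  simp only [f₁]
  omega

/-- the second submodular function -/
noncomputable def f₂ {J : Type*} (P Q : Submodule K (J → V)) (N : ℤ) (A : Submodule K V) : ℤ :=
  N * finrank K A - finrank K (P ⊓ pw J A : Submodule K (J → V)) -
    finrank K (Q ⊓ pw J A : Submodule K (J → V))

theorem inf_pw_super {J : Type*} [Finite J] (P : Submodule K (J → V)) (A A' : Submodule K V) :
    finrank K (P ⊓ pw J A : Submodule K (J → V)) + finrank K (P ⊓ pw J A' : Submodule K (J → V)) ≤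
      finrank K (P ⊓ pw J (A ⊔ A') : Submodule K (J → V)) +
        finrank K (P ⊓ pw J (A ⊓ A') : Submodule K (J → V)) := by
  have h1 := Submodule.finrank_sup_add_finrank_inf_eq (P ⊓ pw J A) (P ⊓ pw J A')
  have h2 : (P ⊓ pw J A) ⊔ (P ⊓ pw J A') ≤ P ⊓ pw J (A ⊔ A') :=
    sup_le (inf_le_inf_left _ (pw_mono le_sup_left)) (inf_le_inf_left _ (pw_mono le_sup_right))
  have h3 : (P ⊓ pw J A) ⊓ (P ⊓ pw J A') ≤ P ⊓ pw J (A ⊓ A') := by
    rw [pw_inf]
    exact le_inf (inf_le_left.trans inf_le_left)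
      (le_inf (inf_le_left.trans inf_le_right) (inf_le_right.trans inf_le_right))
  have h4 := Submodule.finrank_mono h2
  have h5 := Submodule.finrank_mono h3
  omega

theorem f₂_sub {J : Type*} [Finite J] (P Q : Submodule K (J → V)) (N : ℤ)
    (A A' : Submodule K V) :
    f₂ P Q N (A ⊔ A') + f₂ P Q N (A ⊓ A') ≤ f₂ P Q N A + f₂ P Q N A' := by
  have h1 := Submodule.finrank_sup_add_finrank_inf_eq A A'
  have h2 := inf_pw_super P A A'
  have h3 := inf_pw_super Q A A'
  have h4 : N * (finrank K (A ⊔ A' : Submodule K V) : ℤ) +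
      N * (finrank K (A ⊓ A' : Submodule K V) : ℤ) = N * finrank K A + N * finrank K A' := by
    rw [← mul_add, ← mul_add]
    congr 1
    exact_mod_cast h1
  simp only [f₂]
  omega

theorem level_aux (hA : StAvgF.{u}) (hM : StMixF.{u}) {t m : ℕ} {S Ω : Type} [Fintype S]
    [DecidableEq S] [Nonempty S] [Fintype Ω] [Nonempty Ω] (v : S → Fin t → ZMod 2) {δ : ℝ}
    (hb : Bias v δ) (hδ : 0 ≤ δ) (a : Ω → Fin m × S × S → ℤ) (ha : Mom fun ω p => (a ω p : ℝ))
    (B : Fin m → V →ₗ[K] V) (Γ : Set (Semi K V)) (hΓ : ∀ s ∈ Γ, ∀ k, Com s s (B k))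
    (U : Submodule K V) (D Z : Submodule K ((Fin t → ZMod 2) → V))
    (hDU : D ≤ pw (Fin t → ZMod 2) U) (hU : Stable Γ U)
    (hD : ∀ s ∈ Γ, pull (pi (Fin t → ZMod 2) s) D = D)
    (hZ : ∀ s ∈ Γ, pull (pi (Fin t → ZMod 2) s) Z = Z)
    (R : Ω → ℕ) (hR : ∀ ω, R ω + finrank K Z =
      finrank K (Z ⊔ D.map (ev B (cst K (iprt v a ω))) : Submodule K ((Fin t → ZMod 2) → V))) :
    ∃ V' : Submodule K V, Stable Γ V' ∧ V' ≤ U ∧
      (Fintype.card Ω : ℝ) * ((finrank K D : ℝ) -
        finrank K (D ⊓ pw (Fin t → ZMod 2) V' : Submodule K ((Fin t → ZMod 2) → V)) +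
        finrank K (Z ⊔ pw (Fin t → ZMod 2) (img B V') : Submodule K ((Fin t → ZMod 2) → V)) -
        finrank K Z) ≤ 3 * (∑ ω, R ω : ℕ) +
        Fintype.card Ω * ((m + 1) * (2 * δ * finrank K V * 2 ^ t)) := by
  classical
  have hcJ : Fintype.card (Fin t → ZMod 2) = 2 ^ t := by
    rw [Fintype.card_fun, ZMod.card, Fintype.card_fin]
  obtain ⟨g, hg⟩ : ∃ g : Fin m × S × S → ((Fin t → ZMod 2) → V) →ₗ[K] ((Fin t → ZMod 2) → V),
    g = fun p => (B p.1).compLeft (Fin t → ZMod 2) ∘ₗ act (fwop K (v p.2.1) (v p.2.2)) :=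
    ⟨_, rfl⟩
  have hgcom : ∀ s ∈ Γ, ∀ p, Com (pi (Fin t → ZMod 2) s) (pi (Fin t → ZMod 2) s) (g p) := by
    intro s hs p
    rw [hg]
    exact Com.comp (com_left _ (hΓ s hs p.1)) (com_act s (wop (v p.2.1) (v p.2.2)))
  obtain ⟨C, hC⟩ : ∃ C : Fin m × S × S → D →ₗ[K] (((Fin t → ZMod 2) → V) ⧸ Z), C = fun p =>
    Z.mkQ ∘ₗ g p ∘ₗ D.subtype := ⟨_, rfl⟩
  obtain ⟨U₀, hU₀⟩ := hA K (Fin m × S × S) Ω a ha D (((Fin t → ZMod 2) → V) ⧸ Z) C
  -- the ranks
  have hrk : ∀ ω, finrank K (LinearMap.range (∑ p, (a ω p : K) • C p)) = R ω := by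
    intro ω
    have e1 : (∑ p, (a ω p : K) • C p) = Z.mkQ ∘ₗ ev B (cst K (iprt v a ω)) ∘ₗ D.subtype := by
      rw [ev_pert, hC, hg]
      refine LinearMap.ext fun x => ?_
      simp only [LinearMap.sum_apply, LinearMap.smul_apply, LinearMap.comp_apply, map_sum,
        map_smul]
    have e2 : LinearMap.range (Z.mkQ ∘ₗ ev B (cst K (iprt v a ω)) ∘ₗ D.subtype) =
        (D.map (ev B (cst K (iprt v a ω)))).map Z.mkQ := by
      rw [LinearMap.range_comp, LinearMap.range_comp, Submodule.range_subtype]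
    have e3 := finrank_map_mkQ Z (D.map (ev B (cst K (iprt v a ω))))
    have e4 := hR ω
    rw [e1, e2]
    omega
  simp only [hrk] at hU₀
  -- the first minimiser
  have hU₀D : U₀.map D.subtype ≤ D := Submodule.map_subtype_le _ _
  have hf₁U₀ : f₁ Z g (U₀.map D.subtype) = finrank K (img C U₀) + finrank K Z - finrank K U₀ := by
    have e : img C U₀ = (⨆ p, (U₀.map D.subtype).map (g p)).map Z.mkQ := by
      rw [img, Submodule.map_iSup]
      apply iSup_congr
      intro p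
      rw [hC]
      rw [Submodule.map_comp, Submodule.map_comp]
    have e1 := finrank_map_mkQ Z (⨆ p, (U₀.map D.subtype).map (g p))
    have e2 : finrank K (U₀.map D.subtype) = finrank K U₀ :=
      (Submodule.equivMapOfInjective D.subtype D.injective_subtype _).finrank_eq.symm
    rw [f₁, e, ← e1, e2]
    push_cast
    ring
  obtain ⟨U₁, hU₁D, hU₁min, hU₁least⟩ := exists_min D (f₁ Z g)
    (finrank K ((Fin t → ZMod 2) → V)) (fun A _ => by
      have h1 : finrank K A ≤ finrank K ((Fin t → ZMod 2) → V) := Submodule.finrank_le _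
      rw [f₁]
      omega) (fun A A' _ _ => f₁_sub Z g A A')
  have hf₁ : (finrank K (Z ⊔ ⨆ p, U₁.map (g p) : Submodule K ((Fin t → ZMod 2) → V)) : ℤ) -
      finrank K U₁ ≤ finrank K (img C U₀) + finrank K Z - finrank K U₀ := by
    rw [← hf₁U₀]
    exact hU₁min _ hU₀D
  have hpmap : ∀ s ∈ Γ, ∀ (A : Submodule K ((Fin t → ZMod 2) → V)),
      pull (pi (Fin t → ZMod 2) s) (⨆ p, A.map (g p)) =
        ⨆ p, (pull (pi (Fin t → ZMod 2) s) A).map (g p) := by
    intro s hs A
    rw [pull_iSup]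
    exact iSup_congr fun p => (hgcom s hs p).pull_map A
  have hU₁st : ∀ s ∈ Γ, U₁ ≤ pull (pi (Fin t → ZMod 2) s) U₁ := by
    intro s hs
    refine hU₁least _ ?_ ?_
    · rw [← hD s hs]
      exact pull_mono _ hU₁D
    · have h1 : (Z ⊔ ⨆ p, (pull (pi (Fin t → ZMod 2) s) U₁).map (g p)) =
          pull (pi (Fin t → ZMod 2) s) (Z ⊔ ⨆ p, U₁.map (g p)) := by
        rw [pull_sup, hpmap s hs, hZ s hs]
      rw [f₁, f₁, h1, finrank_pull, finrank_pull]
  have hU₁eq : ∀ s ∈ Γ, pull (pi (Fin t → ZMod 2) s) U₁ = U₁ := fun s hs =>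
    (Submodule.eq_of_le_of_finrank_eq (hU₁st s hs) (finrank_pull _ _).symm).symm
  -- mixing
  obtain ⟨Y, hY⟩ : ∃ Y : Submodule K ((Fin t → ZMod 2) → V),
    Y = ⨆ s, ⨆ s', U₁.map (act (fwop K (v s) (v s'))) := ⟨_, rfl⟩
  have hYU : Y ≤ pw (Fin t → ZMod 2) U := by
    rw [hY]
    refine iSup_le fun s => iSup_le fun s' => ?_
    rintro _ ⟨x, hx, rfl⟩
    exact act_mem _ (hDU (hU₁D hx))
  have hYeq : ∀ s ∈ Γ, pull (pi (Fin t → ZMod 2) s) Y = Y := by
    intro s hs
    rw [hY, pull_iSup]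
    refine iSup_congr fun s₁ => ?_
    rw [pull_iSup]
    refine iSup_congr fun s₂ => ?_
    have h1 : Com (pi (Fin t → ZMod 2) s) (pi (Fin t → ZMod 2) s)
      (act (V := V) (fwop K (v s₁) (v s₂))) := com_act s (wop (v s₁) (v s₂))
    rw [h1.pull_map, hU₁eq s hs]
  obtain ⟨V₀, hV₀⟩ := hM K t S v δ hb hδ V U₁ Y (fun s s' => by
    rw [hY]
    exact le_iSup_of_le s (le_iSup_of_le s' le_rfl))
  obtain ⟨V', -, hV'min, hV'least⟩ := exists_min (⊤ : Submodule K V) (f₂ U₁ Y (2 ^ t))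
    (2 * finrank K ((Fin t → ZMod 2) → V)) (fun A _ => by
      have h1 : finrank K (U₁ ⊓ pw (Fin t → ZMod 2) A : Submodule K ((Fin t → ZMod 2) → V)) ≤
        finrank K ((Fin t → ZMod 2) → V) := Submodule.finrank_le _
      have h2 : finrank K (Y ⊓ pw (Fin t → ZMod 2) A : Submodule K ((Fin t → ZMod 2) → V)) ≤
        finrank K ((Fin t → ZMod 2) → V) := Submodule.finrank_le _
      have h3 : (0 : ℤ) ≤ 2 ^ t * (finrank K A : ℤ) := by positivity
      rw [f₂]
      omega) (fun A A' _ _ => f₂_sub U₁ Y (2 ^ t) A A')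
  have hV'st : Stable Γ V' := by
    rw [stable_iff]
    intro s hs
    refine hV'least _ le_top ?_
    have h1 : U₁ ⊓ pw (Fin t → ZMod 2) (pull s V') =
        pull (pi (Fin t → ZMod 2) s) (U₁ ⊓ pw (Fin t → ZMod 2) V') := by
      rw [pull_inf, hU₁eq s hs, pull_pw]
    have h2 : Y ⊓ pw (Fin t → ZMod 2) (pull s V') =
        pull (pi (Fin t → ZMod 2) s) (Y ⊓ pw (Fin t → ZMod 2) V') := by
      rw [pull_inf, hYeq s hs, pull_pw]
    rw [f₂, f₂, h1, h2, finrank_pull, finrank_pull, finrank_pull]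
  have hV' : (finrank K U₁ + 2 ^ t * finrank K V' : ℝ) ≤
      finrank K (U₁ ⊓ pw (Fin t → ZMod 2) V' : Submodule K ((Fin t → ZMod 2) → V)) +
      finrank K (Y ⊓ pw (Fin t → ZMod 2) V' : Submodule K ((Fin t → ZMod 2) → V)) +
      2 * δ * finrank K V * 2 ^ t := by
    have h1 := hV'min V₀ le_top
    have h2 : ((f₂ U₁ Y (2 ^ t) V' : ℤ) : ℝ) ≤ (f₂ U₁ Y (2 ^ t) V₀ : ℤ) := by exact_mod_cast h1
    rw [f₂, f₂] at h2
    push_cast at h2
    linarith
  refine ⟨V' ⊓ U, st_inf hV'st hU, inf_le_right, ?_⟩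
  -- the subspaces
  obtain ⟨P, hP⟩ : ∃ P : Submodule K ((Fin t → ZMod 2) → V),
    P = pw (Fin t → ZMod 2) (V' ⊓ U) := ⟨_, rfl⟩
  have e1 : Y ⊓ pw (Fin t → ZMod 2) V' = Y ⊓ P := by
    rw [hP, pw_inf]
    apply le_antisymm
    · exact le_inf inf_le_left (le_inf inf_le_right (inf_le_left.trans hYU))
    · exact inf_le_inf_left _ inf_le_left
  have e2 : finrank K (U₁ ⊓ pw (Fin t → ZMod 2) V' : Submodule K ((Fin t → ZMod 2) → V)) ≤
      finrank K (D ⊓ P : Submodule K ((Fin t → ZMod 2) → V)) := by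
    refine Submodule.finrank_mono ?_
    rw [hP, pw_inf]
    exact le_inf (inf_le_left.trans hU₁D) (le_inf inf_le_right
      ((inf_le_left.trans hU₁D).trans hDU))
  have e3 : finrank K P = 2 ^ t * finrank K (V' ⊓ U : Submodule K V) := by
    rw [hP, finrank_pw, hcJ]
  have e4 : finrank K (V' ⊓ U : Submodule K V) ≤ finrank K V' := Submodule.finrank_mono inf_le_left
  have e5 : finrank K (Y ⊓ P : Submodule K ((Fin t → ZMod 2) → V)) ≤ finrank K P :=
    Submodule.finrank_mono inf_le_right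
  have e6 : finrank K (U₁ ⊓ pw (Fin t → ZMod 2) V' : Submodule K ((Fin t → ZMod 2) → V)) ≤
      finrank K U₁ := Submodule.finrank_mono inf_le_left
  -- the images
  have e7 : (⨆ p, U₁.map (g p)) = ⨆ k, Y.map ((B k).compLeft (Fin t → ZMod 2)) := by
    rw [iSup_prod]
    apply iSup_congr
    intro k
    rw [hY, Submodule.map_iSup, iSup_prod]
    apply iSup_congr
    intro s
    rw [Submodule.map_iSup]
    apply iSup_congr
    intro s'
    rw [hg]
    rw [Submodule.map_comp]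
  rw [e7] at hf₁
  have e8 := finrank_iSup_map_le (fun k => (B k).compLeft (Fin t → ZMod 2)) Z
    (inf_le_right : Y ⊓ P ≤ P)
  have e9 : finrank K (Z ⊔ ⨆ k, (Y ⊓ P).map ((B k).compLeft (Fin t → ZMod 2)) :
      Submodule K ((Fin t → ZMod 2) → V)) ≤
      finrank K (Z ⊔ ⨆ k, Y.map ((B k).compLeft (Fin t → ZMod 2)) :
        Submodule K ((Fin t → ZMod 2) → V)) :=
    Submodule.finrank_mono (sup_le_sup_left (iSup_mono fun k => Submodule.map_mono inf_le_left) _)
  rw [Fintype.card_fin] at e8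
  have e10 : (⨆ k, P.map ((B k).compLeft (Fin t → ZMod 2)) :
      Submodule K ((Fin t → ZMod 2) → V)) = pw (Fin t → ZMod 2) (img B (V' ⊓ U)) := by
    rw [pw_img, hP]
  rw [e10] at e8
  rw [← hP]
  -- real numbers
  rw [e1] at hV'
  generalize finrank K (Y ⊓ P : Submodule K ((Fin t → ZMod 2) → V)) = x₁ at *
  generalize finrank K P = x₂ at *
  generalize finrank K (U₁ ⊓ pw (Fin t → ZMod 2) V' : Submodule K ((Fin t → ZMod 2) → V)) =
    x₃ at *
  generalize finrank K (D ⊓ P : Submodule K ((Fin t → ZMod 2) → V)) = x₄ at *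
  generalize finrank K (Z ⊔ pw (Fin t → ZMod 2) (img B (V' ⊓ U)) :
    Submodule K ((Fin t → ZMod 2) → V)) = x₅ at *
  generalize finrank K (img C U₀) = x₆ at *
  generalize finrank K (Z ⊔ ⨆ k, Y.map ((B k).compLeft (Fin t → ZMod 2)) :
    Submodule K ((Fin t → ZMod 2) → V)) = x₈ at *
  generalize finrank K Z = x₇ at *
  have hq : (0 : ℝ) ≤ 2 * δ * finrank K V * 2 ^ t := by positivity
  generalize 2 * δ * (finrank K V : ℝ) * 2 ^ t = q at *
  have f1 : (x₃ : ℝ) ≤ x₄ := by exact_mod_cast e2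
  have f2 : (x₂ : ℝ) ≤ 2 ^ t * finrank K V' := by
    rw [e3]
    push_cast
    exact mul_le_mul_of_nonneg_left (by exact_mod_cast e4) (by positivity)
  have f3 : (x₃ : ℝ) ≤ finrank K U₁ := by exact_mod_cast e6
  have f5 : (x₂ : ℝ) - x₁ ≤ q := by linarith
  have f4 : (x₁ : ℝ) ≤ x₂ := by exact_mod_cast e5
  have f6 : (finrank K U₁ : ℝ) ≤ x₄ + q := by linarith
  have f7 : (x₅ : ℝ) + m * x₁ ≤ x₈ + m * x₂ := by
    have : x₅ + m * x₁ ≤ x₈ + m * x₂ := by omega
    exact_mod_cast this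
  have f7' : (x₈ : ℝ) - finrank K U₁ ≤ x₆ + x₇ - finrank K U₀ := by exact_mod_cast hf₁
  have f8 : (Fintype.card Ω : ℝ) * (finrank K D + x₆) ≤
      Fintype.card Ω * finrank K U₀ + 3 * (∑ ω, R ω : ℕ) := by
    exact_mod_cast hU₀
  have f9 : (m : ℝ) * (x₂ - x₁) ≤ m * q := mul_le_mul_of_nonneg_left f5 (Nat.cast_nonneg _)
  have f10 : (finrank K D : ℝ) - x₄ + x₅ - x₇ ≤
      finrank K D + x₆ - finrank K U₀ + (m + 1) * q := by linarith
  have hΩ : (0 : ℝ) ≤ Fintype.card Ω := Nat.cast_nonneg _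
  have f13 := mul_le_mul_of_nonneg_left f10 hΩ
  linarith

end Level

end LevelAux

open LevelAux in
/-- PC-LEVEL -/
theorem stLevel.{u} (hA : StAvgF.{u}) (hM : StMixF.{u}) : StLevel.{u} := by
  intro K V _ _ _ _ _ t m S Ω _ _ _ _ _ v δ hb hδ a ha B Γ hΓ q hq hdvd T U U' hU hU' hle
  rcases eq_or_lt_of_le hle with rfl | hlt
  · refine ⟨U', hU', le_rfl, le_rfl, ?_⟩
    rw [term_eq B (cst K T) le_rfl le_rfl]
    have h1 : (0 : ℝ) ≤ (∑ ω, crk B (cst K T) (cst K (iprt v a ω)) U' U' : ℕ) :=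
      Nat.cast_nonneg _
    push_cast at h1 ⊢
    linarith
  have hfin := Submodule.finrank_lt_finrank_of_lt hlt
  have hcom : ∀ s ∈ Γ, ∀ k, Com s s (B k) := hΓ
  obtain ⟨V', hV's, hV'U, hV'⟩ := level_aux hA hM v hb hδ a ha B Γ hcom U
    (dom B (cst K T) U U') (tgt B (cst K T) U U') inf_le_left hU
    (fun s hs => by rw [pull_dom (hcom s hs), stable_eq hU hs, stable_eq hU' hs])
    (fun s hs => by rw [pull_tgt (hcom s hs), stable_eq hU hs, stable_eq hU' hs])
    (fun ω => crk B (cst K T) (cst K (iprt v a ω)) U U') (fun ω => crk_add B (cst K T) _ U U')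
  refine ⟨V' ⊔ U', st_sup hV's hU', le_sup_right, sup_le hV'U hle, ?_⟩
  have hterm : term B (cst K T) U U' (V' ⊔ U') ≤ term B (cst K T) U U' V' :=
    term_sup B (cst K T) _ _ _
  have hterm' : ((term B (cst K T) U U' (V' ⊔ U') : ℤ) : ℝ) ≤
      (term B (cst K T) U U' V' : ℤ) := by
    exact_mod_cast hterm
  have e : ((term B (cst K T) U U' V' : ℤ) : ℝ) = (finrank K (dom B (cst K T) U U') : ℝ) -
        finrank K (dom B (cst K T) U U' ⊓ pw (Fin t → ZMod 2) V' :
          Submodule K ((Fin t → ZMod 2) → V)) +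
        finrank K (tgt B (cst K T) U U' ⊔ pw (Fin t → ZMod 2) (img B V') :
          Submodule K ((Fin t → ZMod 2) → V)) - finrank K (tgt B (cst K T) U U') := by
    rw [term]
    push_cast
    ring
  rw [← e] at hV'
  have hqr : (0 : ℝ) < q := by exact_mod_cast hq
  have f11 : (q : ℝ) ≤ (finrank K U : ℝ) - finrank K U' := by
    obtain ⟨x, hx⟩ := hdvd U hU
    obtain ⟨y, hy⟩ := hdvd U' hU'
    have h1 : y < x := by
      by_contra h
      have h2 := Nat.mul_le_mul_left q (not_lt.mp h)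
      omega
    have h2 : q * (y + 1) ≤ q * x := Nat.mul_le_mul_left q h1
    have h3 : finrank K U' + q ≤ finrank K U := by
      rw [hx, hy]
      rw [Nat.mul_add, Nat.mul_one] at h2
      exact h2
    have h4 : ((finrank K U' + q : ℕ) : ℝ) ≤ finrank K U := by exact_mod_cast h3
    push_cast at h4
    linarith
  have hΩ : (0 : ℝ) ≤ Fintype.card Ω := Nat.cast_nonneg _
  have hpos : (0 : ℝ) ≤ (m + 1) * (2 * δ * finrank K V * 2 ^ t) := by positivity
  have f14 : (m + 1) * (2 * δ * (finrank K V : ℝ) * 2 ^ t) ≤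
      (m + 1) * (2 * δ * finrank K V * 2 ^ t) / q * ((finrank K U : ℝ) - finrank K U') := by
    rw [div_mul_eq_mul_div, le_div_iff₀ hqr]
    exact mul_le_mul_of_nonneg_left f11 hpos
  have f12 := mul_le_mul_of_nonneg_left f14 hΩ
  have f13 := mul_le_mul_of_nonneg_left hterm' hΩ
  linarith

end Pool.Agent.Lib.MP_64d474_lc.Pc
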