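import Mathlib
import Pool.Agent.Lib.MP_64d474_lc.Pc.Stmts

/-!
# Small integer parameters, common parameters
-/

open Matrix Module MvPolynomial

set_option linter.unusedSectionVars false

namespace Pool.Agent.Lib.MP_64d474_lc.Pc

open Pool.Agent.Lib.MP_64d474_lc.Op (sgn)
open Pool.Agent.Lib.MP_64d474_lc.Nc

namespace Grid

variable {I : Type*} [Fintype I] [DecidableEq I]

theorem twist_tw (c e : I → ℤ) (T : Matrix (I → ZMod 2) (I → ZMod 2) ℤ) :
    twist c e T = tw c e T := by
  ext x y
  simp [twist, tw]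

theorem tw_hom {R S : Type*} [CommRing R] [CommRing S] (f : R →+* S) (c e : I → R)
    (T : Matrix (I → ZMod 2) (I → ZMod 2) ℤ) (x y : I → ZMod 2) :
    f (tw c e T x y) = tw (fun i => f (c i)) (fun i => f (e i)) T x y := by
  rw [tw, tw, map_mul, map_sum, map_prod]
  congr 1
  · refine Finset.sum_congr rfl fun z _ => ?_
    rw [map_mul, map_prod, map_intCast]
    congr 1
    refine Finset.prod_congr rfl fun i _ => ?_
    rw [map_add, map_one, map_mul, map_intCast]
  · refine Finset.prod_congr rfl fun i _ => ?_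
    split_ifs
    · exact map_one f
    · rfl

section Big

variable {κ ι : Type*} [Fintype κ]

theorem big_map {R S : Type*} [CommRing R] [CommRing S] (f : R →+* S) (c e : I → R)
    (T : κ → Matrix (I → ZMod 2) (I → ZMod 2) ℤ) (b : κ → Matrix ι ι R) :
    (big c e T b).map f = big (fun i => f (c i)) (fun i => f (e i)) T fun k => (b k).map f := by
  ext p q
  rw [Matrix.map_apply, big, big, map_sum]
  refine Finset.sum_congr rfl fun k _ => ?_
  rw [map_mul, tw_hom]
  rfl

variable {F : Type*} [Field F] (T : κ → Matrix (I → ZMod 2) (I → ZMod 2) ℤ)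
  (B : κ → Matrix ι ι F)

/-- the generic twist over the polynomial ring -/
noncomputable def gen : Matrix ((I → ZMod 2) × ι) ((I → ZMod 2) × ι)
    (MvPolynomial (I ⊕ I) F) :=
  big (fun i => X (Sum.inl i)) (fun i => X (Sum.inr i)) T fun k => (B k).map C

theorem gen_eval (x : I ⊕ I → F) :
    (gen T B).map (eval x) = big (fun i => x (Sum.inl i)) (fun i => x (Sum.inr i)) T B := by
  rw [gen, big_map]
  congr 1
  · ext1 i
    rw [eval_X]
  · ext1 i
    rw [eval_X]
  · ext1 k
    ext i j
    rw [Matrix.map_apply, Matrix.map_apply, eval_C]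

theorem degreeOf_tw (j : I ⊕ I) (T : Matrix (I → ZMod 2) (I → ZMod 2) ℤ)
    (x y : I → ZMod 2) :
    degreeOf j (tw (fun i => (X (Sum.inl i) : MvPolynomial (I ⊕ I) F))
      (fun i => X (Sum.inr i)) T x y) ≤ 1 := by
  classical
  have hint : ∀ n : ℤ, degreeOf j ((n : ℤ) : MvPolynomial (I ⊕ I) F) = 0 := by
    intro n
    rw [← map_intCast (C : F →+* MvPolynomial (I ⊕ I) F), degreeOf_C]
  have hX : ∀ i, degreeOf j (X i : MvPolynomial (I ⊕ I) F) = if j = i then 1 else 0 := by
    intro i
    exact degreeOf_X j i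
  have h1 : ∀ z : I → ZMod 2, degreeOf j (∏ i, (1 + ((sgn (x i + z i) : ℤ) :
      MvPolynomial (I ⊕ I) F) * X (Sum.inl i))) ≤ ∑ i, if j = Sum.inl i then 1 else 0 := by
    intro z
    refine (degreeOf_prod_le _ _ _).trans (Finset.sum_le_sum fun i _ => ?_)
    refine (degreeOf_add_le _ _ _).trans (max_le ?_ ?_)
    · rw [← C_1, degreeOf_C]
      exact Nat.zero_le _
    · refine (degreeOf_mul_le _ _ _).trans ?_
      rw [hint, hX, zero_add]
  have h2 : degreeOf j (∏ i, if x i = y i then (1 : MvPolynomial (I ⊕ I) F)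
      else X (Sum.inr i)) ≤ ∑ i, if j = Sum.inr i then 1 else 0 := by
    refine (degreeOf_prod_le _ _ _).trans (Finset.sum_le_sum fun i _ => ?_)
    split_ifs with h3 h4 h4
    · rw [← C_1, degreeOf_C]
      exact Nat.zero_le _
    · rw [← C_1, degreeOf_C]
    · rw [hX, if_pos h4]
    · rw [hX, if_neg h4]
  rw [tw]
  refine (degreeOf_mul_le _ _ _).trans ?_
  have h3 : degreeOf j (∑ z, (∏ i, (1 + ((sgn (x i + z i) : ℤ) :
      MvPolynomial (I ⊕ I) F) * X (Sum.inl i))) * ((T z (z + x + y) : ℤ) :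
        MvPolynomial (I ⊕ I) F)) ≤ ∑ i, if j = Sum.inl i then 1 else 0 := by
    refine (degreeOf_sum_le _ _ _).trans (Finset.sup_le fun z _ => ?_)
    refine (degreeOf_mul_le _ _ _).trans ?_
    rw [hint, add_zero]
    exact h1 z
  refine (add_le_add h3 h2).trans ?_
  rcases j with j | j
  · simp
  · simp

theorem degreeOf_gen (j : I ⊕ I) (p q : (I → ZMod 2) × ι) :
    degreeOf j (gen T B p q) ≤ 1 := by
  rw [gen, big]
  refine (degreeOf_sum_le _ _ _).trans (Finset.sup_le fun k _ => ?_)
  refine (degreeOf_mul_le _ _ _).trans ?_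
  rw [Matrix.map_apply, degreeOf_C, add_zero]
  exact degreeOf_tw j _ _ _

theorem degreeOf_det {σ R α : Type*} [CommRing R] [Fintype α] [DecidableEq α] (j : σ)
    (M : Matrix α α (MvPolynomial σ R)) (h : ∀ p q, degreeOf j (M p q) ≤ 1) :
    degreeOf j M.det ≤ Fintype.card α := by
  rw [Matrix.det_apply]
  refine (degreeOf_sum_le _ _ _).trans (Finset.sup_le fun π _ => ?_)
  have h1 : degreeOf j (∏ i, M (π i) i) ≤ Fintype.card α := by
    refine (degreeOf_prod_le _ _ _).trans ?_
    refine (Finset.sum_le_sum fun i _ => h (π i) i).trans ?_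
    simp
  rcases Int.units_eq_one_or (Equiv.Perm.sign π) with h2 | h2
  · rw [h2, one_smul]
    exact h1
  · rw [h2, Units.neg_smul, one_smul, degreeOf_neg]
    exact h1

theorem gen_eval_det [Fintype ι] [DecidableEq ι] (x : I ⊕ I → F) :
    eval x (gen T B).det =
      (big (fun i => x (Sum.inl i)) (fun i => x (Sum.inr i)) T B).det := by
  rw [← gen_eval, RingHom.map_det]
  rfl

theorem det_ne_zero [Fintype ι] [DecidableEq ι] {c e : I → F}
    (h : (big c e T B).det ≠ 0) : (gen T B).det ≠ 0 := by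
  intro h0
  apply h
  have h1 := gen_eval_det T B (Sum.elim c e)
  rw [h0, map_zero] at h1
  exact h1.symm

end Big

theorem big_eq_tens {F : Type*} [Field F] {n m : ℕ}
    (P : Fin m → Matrix (I → ZMod 2) (I → ZMod 2) ℤ) (B : Fin m → Matrix (Fin n) (Fin n) F)
    (c e : I → ℤ) :
    big (fun i => (c i : F)) (fun i => (e i : F)) P B =
      tens (cst F fun j => twist c e (P j)) B := by
  ext p q
  rw [big, tens, Matrix.sum_apply]
  refine Finset.sum_congr rfl fun k _ => ?_
  rw [kroneckerMap_apply, cst, Matrix.map_apply, twist_tw]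
  have h2 := tw_hom (Int.castRingHom F) c e (P k) p.1 q.1
  rw [show ((tw c e (P k) p.1 q.1 : ℤ) : F) = Int.castRingHom F (tw c e (P k) p.1 q.1) from rfl,
    h2]
  rfl

end Grid

open Grid in
/-- PC-GRID -/
theorem stGrid.{u} : StGrid.{u} := by
  classical
  intro F _ _ I _ _ n m P B hGN
  obtain ⟨c₀, e₀, h0⟩ := hGN
  have hcard : Fintype.card ((I → ZMod 2) × Fin n) = n * 2 ^ Fintype.card I := by
    rw [Fintype.card_prod, Fintype.card_fun, ZMod.card, Fintype.card_fin, mul_comm]
  have hdet : (gen P B).det ≠ 0 := det_ne_zero P B h0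
  by_contra hcon
  apply hdet
  refine eq_zero_of_eval_zero_at_prod_finset _
    (fun _ => (Finset.range (n * 2 ^ Fintype.card I + 1)).image fun i : ℕ => (i : F)) ?_ ?_
  · intro j
    rw [Finset.card_image_of_injective _ Nat.cast_injective, Finset.card_range]
    have h1 := degreeOf_det j (gen P B) fun p q => degreeOf_gen P B j p q
    rw [hcard] at h1
    omega
  · intro x hx
    have hx' : ∀ i, ∃ a : ℕ, a ≤ n * 2 ^ Fintype.card I ∧ (a : F) = x i := by
      intro i
      obtain ⟨a, ha, hax⟩ := Finset.mem_image.mp (hx i)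
      exact ⟨a, by have := Finset.mem_range.mp ha; omega, hax⟩
    choose a ha hax using hx'
    by_contra h1
    apply hcon
    refine ⟨fun i => a (Sum.inl i), fun i => a (Sum.inr i), fun i => ha _, fun i => ha _, ?_⟩
    rw [← big_eq_tens]
    rw [gen_eval_det] at h1
    have h2 : (fun i : I => (((a (Sum.inl i) : ℕ) : ℤ) : F)) = fun i => x (Sum.inl i) := by
      ext1 i
      rw [← hax]
      push_cast
      rfl
    have h3 : (fun i : I => (((a (Sum.inr i) : ℕ) : ℤ) : F)) = fun i => x (Sum.inr i) := by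
      ext1 i
      rw [← hax]
      push_cast
      rfl
    rw [h2, h3]
    exact h1

open Grid in
/-- PC-COMMON -/
theorem stCommon.{u} : StCommon.{u} := by
  classical
  intro F _ _ I _ _ n m n' m' P B P' B' h h'
  obtain ⟨c₀, e₀, h0⟩ := h
  obtain ⟨c₁, e₁, h1⟩ := h'
  have hdet : (gen P B).det * (gen P' B').det ≠ 0 :=
    mul_ne_zero (det_ne_zero P B h0) (det_ne_zero P' B' h1)
  have : Infinite F := CharZero.infinite F
  obtain ⟨x, hx⟩ : ∃ x : I ⊕ I → F, eval x ((gen P B).det * (gen P' B').det) ≠ 0 := by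
    by_contra hcon
    push Not at hcon
    apply hdet
    exact MvPolynomial.funext fun x => by rw [hcon, map_zero]
  rw [map_mul, gen_eval_det, gen_eval_det] at hx
  exact ⟨_, _, left_ne_zero_of_mul hx, right_ne_zero_of_mul hx⟩

end Pool.Agent.Lib.MP_64d474_lc.Pc
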