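import Mathlib
import Pool.Agent.Lib.MP_64d474_lc.Pc.Defs
import Pool.Agent.Lib.MP_64d474_lc.Pc.Stmts

/-!
# PC-PHASE2: replacing all factors by the explicit tuple
-/

open Matrix Module

set_option linter.unusedSectionVars false

namespace Pool.Agent.Lib.MP_64d474_lc.Pc

open Pool.Agent.Lib.MP_64d474_lc.Op (sgn)
open Pool.Agent.Lib.MP_64d474_lc.Nc

namespace Phase2

section Reindex

variable {I I' : Type*} [Fintype I] [DecidableEq I] [Fintype I'] [DecidableEq I']

/-- the bijection between the vectors over two equivalent index sets -/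
def vec (e : I' ≃ I) : (I' → ZMod 2) ≃ (I → ZMod 2) where
  toFun x := fun i => x (e.symm i)
  invFun x := fun i => x (e i)
  left_inv x := by funext i; simp
  right_inv x := by funext i; simp

lemma tw_re {R : Type*} [CommRing R] (e : I' ≃ I) (c d : I → R)
    (P : Matrix (I → ZMod 2) (I → ZMod 2) ℤ) (P' : Matrix (I' → ZMod 2) (I' → ZMod 2) ℤ)
    (h : ∀ x y, P x y = P' (fun i => x (e i)) (fun i => y (e i))) (x y : I' → ZMod 2) :
    tw (fun i => c (e i)) (fun i => d (e i)) P' x y = tw c d P (vec e x) (vec e y) := by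
  unfold tw
  congr 1
  · refine Fintype.sum_equiv (vec e) _ _ fun z => ?_
    congr 1
    · refine Fintype.prod_equiv e _ _ fun i => ?_
      simp [vec]
    · rw [h]
      congr 2
      · funext i; simp [vec]
      · funext i; simp [vec]
  · refine Fintype.prod_equiv e _ _ fun i => ?_
    simp [vec]

lemma gn_re {F : Type*} [Field F] {n m : ℕ} (e : I' ≃ I)
    (P : Fin m → Matrix (I → ZMod 2) (I → ZMod 2) ℤ)
    (P' : Fin m → Matrix (I' → ZMod 2) (I' → ZMod 2) ℤ)
    (B : Fin m → Matrix (Fin n) (Fin n) F)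
    (h : ∀ j x y, P j x y = P' j (fun i => x (e i)) (fun i => y (e i))) (hG : GN P B) :
    GN P' B := by
  obtain ⟨c, d, hd⟩ := hG
  refine ⟨fun i => c (e i), fun i => d (e i), ?_⟩
  have key : big (fun i => c (e i)) (fun i => d (e i)) P' B =
      (big c d P B).submatrix ((vec e).prodCongr (Equiv.refl (Fin n)))
        ((vec e).prodCongr (Equiv.refl (Fin n))) := by
    funext p q
    simp only [big, Matrix.submatrix_apply]
    refine Finset.sum_congr rfl fun j _ => ?_
    rw [tw_re e c d (P j) (P' j) (h j)]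
    rfl
  rw [key, Matrix.det_submatrix_equiv_self]
  exact hd

end Reindex

/-- moving the first factor to the end -/
def eqA (C J : Type*) (k : ℕ) : C ⊕ (Fin (k + 1) × J) ≃ (C ⊕ (Fin k × J)) ⊕ J where
  toFun x := match x with
    | Sum.inl c => Sum.inl (Sum.inl c)
    | Sum.inr (i, a) => Fin.cases (Sum.inr a) (fun i' => Sum.inl (Sum.inr (i', a))) i
  invFun x := match x with
    | Sum.inl (Sum.inl c) => Sum.inl c
    | Sum.inl (Sum.inr (i, a)) => Sum.inr (i.succ, a)
    | Sum.inr a => Sum.inr (0, a)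
  left_inv x := by
    rcases x with c | ⟨i, a⟩
    · rfl
    · refine Fin.cases ?_ (fun i' => ?_) i
      · rfl
      · rfl
  right_inv x := by
    rcases x with (c | ⟨i, a⟩) | a
    · rfl
    · rfl
    · rfl

/-- moving the first factor to the context -/
def eqB (C J J' : Type*) : (C ⊕ J) ⊕ J' ≃ (C ⊕ J') ⊕ J where
  toFun x := match x with
    | Sum.inl (Sum.inl c) => Sum.inl (Sum.inl c)
    | Sum.inl (Sum.inr a) => Sum.inr a
    | Sum.inr a => Sum.inl (Sum.inr a)
  invFun x := match x with
    | Sum.inl (Sum.inl c) => Sum.inl (Sum.inl c)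
    | Sum.inl (Sum.inr a) => Sum.inr a
    | Sum.inr a => Sum.inl (Sum.inr a)
  left_inv x := by rcases x with (c | a) | a <;> rfl
  right_inv x := by rcases x with (c | a) | a <;> rfl

/-- moving the first factor from the context to the other factors -/
def eqC (C J : Type*) (k : ℕ) : (C ⊕ J) ⊕ (Fin k × J) ≃ C ⊕ (Fin (k + 1) × J) :=
  (eqB C J (Fin k × J)).trans (eqA C J k).symm

theorem ctx.{u} {F : Type u} [Field F] [CharZero F] {n m r t : ℕ} (h : StReplace.{u})
    (X : Data n r)
    (B : Fin m → Matrix (Fin n) (Fin n) F) : ∀ (k : ℕ) (C : Type) [Fintype C] [DecidableEq C]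
    (P : Fin m → Matrix (C → ZMod 2) (C → ZMod 2) ℤ) (σ : Fin k → Fin m → Fin r)
    (Z : Fin k → Fin r → Matrix (Fin t → ZMod 2) (Fin t → ZMod 2) ℤ),
    GN (fun j => two (P j) (pri fun i => Z i (σ i j))) B →
      GN (fun j => two (P j) (pri fun i => X.T (σ i j))) B := by
  intro k
  induction k with
  | zero =>
    intro C _ _ P σ Z hG
    refine gn_re (Equiv.sumCongr (Equiv.refl C) (Equiv.equivOfIsEmpty _ _)) _ _ B ?_ hG
    intro j x y
    simp [two, pri]
  | succ k ih =>
    intro C _ _ P σ Z hG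
    -- the first factor at the end
    have h1 : GN (fun j => two (two (P j) (pri fun i : Fin k => Z i.succ (σ i.succ j)))
        (Z 0 (σ 0 j))) B := by
      refine gn_re (eqA C (Fin t) k).symm _ _ B ?_ hG
      intro j x y
      simp only [two, pri, Fin.prod_univ_succ]
      rw [mul_assoc, mul_comm (∏ i : Fin k, _)]
      rfl
    -- the replacement
    have h2 := h F n m r X (C ⊕ (Fin k × Fin t)) (Fin t)
      (fun j => two (P j) (pri fun i : Fin k => Z i.succ (σ i.succ j))) (σ 0) (Z 0) B h1
    -- the new factor to the context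
    have h3 : GN (fun j => two (two (P j) (X.T (σ 0 j)))
        (pri fun i : Fin k => Z i.succ (σ i.succ j))) B := by
      refine gn_re (eqB C (Fin X.t) (Fin k × Fin t)) _ _ B ?_ h2
      intro j x y
      simp only [two]
      rw [mul_assoc, mul_comm (pri _ _ _), ← mul_assoc]
      rfl
    have h4 := ih (C ⊕ Fin X.t) (fun j => two (P j) (X.T (σ 0 j))) (fun i => σ i.succ)
      (fun i => Z i.succ) h3
    refine gn_re (eqC C (Fin X.t) k).symm _ _ B ?_ h4
    intro j x y
    simp only [two, pri, Fin.prod_univ_succ]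
    rw [mul_assoc]
    rfl

end Phase2

/-- PC-PHASE2 -/
theorem stPhase2.{u} (h : StReplace.{u}) : StPhase2.{u} := by
  intro F _ _ n m r k t X σ Z B hG
  have h1 : GN (fun j => two (fun _ _ => 1 : Matrix (Empty → ZMod 2) (Empty → ZMod 2) ℤ)
      (pri fun i => Z i (σ i j))) B := by
    refine Phase2.gn_re (Equiv.emptySum Empty (Fin k × Fin t)) _ _ B ?_ hG
    intro j x y
    simp only [two, one_mul]
    rfl
  have h2 := Phase2.ctx h X B k Empty (fun _ => fun _ _ => 1) σ Z h1
  refine Phase2.gn_re (Equiv.emptySum Empty (Fin k × Fin X.t)).symm _ _ B ?_ h2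
  intro j x y
  simp only [two, one_mul]
  rfl

end Pool.Agent.Lib.MP_64d474_lc.Pc
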