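import Mathlib
import Pool.Agent.Lib.MP_64d474_lc.Pc.Stmts
import Pool.Agent.Lib.MP_64d474_lc.Nc.Rank
import Pool.Agent.Lib.MP_64d474_lc.Nc.Hit

/-!
PC-REPLACE: in one factor, an arbitrary tuple can be replaced by the explicit tuple.
-/

open Matrix Module MvPolynomial

set_option linter.unusedSectionVars false

namespace Pool.Agent.Lib.MP_64d474_lc.Pc

open Pool.Agent.Lib.MP_64d474_lc.Op (sgn)
open Pool.Agent.Lib.MP_64d474_lc.Nc

namespace RepAux

section Tw

variable {I I' : Type*} [Fintype I] [DecidableEq I] [Fintype I'] [DecidableEq I']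

theorem tw_hom {R S : Type*} [CommRing R] [CommRing S] (f : R →+* S) (c e : I → R)
    (T : Matrix (I → ZMod 2) (I → ZMod 2) ℤ) (x y : I → ZMod 2) :
    f (tw c e T x y) = tw (fun i => f (c i)) (fun i => f (e i)) T x y := by
  rw [tw, tw, map_mul, map_sum, map_prod]
  congr 1
  · refine Finset.sum_congr rfl fun z _ => ?_
    rw [map_mul, map_prod, map_intCast]
    congr 1
    refine Finset.prod_congr rfl fun i _ => ?_
    rw [map_add, map_one, map_mul, map_intCast]
  · refine Finset.prod_congr rfl fun i _ => ?_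
    split_ifs
    · exact map_one f
    · rfl

theorem big_map {κ ι : Type*} [Fintype κ] {R S : Type*} [CommRing R] [CommRing S] (f : R →+* S)
    (c e : I → R) (T : κ → Matrix (I → ZMod 2) (I → ZMod 2) ℤ) (b : κ → Matrix ι ι R) :
    (big c e T b).map f = big (fun i => f (c i)) (fun i => f (e i)) T fun k => (b k).map f := by
  ext p q
  rw [Matrix.map_apply, big, big, map_sum]
  refine Finset.sum_congr rfl fun k _ => ?_
  rw [map_mul, tw_hom]
  rfl

/-- the twist of a tensor product -/
theorem tw_two {R : Type*} [CommRing R] (c e : I ⊕ I' → R)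
    (P : Matrix (I → ZMod 2) (I → ZMod 2) ℤ) (Z : Matrix (I' → ZMod 2) (I' → ZMod 2) ℤ)
    (x y : I ⊕ I' → ZMod 2) :
    tw c e (two P Z) x y =
      tw (fun i => c (Sum.inl i)) (fun i => e (Sum.inl i)) P (fun i => x (Sum.inl i))
        (fun i => y (Sum.inl i)) *
      tw (fun i => c (Sum.inr i)) (fun i => e (Sum.inr i)) Z (fun i => x (Sum.inr i))
        (fun i => y (Sum.inr i)) := by
  rw [tw, tw, tw, Fintype.prod_sum_type]
  have h : (∑ z : I ⊕ I' → ZMod 2, (∏ i, (1 + ((sgn (x i + z i) : ℤ) : R) * c i)) *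
      ((two P Z z (z + x + y) : ℤ) : R)) =
      (∑ z : I → ZMod 2, (∏ i, (1 + ((sgn (x (Sum.inl i) + z i) : ℤ) : R) * c (Sum.inl i))) *
        ((P z (z + (fun i => x (Sum.inl i)) + fun i => y (Sum.inl i)) : ℤ) : R)) *
      (∑ z : I' → ZMod 2, (∏ i, (1 + ((sgn (x (Sum.inr i) + z i) : ℤ) : R) * c (Sum.inr i))) *
        ((Z z (z + (fun i => x (Sum.inr i)) + fun i => y (Sum.inr i)) : ℤ) : R)) := by
    rw [Finset.sum_mul_sum, ← Fintype.sum_prod_type',
      ← (Equiv.sumArrowEquivProdArrow I I' (ZMod 2)).sum_comp]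
    refine Finset.sum_congr rfl fun z _ => ?_
    rw [Fintype.prod_sum_type, two]
    push_cast
    simp only [Equiv.sumArrowEquivProdArrow, Equiv.coe_fn_mk, Function.comp_def]
    have e1 : (fun i => (z + x + y) (Sum.inl i)) =
      (fun i => z (Sum.inl i)) + (fun i => x (Sum.inl i)) + fun i => y (Sum.inl i) := rfl
    have e2 : (fun i => (z + x + y) (Sum.inr i)) =
      (fun i => z (Sum.inr i)) + (fun i => x (Sum.inr i)) + fun i => y (Sum.inr i) := rfl
    rw [e1, e2]
    ring
  rw [h]
  ring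

theorem tw_one {R : Type*} [CommRing R]
    (T : Matrix (I → ZMod 2) (I → ZMod 2) ℤ) (x y : I → ZMod 2) :
    tw (fun _ => (1 : R)) (fun _ => 1) T x y = 2 ^ Fintype.card I * ((T x y : ℤ) : R) := by
  have h1 : ∀ z : I → ZMod 2, ∏ i, (1 + ((sgn (x i + z i) : ℤ) : R) * 1) =
      if z = x then 2 ^ Fintype.card I else 0 := by
    intro z
    by_cases h : z = x
    · rw [if_pos h, h]
      have : ∀ i, (1 + ((sgn (x i + x i) : ℤ) : R) * 1) = 2 := by
        intro i
        rw [CharTwo.add_self_eq_zero]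
        simp [sgn]
        norm_num
      rw [Finset.prod_congr rfl fun i _ => this i, Finset.prod_const, Finset.card_univ]
    · rw [if_neg h]
      obtain ⟨i, hi⟩ := Function.ne_iff.mp h
      refine Finset.prod_eq_zero (Finset.mem_univ i) ?_
      have h5 : x i + z i = 1 := by
        generalize x i = p at hi
        generalize z i = q at hi
        revert hi p q
        decide
      rw [h5]
      simp [sgn]
  rw [tw, Finset.sum_congr rfl fun z _ => by rw [h1 z]]
  simp only [ite_mul, zero_mul, Finset.sum_ite_eq', Finset.mem_univ, if_true, ite_self,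
    Finset.prod_const_one, mul_one]
  have : x + x + y = y := by
    ext i
    rw [Pi.add_apply, Pi.add_apply, CharTwo.add_self_eq_zero, zero_add]
  rw [this]

end Tw

section Kr

variable {F : Type*} [Field F] {κ J α : Type*} [Fintype κ] [Fintype J] [Fintype α]

/-- `∑ T_k ⊗ A_k` for arbitrary index types -/
def kr (T : κ → Matrix J J F) (A : κ → Matrix α α F) : Matrix (J × α) (J × α) F :=
  fun p q => ∑ k, T k p.1 q.1 * A k p.2 q.2

theorem rank_kr (T : κ → Matrix J J F) (A : κ → Matrix α α F) :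
    (kr T A).rank = finrank F (LinearMap.range (ev (fun k => (A k).mulVecLin) T)) := by
  classical
  have h1 : ev (fun k => (A k).mulVecLin) T ∘ₗ (LinearEquiv.curry F F J α).toLinearMap =
      (LinearEquiv.curry F F J α).toLinearMap ∘ₗ (kr T A).mulVecLin := by
    refine LinearMap.ext fun x => funext fun i => ?_
    rw [LinearMap.comp_apply, ev_apply]
    funext a
    show _ = (kr T A *ᵥ x) (i, a)
    rw [Finset.sum_apply, Matrix.mulVec, dotProduct, Fintype.sum_prod_type]
    simp only [Finset.sum_apply, kr, Pi.smul_apply, smul_eq_mul, Matrix.mulVecLin_apply,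
      Matrix.mulVec, dotProduct, Finset.mul_sum, Finset.sum_mul]
    rw [Finset.sum_comm]
    refine Finset.sum_congr rfl fun j _ => ?_
    rw [Finset.sum_comm]
    refine Finset.sum_congr rfl fun b _ => ?_
    refine Finset.sum_congr rfl fun k _ => ?_
    rw [mul_assoc]
    rfl
  have h2 := congrArg LinearMap.range h1
  rw [LinearMap.range_comp, LinearMap.range_comp, LinearEquiv.range, Submodule.map_top] at h2
  rw [h2, LinearEquiv.finrank_map_eq, Matrix.rank]

/-- a nonsingular `∑ Y_k ⊗ A_k` excludes shrunk subspaces -/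
theorem nsh_of_rank [Nonempty J] (Y : κ → Matrix J J F) (A : κ → Matrix α α F)
    (h : (kr Y A).rank = Fintype.card (J × α)) : Nsh fun k => (A k).mulVecLin := by
  intro U
  have h1 := finrank_range_le (ev (fun k => (A k).mulVecLin) Y) (pw J U)
    (pw J (img (fun k => (A k).mulVecLin) U)) (map_ev_le _ Y U)
  rw [← rank_kr, h, finrank_pw, finrank_pw, Module.finrank_pi_fintype, Finset.sum_const,
    Finset.card_univ, smul_eq_mul, Module.finrank_fintype_fun_eq_card, Fintype.card_prod] at h1
  exact Nat.le_of_mul_le_mul_left (by omega) (Fintype.card_pos (α := J))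

end Kr

end RepAux

open RepAux in
theorem stReplace.{u} (hT : StTorus.{u}) (hC : StCorank.{u}) (hS : StSymRank.{u}) :
    StReplace.{u} := by
  classical
  intro F _ _ n m r X I I' _ _ _ _ P σ Z B hGN
  obtain ⟨c, e, hdet⟩ := hGN
  -- the family over the field of rational functions
  obtain ⟨A, hA⟩ : ∃ A : Fin r → Matrix ((I → ZMod 2) × Fin n) ((I → ZMod 2) × Fin n) (FK I F),
      A = fun κ => ∑ j, if σ j = κ then
        kroneckerMap (· * ·) (gtw F (P j)) ((B j).map (algebraMap F (FK I F))) else 0 := ⟨_, rfl⟩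
  -- sums over the family
  have hkr : ∀ {J : Type} (Y : Fin r → Matrix J J (FK I F)) (p q : J × (I → ZMod 2) × Fin n),
      kr Y A p q = ∑ j, Y (σ j) p.1 q.1 * (gtw F (P j) p.2.1 q.2.1 *
        algebraMap F (FK I F) (B j p.2.2 q.2.2)) := by
    intro J Y p q
    rw [kr, hA]
    simp only [Matrix.sum_apply, Finset.mul_sum]
    rw [Finset.sum_comm]
    refine Finset.sum_congr rfl fun j _ => ?_
    rw [Finset.sum_eq_single (σ j)]
    · rw [if_pos rfl]
      rfl
    · intro κ _ hκ
      rw [if_neg hκ.symm, Matrix.zero_apply, mul_zero]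
    · intro h
      exact absurd (Finset.mem_univ _) h
  -- no shrunk subspace
  have hns : Nsh fun κ => (A κ).mulVecLin := by
    refine nsh_of_rank (J := I' → ZMod 2) (fun κ => tw
      (fun i => algebraMap F (FK I F) (c (Sum.inr i)))
      (fun i => algebraMap F (FK I F) (e (Sum.inr i))) (Z κ)) A ?_
    -- the matrix over the polynomial ring
    let M₀ : Matrix ((I' → ZMod 2) × (I → ZMod 2) × Fin n) ((I' → ZMod 2) × (I → ZMod 2) × Fin n)
        (MvPolynomial (I ⊕ I) F) := fun p q => ∑ j, tw (fun i => C (c (Sum.inr i)))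
          (fun i => C (e (Sum.inr i))) (Z (σ j)) p.1 q.1 *
          (tw (fun i => MvPolynomial.X (Sum.inl i)) (fun i => MvPolynomial.X (Sum.inr i)) (P j)
            p.2.1 q.2.1 * C (B j p.2.2 q.2.2))
    have h1 : M₀.map (algebraMap (MvPolynomial (I ⊕ I) F) (FK I F)) =
        kr (fun κ => tw (fun i => algebraMap F (FK I F) (c (Sum.inr i)))
          (fun i => algebraMap F (FK I F) (e (Sum.inr i))) (Z κ)) A := by
      ext p q
      rw [hkr, Matrix.map_apply, map_sum]
      refine Finset.sum_congr rfl fun j _ => ?_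
      rw [map_mul, map_mul, tw_hom, tw_hom]
      have e1 : ∀ a : F, algebraMap (MvPolynomial (I ⊕ I) F) (FK I F) (C a) =
          algebraMap F (FK I F) a := by
        intro a
        rw [← MvPolynomial.algebraMap_eq, ← IsScalarTower.algebraMap_apply]
      simp only [e1]
      rfl
    have h2 : M₀.map (eval (Sum.elim (fun i => c (Sum.inl i)) fun i => e (Sum.inl i))) =
        (big c e (fun j => two (P j) (Z (σ j))) B).submatrix
          (fun p : (I' → ZMod 2) × (I → ZMod 2) × Fin n => (Sum.elim p.2.1 p.1, p.2.2))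
          (fun p : (I' → ZMod 2) × (I → ZMod 2) × Fin n => (Sum.elim p.2.1 p.1, p.2.2)) := by
      ext p q
      rw [Matrix.map_apply, map_sum, Matrix.submatrix_apply, big]
      refine Finset.sum_congr rfl fun j _ => ?_
      rw [map_mul, map_mul, tw_hom, tw_hom, tw_two]
      simp only [eval_C, eval_X, Sum.elim_inl, Sum.elim_inr]
      ring
    let E : ((I' → ZMod 2) × (I → ZMod 2) × Fin n) ≃ (I ⊕ I' → ZMod 2) × Fin n :=
      { toFun := fun p => (Sum.elim p.2.1 p.1, p.2.2)
        invFun := fun q => (fun i => q.1 (Sum.inr i), fun i => q.1 (Sum.inl i), q.2)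
        left_inv := fun p => rfl
        right_inv := fun q => by
          refine Prod.ext (funext fun i => ?_) rfl
          rcases i with i | i <;> rfl }
    have h3 : (M₀.map (eval (Sum.elim (fun i => c (Sum.inl i)) fun i => e (Sum.inl i)))).rank =
        Fintype.card ((I' → ZMod 2) × (I → ZMod 2) × Fin n) := by
      rw [h2]
      refine Hit.rank_of_det_ne_zero _ ?_
      change ((big c e (fun j => two (P j) (Z (σ j))) B).submatrix E E).det ≠ 0
      rw [Matrix.det_submatrix_equiv_self]
      exact hdet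
    have h4 := Hit.rank_specialise (K := FK I F)
      (eval (Sum.elim (fun i => c (Sum.inl i)) fun i => e (Sum.inl i))) M₀
    rw [h1, h3] at h4
    exact le_antisymm (Matrix.rank_le_card_width _) h4
  -- symmetries
  obtain ⟨Γ, hΓ1, hΓ2⟩ := hT F I n
  have hcomm : ∀ s ∈ Γ, ∀ k v, (A k).mulVecLin (s.g v) = s.g ((A k).mulVecLin v) := by
    intro s hs k v
    have e1 : ∀ w, (A k).mulVecLin w = ∑ j, if σ j = k then
        kroneckerMap (· * ·) (gtw F (P j)) ((B j).map (algebraMap F (FK I F))) *ᵥ w else 0 := by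
      intro w
      rw [Matrix.mulVecLin_apply, hA, Matrix.sum_mulVec]
      refine Finset.sum_congr rfl fun j _ => ?_
      split_ifs
      · rfl
      · exact Matrix.zero_mulVec _
    rw [e1, e1, map_sum]
    refine Finset.sum_congr rfl fun j _ => ?_
    split_ifs
    · exact hΓ1 s hs (P j) (B j) v
    · rw [map_zero]
  have hdim : finrank (FK I F) ((I → ZMod 2) × Fin n → FK I F) = n * 2 ^ Fintype.card I := by
    rw [Module.finrank_fintype_fun_eq_card, Fintype.card_prod, Fintype.card_fun, ZMod.card,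
      Fintype.card_fin, mul_comm]
  have hrank := hS X.K₁ X.K₂ X.l₁ X.l₂ r n X.L X.φ₁ X.φ₂ X.α X.isData (FK I F)
    ((I → ZMod 2) × Fin n → FK I F) (fun κ => (A κ).mulVecLin) hns Γ hcomm
    (2 ^ Fintype.card I) (by positivity) hΓ2 hdim
  rw [← rank_kr] at hrank
  change 2 ^ X.t * (n * 2 ^ Fintype.card I) <
    (kr (cst (FK I F) X.T) A).rank + 2 ^ X.t * 2 ^ Fintype.card I at hrank
  -- the generic twist
  by_contra hcon
  have h1 := hC F (I ⊕ Fin X.t) n m _ B hcon
  let f : MvPolynomial ((I ⊕ Fin X.t) ⊕ (I ⊕ Fin X.t)) F →+* FK I F :=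
    eval₂Hom (algebraMap F (FK I F))
      (Sum.elim (Sum.elim (gc F) fun _ => 1) (Sum.elim (ge F) fun _ => 1))
  let M₁ : Matrix ((I ⊕ Fin X.t → ZMod 2) × Fin n) ((I ⊕ Fin X.t → ZMod 2) × Fin n)
      (MvPolynomial ((I ⊕ Fin X.t) ⊕ (I ⊕ Fin X.t)) F) :=
    big (fun i => MvPolynomial.X (Sum.inl i)) (fun i => MvPolynomial.X (Sum.inr i))
      (fun j => two (P j) (X.T (σ j))) fun j => (B j).map C
  have h2 : M₁.map (algebraMap (MvPolynomial ((I ⊕ Fin X.t) ⊕ (I ⊕ Fin X.t)) F)
      (FK (I ⊕ Fin X.t) F)) = big (gc F) (ge F) (fun j => two (P j) (X.T (σ j))) fun j =>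
        (B j).map (algebraMap F (FK (I ⊕ Fin X.t) F)) := by
    rw [big_map]
    congr 1
  let E : (Fin X.t → ZMod 2) × (I → ZMod 2) × Fin n ≃ (I ⊕ Fin X.t → ZMod 2) × Fin n :=
    { toFun := fun p => (Sum.elim p.2.1 p.1, p.2.2)
      invFun := fun q => (fun i => q.1 (Sum.inr i), fun i => q.1 (Sum.inl i), q.2)
      left_inv := fun p => rfl
      right_inv := fun q => by
        refine Prod.ext (funext fun i => ?_) rfl
        rcases i with i | i <;> rfl }
  have h3 : (M₁.map f).submatrix E E = (2 ^ X.t : FK I F) • kr (cst (FK I F) X.T) A := by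
    ext p q
    rw [Matrix.submatrix_apply, Matrix.smul_apply, hkr, big_map, big, Finset.smul_sum]
    refine Finset.sum_congr rfl fun j _ => ?_
    rw [tw_two]
    have e1 : ∀ i : I, f (MvPolynomial.X (Sum.inl (Sum.inl i))) = gc F i := fun i => by
      simp [f]
    have e2 : ∀ i : Fin X.t, f (MvPolynomial.X (Sum.inl (Sum.inr i))) = 1 := fun i => by
      simp [f]
    have e3 : ∀ i : I, f (MvPolynomial.X (Sum.inr (Sum.inl i))) = ge F i := fun i => by
      simp [f]
    have e4 : ∀ i : Fin X.t, f (MvPolynomial.X (Sum.inr (Sum.inr i))) = 1 := fun i => by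
      simp [f]
    have e5 : ∀ a : F, f (C a) = algebraMap F (FK I F) a := fun a => by
      simp [f]
    simp only [e1, e2, e3, e4, Matrix.map_apply, e5]
    have e6 := tw_one (R := FK I F) (X.T (σ j)) p.1 q.1
    rw [Fintype.card_fin] at e6
    change gtw F (P j) p.2.1 q.2.1 * tw (fun _ => (1 : FK I F)) (fun _ => 1) (X.T (σ j)) p.1 q.1 *
      algebraMap F (FK I F) (B j p.2.2 q.2.2) = _
    rw [e6, smul_eq_mul]
    change _ = 2 ^ X.t * ((((X.T (σ j) p.1 q.1 : ℤ) : FK I F)) * (gtw F (P j) p.2.1 q.2.1 *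
      algebraMap F (FK I F) (B j p.2.2 q.2.2)))
    ring
  have h4 : (M₁.map f).rank = (kr (cst (FK I F) X.T) A).rank := by
    rw [← Matrix.rank_submatrix (M₁.map f) E E, h3]
    have h5 : IsUnit ((2 ^ X.t : FK I F) • (1 : Matrix ((Fin X.t → ZMod 2) × (I → ZMod 2) × Fin n)
        ((Fin X.t → ZMod 2) × (I → ZMod 2) × Fin n) (FK I F))).det := by
      rw [Matrix.det_smul, Matrix.det_one, mul_one]
      exact isUnit_iff_ne_zero.mpr (pow_ne_zero _ (pow_ne_zero _ two_ne_zero))
    have h6 := Matrix.rank_mul_eq_right_of_isUnit_det _ (kr (cst (FK I F) X.T) A) h5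
    rw [Matrix.smul_mul, Matrix.one_mul] at h6
    exact h6
  have h5 := Hit.rank_specialise (K := FK (I ⊕ Fin X.t) F) f M₁
  rw [h2, h4] at h5
  rw [Fintype.card_sum, Fintype.card_fin, pow_add] at h1
  have h6 : 2 ^ Fintype.card I * 2 ^ X.t * n = 2 ^ X.t * (n * 2 ^ Fintype.card I) := by ring
  have h7 : 2 ^ Fintype.card I * 2 ^ X.t = 2 ^ X.t * 2 ^ Fintype.card I := by ring
  omega

end Pool.Agent.Lib.MP_64d474_lc.Pc
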