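import Mathlib
import Pool.Agent.Lib.MP_64d474_lc.Pc.Stmts
import Pool.Agent.Lib.MP_64d474_lc.Pc.Replace
import Pool.Agent.Lib.MP_64d474_lc.Pc.Grid
import Pool.Agent.Lib.MP_64d474_lc.Pc.Phase2

/-!
One place without a twist.
-/

open Matrix Module MvPolynomial

set_option linter.unusedSectionVars false

namespace Pool.Agent.Lib.MP_64d474_lc.Pc

open Pool.Agent.Lib.MP_64d474_lc.Op (sgn)
open Pool.Agent.Lib.MP_64d474_lc.Nc

namespace LastAux

open RepAux

/-- the rank with the explicit tuple in the last factor, without a twist there -/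
theorem rank_last.{u} (hT : StTorus.{u}) (hS : StSymRank.{u}) {F : Type u} [Field F] [CharZero F]
    {n m r : ℕ} (X : Data n r) {I I' : Type} [Fintype I] [DecidableEq I] [Fintype I']
    [DecidableEq I'] (P : Fin m → Matrix (I → ZMod 2) (I → ZMod 2) ℤ) (σ : Fin m → Fin r)
    (Z : Fin r → Matrix (I' → ZMod 2) (I' → ZMod 2) ℤ) (B : Fin m → Matrix (Fin n) (Fin n) F)
    (hGN : GN (fun j => two (P j) (Z (σ j))) B) :
    2 ^ X.t * (n * 2 ^ Fintype.card I) <
      (big (Sum.elim (gc F) fun _ => 1) (Sum.elim (ge F) fun _ => 1)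
        (fun j => two (P j) (X.T (σ j))) fun j => (B j).map (algebraMap F (FK I F))).rank +
        2 ^ X.t * 2 ^ Fintype.card I := by
  classical
  obtain ⟨c, e, hdet⟩ := hGN
  -- the family over the field of rational functions
  obtain ⟨A, hA⟩ : ∃ A : Fin r → Matrix ((I → ZMod 2) × Fin n) ((I → ZMod 2) × Fin n) (FK I F),
      A = fun κ => ∑ j, if σ j = κ then
        kroneckerMap (· * ·) (gtw F (P j)) ((B j).map (algebraMap F (FK I F))) else 0 := ⟨_, rfl⟩
  -- sums over the family
  have hkr : ∀ {J : Type} (Y : Fin r → Matrix J J (FK I F)) (p q : J × (I → ZMod 2) × Fin n),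
      kr Y A p q = ∑ j, Y (σ j) p.1 q.1 * (gtw F (P j) p.2.1 q.2.1 *
        algebraMap F (FK I F) (B j p.2.2 q.2.2)) := by
    intro J Y p q
    rw [kr, hA]
    simp only [Matrix.sum_apply, Finset.mul_sum]
    rw [Finset.sum_comm]
    refine Finset.sum_congr rfl fun j _ => ?_
    rw [Finset.sum_eq_single (σ j)]
    · rw [if_pos rfl]
      rfl
    · intro κ _ hκ
      rw [if_neg hκ.symm, Matrix.zero_apply, mul_zero]
    · intro h
      exact absurd (Finset.mem_univ _) h
  -- no shrunk subspace
  have hns : Nsh fun κ => (A κ).mulVecLin := by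
    refine nsh_of_rank (J := I' → ZMod 2) (fun κ => tw
      (fun i => algebraMap F (FK I F) (c (Sum.inr i)))
      (fun i => algebraMap F (FK I F) (e (Sum.inr i))) (Z κ)) A ?_
    -- the matrix over the polynomial ring
    let M₀ : Matrix ((I' → ZMod 2) × (I → ZMod 2) × Fin n) ((I' → ZMod 2) × (I → ZMod 2) × Fin n)
        (MvPolynomial (I ⊕ I) F) := fun p q => ∑ j, tw (fun i => C (c (Sum.inr i)))
          (fun i => C (e (Sum.inr i))) (Z (σ j)) p.1 q.1 *
          (tw (fun i => MvPolynomial.X (Sum.inl i)) (fun i => MvPolynomial.X (Sum.inr i)) (P j)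
            p.2.1 q.2.1 * C (B j p.2.2 q.2.2))
    have h1 : M₀.map (algebraMap (MvPolynomial (I ⊕ I) F) (FK I F)) =
        kr (fun κ => tw (fun i => algebraMap F (FK I F) (c (Sum.inr i)))
          (fun i => algebraMap F (FK I F) (e (Sum.inr i))) (Z κ)) A := by
      ext p q
      rw [hkr, Matrix.map_apply, map_sum]
      refine Finset.sum_congr rfl fun j _ => ?_
      rw [map_mul, map_mul, tw_hom, tw_hom]
      have e1 : ∀ a : F, algebraMap (MvPolynomial (I ⊕ I) F) (FK I F) (C a) =
          algebraMap F (FK I F) a := by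
        intro a
        rw [← MvPolynomial.algebraMap_eq, ← IsScalarTower.algebraMap_apply]
      simp only [e1]
      rfl
    have h2 : M₀.map (eval (Sum.elim (fun i => c (Sum.inl i)) fun i => e (Sum.inl i))) =
        (big c e (fun j => two (P j) (Z (σ j))) B).submatrix
          (fun p : (I' → ZMod 2) × (I → ZMod 2) × Fin n => (Sum.elim p.2.1 p.1, p.2.2))
          (fun p : (I' → ZMod 2) × (I → ZMod 2) × Fin n => (Sum.elim p.2.1 p.1, p.2.2)) := by
      ext p q
      rw [Matrix.map_apply, map_sum, Matrix.submatrix_apply, big]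
      refine Finset.sum_congr rfl fun j _ => ?_
      rw [map_mul, map_mul, tw_hom, tw_hom, tw_two]
      simp only [eval_C, eval_X, Sum.elim_inl, Sum.elim_inr]
      ring
    let E : ((I' → ZMod 2) × (I → ZMod 2) × Fin n) ≃ (I ⊕ I' → ZMod 2) × Fin n :=
      { toFun := fun p => (Sum.elim p.2.1 p.1, p.2.2)
        invFun := fun q => (fun i => q.1 (Sum.inr i), fun i => q.1 (Sum.inl i), q.2)
        left_inv := fun p => rfl
        right_inv := fun q => by
          refine Prod.ext (funext fun i => ?_) rfl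
          rcases i with i | i <;> rfl }
    have h3 : (M₀.map (eval (Sum.elim (fun i => c (Sum.inl i)) fun i => e (Sum.inl i)))).rank =
        Fintype.card ((I' → ZMod 2) × (I → ZMod 2) × Fin n) := by
      rw [h2]
      refine Hit.rank_of_det_ne_zero _ ?_
      change ((big c e (fun j => two (P j) (Z (σ j))) B).submatrix E E).det ≠ 0
      rw [Matrix.det_submatrix_equiv_self]
      exact hdet
    have h4 := Hit.rank_specialise (K := FK I F)
      (eval (Sum.elim (fun i => c (Sum.inl i)) fun i => e (Sum.inl i))) M₀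
    rw [h1, h3] at h4
    exact le_antisymm (Matrix.rank_le_card_width _) h4
  -- symmetries
  obtain ⟨Γ, hΓ1, hΓ2⟩ := hT F I n
  have hcomm : ∀ s ∈ Γ, ∀ k v, (A k).mulVecLin (s.g v) = s.g ((A k).mulVecLin v) := by
    intro s hs k v
    have e1 : ∀ w, (A k).mulVecLin w = ∑ j, if σ j = k then
        kroneckerMap (· * ·) (gtw F (P j)) ((B j).map (algebraMap F (FK I F))) *ᵥ w else 0 := by
      intro w
      rw [Matrix.mulVecLin_apply, hA, Matrix.sum_mulVec]
      refine Finset.sum_congr rfl fun j _ => ?_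
      split_ifs
      · rfl
      · exact Matrix.zero_mulVec _
    rw [e1, e1, map_sum]
    refine Finset.sum_congr rfl fun j _ => ?_
    split_ifs
    · exact hΓ1 s hs (P j) (B j) v
    · rw [map_zero]
  have hdim : finrank (FK I F) ((I → ZMod 2) × Fin n → FK I F) = n * 2 ^ Fintype.card I := by
    rw [Module.finrank_fintype_fun_eq_card, Fintype.card_prod, Fintype.card_fun, ZMod.card,
      Fintype.card_fin, mul_comm]
  have hrank := hS X.K₁ X.K₂ X.l₁ X.l₂ r n X.L X.φ₁ X.φ₂ X.α X.isData (FK I F)
    ((I → ZMod 2) × Fin n → FK I F) (fun κ => (A κ).mulVecLin) hns Γ hcomm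
    (2 ^ Fintype.card I) (by positivity) hΓ2 hdim
  rw [← rank_kr] at hrank
  change 2 ^ X.t * (n * 2 ^ Fintype.card I) <
    (kr (cst (FK I F) X.T) A).rank + 2 ^ X.t * 2 ^ Fintype.card I at hrank
  let E : (Fin X.t → ZMod 2) × (I → ZMod 2) × Fin n ≃ (I ⊕ Fin X.t → ZMod 2) × Fin n :=
    { toFun := fun p => (Sum.elim p.2.1 p.1, p.2.2)
      invFun := fun q => (fun i => q.1 (Sum.inr i), fun i => q.1 (Sum.inl i), q.2)
      left_inv := fun p => rfl
      right_inv := fun q => by
        refine Prod.ext (funext fun i => ?_) rfl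
        rcases i with i | i <;> rfl }
  have h3 : (big (Sum.elim (gc F) fun _ => 1) (Sum.elim (ge F) fun _ => 1)
        (fun j => two (P j) (X.T (σ j))) fun j =>
          (B j).map (algebraMap F (FK I F))).submatrix E E =
      (2 ^ X.t : FK I F) • kr (cst (FK I F) X.T) A := by
    ext p q
    rw [Matrix.submatrix_apply, Matrix.smul_apply, hkr, big, Finset.smul_sum]
    refine Finset.sum_congr rfl fun j _ => ?_
    rw [tw_two]
    have e6 := tw_one (R := FK I F) (X.T (σ j)) p.1 q.1
    rw [Fintype.card_fin] at e6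
    change gtw F (P j) p.2.1 q.2.1 * tw (fun _ => (1 : FK I F)) (fun _ => 1) (X.T (σ j)) p.1 q.1 *
      algebraMap F (FK I F) (B j p.2.2 q.2.2) = _
    rw [e6, smul_eq_mul]
    change _ = 2 ^ X.t * ((((X.T (σ j) p.1 q.1 : ℤ) : FK I F)) * (gtw F (P j) p.2.1 q.2.1 *
      algebraMap F (FK I F) (B j p.2.2 q.2.2)))
    ring
  have h4 : (big (Sum.elim (gc F) fun _ => 1) (Sum.elim (ge F) fun _ => 1)
        (fun j => two (P j) (X.T (σ j))) fun j =>
          (B j).map (algebraMap F (FK I F))).rank = (kr (cst (FK I F) X.T) A).rank := by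
    rw [← Matrix.rank_submatrix _ E E, h3]
    have h5 : IsUnit ((2 ^ X.t : FK I F) • (1 : Matrix ((Fin X.t → ZMod 2) × (I → ZMod 2) × Fin n)
        ((Fin X.t → ZMod 2) × (I → ZMod 2) × Fin n) (FK I F))).det := by
      rw [Matrix.det_smul, Matrix.det_one, mul_one]
      exact isUnit_iff_ne_zero.mpr (pow_ne_zero _ (pow_ne_zero _ two_ne_zero))
    have h6 := Matrix.rank_mul_eq_right_of_isUnit_det _ (kr (cst (FK I F) X.T) A) h5
    rw [Matrix.smul_mul, Matrix.one_mul] at h6
    exact h6
  rw [h4]
  exact hrank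

/-- the rank over the field of rational functions is attained on a grid -/
theorem grid_rank {F : Type*} [Field F] [CharZero F] {τ α : Type*} [Finite τ] [Fintype α]
    [DecidableEq α] (M : Matrix α α (MvPolynomial τ F)) (h : ∀ j p q, degreeOf j (M p q) ≤ 1) :
    ∃ x : τ → ℕ, (∀ j, x j ≤ Fintype.card α) ∧
      (M.map (algebraMap (MvPolynomial τ F) (FractionRing (MvPolynomial τ F)))).rank ≤
        (M.map (eval fun j => (x j : F))).rank := by
  classical
  obtain ⟨a, b, hab⟩ := exists_minor (M.map (algebraMap (MvPolynomial τ F)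
    (FractionRing (MvPolynomial τ F))))
  have h1 : ((M.map (algebraMap (MvPolynomial τ F) (FractionRing (MvPolynomial τ F)))).submatrix
      a b).det = algebraMap _ _ ((M.submatrix a b).det) := by
    rw [RingHom.map_det]
    rfl
  rw [h1] at hab
  have h2 : (M.submatrix a b).det ≠ 0 := by
    intro h0
    rw [h0, map_zero] at hab
    exact hab rfl
  have hr := (M.map (algebraMap (MvPolynomial τ F)
    (FractionRing (MvPolynomial τ F)))).rank_le_card_width
  generalize (M.map (algebraMap (MvPolynomial τ F)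
    (FractionRing (MvPolynomial τ F)))).rank = ρ at *
  by_contra hcon
  apply h2
  refine eq_zero_of_eval_zero_at_prod_finset _
    (fun _ => (Finset.range (Fintype.card α + 1)).image fun i : ℕ => (i : F)) ?_ ?_
  · intro j
    rw [Finset.card_image_of_injective _ Nat.cast_injective, Finset.card_range]
    have h3 := Grid.degreeOf_det j (M.submatrix a b) fun p q => h j _ _
    rw [Fintype.card_fin] at h3
    omega
  · intro x hx
    have hx' : ∀ i, ∃ a : ℕ, a ≤ Fintype.card α ∧ (a : F) = x i := by
      intro i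
      obtain ⟨a, ha, hax⟩ := Finset.mem_image.mp (hx i)
      exact ⟨a, by have := Finset.mem_range.mp ha; omega, hax⟩
    choose z hz hzx using hx'
    by_contra h3
    apply hcon
    refine ⟨z, hz, ?_⟩
    have h4 : ((M.map (eval fun j => (z j : F))).submatrix a b).det ≠ 0 := by
      have e : (fun j => (z j : F)) = x := funext hzx
      rw [e]
      have h5 : ((M.map (eval x)).submatrix a b).det = eval x ((M.submatrix a b).det) := by
        rw [RingHom.map_det]
        rfl
      rw [h5]
      exact h3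
    have h5 := Hit.rank_of_det_ne_zero _ h4
    rw [Fintype.card_fin] at h5
    have h6 := Matrix.rank_submatrix_le (M.map (eval fun j => (z j : F))) a b
    omega

/-- small integer parameters in all factors but the last -/
theorem grid_last.{u} (hT : StTorus.{u}) (hS : StSymRank.{u}) {F : Type u} [Field F] [CharZero F]
    {n m r : ℕ} (X : Data n r) {I I' : Type} [Fintype I] [DecidableEq I] [Fintype I']
    [DecidableEq I'] (P : Fin m → Matrix (I → ZMod 2) (I → ZMod 2) ℤ) (σ : Fin m → Fin r)
    (Z : Fin r → Matrix (I' → ZMod 2) (I' → ZMod 2) ℤ) (B : Fin m → Matrix (Fin n) (Fin n) F)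
    (hGN : GN (fun j => two (P j) (Z (σ j))) B) :
    ∃ c e : I → ℕ, (∀ i, c i ≤ 2 ^ X.t * (n * 2 ^ Fintype.card I)) ∧
      (∀ i, e i ≤ 2 ^ X.t * (n * 2 ^ Fintype.card I)) ∧
      2 ^ X.t * (n * 2 ^ Fintype.card I) <
      (big (Sum.elim (fun i => (c i : F)) fun _ => 1) (Sum.elim (fun i => (e i : F)) fun _ => 1)
        (fun j => two (P j) (X.T (σ j))) B).rank + 2 ^ X.t * 2 ^ Fintype.card I := by
  classical
  have h1 := rank_last hT hS X P σ Z B hGN
  let M : Matrix ((I ⊕ Fin X.t → ZMod 2) × Fin n) ((I ⊕ Fin X.t → ZMod 2) × Fin n)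
      (MvPolynomial (I ⊕ I) F) :=
    big (Sum.elim (fun i => MvPolynomial.X (Sum.inl i)) fun _ => 1)
      (Sum.elim (fun i => MvPolynomial.X (Sum.inr i)) fun _ => 1)
      (fun j => two (P j) (X.T (σ j))) fun j => (B j).map C
  have h2 : M.map (algebraMap (MvPolynomial (I ⊕ I) F) (FK I F)) =
      big (Sum.elim (gc F) fun _ => 1) (Sum.elim (ge F) fun _ => 1)
        (fun j => two (P j) (X.T (σ j))) fun j => (B j).map (algebraMap F (FK I F)) := by
    rw [big_map]
    have e1 : (fun i : I ⊕ Fin X.t => algebraMap (MvPolynomial (I ⊕ I) F) (FK I F)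
        (Sum.elim (fun i => MvPolynomial.X (Sum.inl i)) (fun _ => 1) i)) =
        Sum.elim (gc F) fun _ => 1 := by
      funext i
      rcases i with i | i
      · rfl
      · exact map_one _
    have e2 : (fun i : I ⊕ Fin X.t => algebraMap (MvPolynomial (I ⊕ I) F) (FK I F)
        (Sum.elim (fun i => MvPolynomial.X (Sum.inr i)) (fun _ => 1) i)) =
        Sum.elim (ge F) fun _ => 1 := by
      funext i
      rcases i with i | i
      · rfl
      · exact map_one _
    rw [e1, e2]
    congr 1
  have h3 : ∀ x : I ⊕ I → F, M.map (eval x) =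
      big (Sum.elim (fun i => x (Sum.inl i)) fun _ => 1)
        (Sum.elim (fun i => x (Sum.inr i)) fun _ => 1) (fun j => two (P j) (X.T (σ j))) B := by
    intro x
    rw [big_map]
    have e1 : (fun i : I ⊕ Fin X.t => eval x
        (Sum.elim (fun i => (MvPolynomial.X (Sum.inl i) : MvPolynomial (I ⊕ I) F))
          (fun _ => 1) i)) = Sum.elim (fun i => x (Sum.inl i)) fun _ => 1 := by
      funext i
      rcases i with i | i
      · exact eval_X _
      · exact map_one _
    have e2 : (fun i : I ⊕ Fin X.t => eval x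
        (Sum.elim (fun i => (MvPolynomial.X (Sum.inr i) : MvPolynomial (I ⊕ I) F))
          (fun _ => 1) i)) = Sum.elim (fun i => x (Sum.inr i)) fun _ => 1 := by
      funext i
      rcases i with i | i
      · exact eval_X _
      · exact map_one _
    rw [e1, e2]
    congr 1
    funext j
    ext a b
    rw [Matrix.map_apply, Matrix.map_apply, eval_C]
  have h4 : ∀ j p q, degreeOf j (M p q) ≤ 1 := by
    intro j p q
    have hC : ∀ a : F, degreeOf j (C a : MvPolynomial (I ⊕ I) F) = 0 := fun a => degreeOf_C _ _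
    change degreeOf j (∑ k, tw (Sum.elim (fun i => MvPolynomial.X (Sum.inl i)) fun _ => 1)
      (Sum.elim (fun i => MvPolynomial.X (Sum.inr i)) fun _ => 1)
      (two (P k) (X.T (σ k))) p.1 q.1 * C (B k p.2 q.2)) ≤ 1
    refine (degreeOf_sum_le _ _ _).trans (Finset.sup_le fun k _ => ?_)
    refine (degreeOf_mul_le _ _ _).trans ?_
    rw [hC, add_zero, tw_two]
    refine (degreeOf_mul_le _ _ _).trans ?_
    have e1 : tw (fun i => (Sum.elim (fun i => MvPolynomial.X (Sum.inl i)) (fun _ => 1)
        (Sum.inr i : I ⊕ Fin X.t) : MvPolynomial (I ⊕ I) F))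
        (fun i => Sum.elim (fun i => MvPolynomial.X (Sum.inr i)) (fun _ => 1)
        (Sum.inr i : I ⊕ Fin X.t)) (X.T (σ k)) (fun i => p.1 (Sum.inr i))
        (fun i => q.1 (Sum.inr i)) = C (2 ^ Fintype.card (Fin X.t) *
          ((X.T (σ k) (fun i => p.1 (Sum.inr i)) (fun i => q.1 (Sum.inr i)) : ℤ) : F)) := by
      have := tw_one (R := MvPolynomial (I ⊕ I) F) (X.T (σ k)) (fun i => p.1 (Sum.inr i))
        (fun i => q.1 (Sum.inr i))
      refine this.trans ?_
      rw [map_mul, map_pow, map_intCast, map_ofNat]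
    rw [e1, hC, add_zero]
    exact Grid.degreeOf_tw j (P k) _ _
  obtain ⟨x, hx, h5⟩ := grid_rank M h4
  have hcard : Fintype.card ((I ⊕ Fin X.t → ZMod 2) × Fin n) =
      2 ^ X.t * (n * 2 ^ Fintype.card I) := by
    rw [Fintype.card_prod, Fintype.card_fun, ZMod.card, Fintype.card_fin, Fintype.card_sum,
      Fintype.card_fin, pow_add]
    ring
  rw [hcard] at hx
  rw [h3] at h5
  refine ⟨fun i => x (Sum.inl i), fun i => x (Sum.inr i), fun i => hx _, fun i => hx _, ?_⟩
  have h6 : (M.map (algebraMap (MvPolynomial (I ⊕ I) F) (FK I F))).rank ≤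
    (big (Sum.elim (fun i => (x (Sum.inl i) : F)) fun _ => 1)
        (Sum.elim (fun i => (x (Sum.inr i) : F)) fun _ => 1) (fun j => two (P j) (X.T (σ j)))
        B).rank := h5
  rw [h2] at h6
  exact lt_of_lt_of_le h1 (Nat.add_le_add_right h6 _)

end LastAux

end Pool.Agent.Lib.MP_64d474_lc.Pc
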