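import Mathlib
import Pool.Agent.Lib.MP_64d474_lc.Pc.Defs

/-!
# The explicit tests for partially commutative symbolic matrices, and the rank
-/

open Matrix Module

set_option linter.unusedSectionVars false

namespace Pool.Agent.Lib.MP_64d474_lc.Pc

open Pool.Agent.Lib.MP_64d474_lc.Nc

/-- the partially commutative rank: the largest size of a submatrix that is nonsingular for some
matrices such that matrices with different classes commute -/
noncomputable def pcRank {F : Type*} [Field F] {n m k : ℕ} (B : Fin m → Matrix (Fin n) (Fin n) F)
    (cl : Fin m → Fin k) : ℕ :=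
  sSup {r | ∃ f g : Fin r → Fin n, PcNonsing (fun j => (B j).submatrix f g) cl}

/-- the parameters `p` at the places in `S`, and `1` at the other places -/
def par {k t N : ℕ} (S : Finset (Fin k)) (p : Fin k × Fin t → Fin (N + 1)) (i : Fin k × Fin t) :
    ℤ := if i.1 ∈ S then (p i : ℤ) else 1

variable {n m k : ℕ} (X : Data n (m + 1)) (cl : Fin m → Fin k) (S : Finset (Fin k))

/-- the twists of the explicit tuple with parameters between `0` and `n 2 ^ (k t)` at the places
in `S`, without twist at the other places -/
def tests : Finset (Fin m → Matrix (Fin k × Fin X.t → ZMod 2) (Fin k × Fin X.t → ZMod 2) ℤ) :=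
  Finset.univ.image fun p : (Fin k × Fin X.t → Fin (n * 2 ^ (k * X.t) + 1)) ×
    (Fin k × Fin X.t → Fin (n * 2 ^ (k * X.t) + 1)) =>
      fun j => twist (par S p.1) (par S p.2) (ptup X cl j)

end Pool.Agent.Lib.MP_64d474_lc.Pc
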