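import Mathlib
import Pool.Agent.Lib.MP_64d474_lc.Pc.Tests
import Pool.Agent.Lib.MP_64d474_lc.Pc.Last

/-!
One place without a twist, for the explicit tuple.
-/

open Matrix Module

set_option linter.unusedSectionVars false

namespace Pool.Agent.Lib.MP_64d474_lc.Pc

open Pool.Agent.Lib.MP_64d474_lc.Op (sgn)
open Pool.Agent.Lib.MP_64d474_lc.Nc

/-- the index of the matrix at the place `i` for the variable `j` -/
def slot {m k : ℕ} (cl : Fin m → Fin k) (i : Fin k) (j : Fin m) : Fin (m + 1) :=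
  if cl j = i then j.succ else 0

namespace LastAux

/-- all places but one, and this place -/
def spl {k : ℕ} (t : ℕ) (i₀ : Fin k) : ({i : Fin k // i ≠ i₀} × Fin t) ⊕ Fin t ≃ Fin k × Fin t where
  toFun := Sum.elim (fun p => (p.1.1, p.2)) fun a => (i₀, a)
  invFun p := if h : p.1 = i₀ then Sum.inr p.2 else Sum.inl (⟨p.1, h⟩, p.2)
  left_inv x := by
    rcases x with ⟨⟨i, hi⟩, a⟩ | a
    · exact dif_neg hi
    · exact dif_pos rfl
  right_inv p := by
    rcases p with ⟨i, a⟩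
    by_cases h : i = i₀
    · subst h
      simp
    · simp only
      rw [dif_neg h]
      rfl

/-- reindexing -/
theorem big_re {R : Type*} [CommRing R] {κ ι I I' : Type*} [Fintype κ] [Fintype I] [DecidableEq I]
    [Fintype I'] [DecidableEq I'] (e : I' ≃ I) (c d : I → R)
    (P : κ → Matrix (I → ZMod 2) (I → ZMod 2) ℤ) (P' : κ → Matrix (I' → ZMod 2) (I' → ZMod 2) ℤ)
    (B : κ → Matrix ι ι R)
    (h : ∀ j x y, P j x y = P' j (fun i => x (e i)) (fun i => y (e i))) :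
    big (fun i => c (e i)) (fun i => d (e i)) P' B =
      (big c d P B).submatrix ((Phase2.vec e).prodCongr (Equiv.refl ι))
        ((Phase2.vec e).prodCongr (Equiv.refl ι)) := by
  funext p q
  simp only [big, Matrix.submatrix_apply]
  refine Finset.sum_congr rfl fun j _ => ?_
  rw [Phase2.tw_re e c d (P j) (P' j) (h j)]
  rfl

/-- the other factors of the explicit tuple -/
def oth {n m k : ℕ} (X : Data n (m + 1)) (cl : Fin m → Fin k) (i₀ : Fin k) (j : Fin m) :
    Matrix ({i : Fin k // i ≠ i₀} × Fin X.t → ZMod 2) ({i : Fin k // i ≠ i₀} × Fin X.t → ZMod 2) ℤ :=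
  fun x y => ∏ i : {i : Fin k // i ≠ i₀}, X.T (slot cl i j) (fun a => x (i, a)) fun a => y (i, a)

theorem ptup_split {n m k : ℕ} (X : Data n (m + 1)) (cl : Fin m → Fin k) (i₀ : Fin k) (j : Fin m)
    (x y : Fin k × Fin X.t → ZMod 2) :
    ptup X cl j x y = two (oth X cl i₀ j) (X.T (slot cl i₀ j)) (fun i => x (spl X.t i₀ i))
      (fun i => y (spl X.t i₀ i)) := by
  rw [two, oth, ptup, pri, Fintype.prod_eq_mul_prod_subtype_ne _ i₀, mul_comm]
  rfl

theorem exists_last.{u} (hT : StTorus.{u}) (hS : StSymRank.{u}) {F : Type u} [Field F] [CharZero F]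
    {n m k : ℕ} (X : Data n (m + 1)) (cl : Fin m → Fin k) (B : Fin m → Matrix (Fin n) (Fin n) F)
    (hGN : GN (ptup X cl) B) (S : Finset (Fin k)) (i₀ : Fin k) (hi : i₀ ∉ S)
    (hS' : ∀ i ≠ i₀, i ∈ S) :
    ∃ c e : Fin k × Fin X.t → ℕ, (∀ i, c i ≤ n * 2 ^ (k * X.t)) ∧
      (∀ i, e i ≤ n * 2 ^ (k * X.t)) ∧
      2 ^ (k * X.t) * n <
        (tens (cst F fun j => twist (fun i => if i.1 ∈ S then (c i : ℤ) else 1)
          (fun i => if i.1 ∈ S then (e i : ℤ) else 1) (ptup X cl j)) B).rank +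
          2 ^ (k * X.t) := by
  classical
  have h1 := Phase2.gn_re (spl X.t i₀) (ptup X cl)
    (fun j => two (oth X cl i₀ j) (X.T (slot cl i₀ j))) B (ptup_split X cl i₀) hGN
  obtain ⟨c, e, hc, he, h2⟩ := grid_last hT hS X (oth X cl i₀) (slot cl i₀) X.T B h1
  have hk : 0 < k := (Nat.zero_le _).trans_lt i₀.2
  have hcard : 2 ^ X.t * 2 ^ Fintype.card ({i : Fin k // i ≠ i₀} × Fin X.t) = 2 ^ (k * X.t) := by
    rw [Fintype.card_prod, Fintype.card_fin, Fintype.card_subtype_compl, Fintype.card_fin,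
      Fintype.card_subtype_eq, ← pow_add]
    congr 1
    obtain ⟨k', rfl⟩ := Nat.exists_eq_succ_of_ne_zero hk.ne'
    rw [Nat.succ_sub_one, Nat.succ_mul]
    ring
  have hcard' : 2 ^ X.t * (n * 2 ^ Fintype.card ({i : Fin k // i ≠ i₀} × Fin X.t)) =
      n * 2 ^ (k * X.t) := by
    rw [← hcard]
    ring
  rw [hcard'] at hc he h2
  rw [hcard] at h2
  -- parameters on all places
  let C : Fin k × Fin X.t → ℕ := fun p => if h : p.1 = i₀ then 0 else c (⟨p.1, h⟩, p.2)
  let E : Fin k × Fin X.t → ℕ := fun p => if h : p.1 = i₀ then 0 else e (⟨p.1, h⟩, p.2)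
  refine ⟨C, E, fun p => ?_, fun p => ?_, ?_⟩
  · simp only [C]
    split_ifs
    · exact Nat.zero_le _
    · exact hc _
  · simp only [E]
    split_ifs
    · exact Nat.zero_le _
    · exact he _
  rw [← Grid.big_eq_tens, mul_comm (2 ^ (k * X.t)) n]
  refine lt_of_lt_of_eq h2 ?_
  congr 1
  have e1 : ∀ (a : {i : Fin k // i ≠ i₀} × Fin X.t → ℕ),
      (Sum.elim (fun i => (a i : F)) fun _ => 1 :
        ({i : Fin k // i ≠ i₀} × Fin X.t) ⊕ Fin X.t → F) = fun i =>
        (((if (spl X.t i₀ i).1 ∈ S then ((if h : (spl X.t i₀ i).1 = i₀ then 0 else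
          a (⟨(spl X.t i₀ i).1, h⟩, (spl X.t i₀ i).2) : ℕ) : ℤ) else 1 : ℤ)) : F) := by
    intro a
    funext i
    rcases i with ⟨⟨i, h⟩, b⟩ | b
    · have e2 : spl X.t i₀ (Sum.inl (⟨i, h⟩, b)) = (i, b) := rfl
      rw [e2, if_pos (hS' i h), dif_neg h]
      simp
    · have e2 : spl X.t i₀ (Sum.inr b) = (i₀, b) := rfl
      rw [e2, if_neg hi]
      simp
  rw [e1 c, e1 e]
  have h3 := big_re (R := F) (spl X.t i₀)
    (fun p => (((if p.1 ∈ S then (C p : ℤ) else 1 : ℤ)) : F))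
    (fun p => (((if p.1 ∈ S then (E p : ℤ) else 1 : ℤ)) : F)) (ptup X cl)
    (fun j => two (oth X cl i₀ j) (X.T (slot cl i₀ j))) B (ptup_split X cl i₀)
  have h4 := congrArg Matrix.rank h3
  rw [Matrix.rank_submatrix] at h4
  exact h4

end LastAux

end Pool.Agent.Lib.MP_64d474_lc.Pc
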