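import Mathlib
import Pool.Agent.Lib.MP_64d474_lc.Pc.Stmts

/-!
# Partially commutative symbolic matrices: module statements for ranks
-/

open Matrix Module MvPolynomial

set_option linter.unusedSectionVars false

namespace Pool.Agent.Lib.MP_64d474_lc.Pc

open Pool.Agent.Lib.MP_64d474_lc.Nc

/-- PC-MINOR: the rank of the generic twist is `2 ^ |I|` times the largest size of a submatrix with
a nonsingular twist -/
def StMinor.{u} : Prop :=
  ∀ (F : Type u) [Field F] [CharZero F] (I : Type) [Fintype I] [DecidableEq I] (n m : ℕ)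
    (P : Fin m → Matrix (I → ZMod 2) (I → ZMod 2) ℤ) (B : Fin m → Matrix (Fin n) (Fin n) F),
    ∃ (r : ℕ) (f g : Fin r → Fin n), Function.Injective f ∧ Function.Injective g ∧
      GN P (fun j => (B j).submatrix f g) ∧
      (big (gc F) (ge F) P fun j => (B j).map (algebraMap F (FK I F))).rank =
        2 ^ Fintype.card I * r

/-- PC-RANKGRID: the rank of the generic twist is the maximal rank of a twist, and it is attained
for small integer parameters -/
def StRankGrid.{u} : Prop :=
  ∀ (F : Type u) [Field F] [CharZero F] (I : Type) [Fintype I] [DecidableEq I] (n m : ℕ)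
    (P : Fin m → Matrix (I → ZMod 2) (I → ZMod 2) ℤ) (B : Fin m → Matrix (Fin n) (Fin n) F),
    (∀ c e : I → F, (big c e P B).rank ≤
      (big (gc F) (ge F) P fun j => (B j).map (algebraMap F (FK I F))).rank) ∧
    ∃ c e : I → ℕ, (∀ i, c i ≤ n * 2 ^ Fintype.card I) ∧ (∀ i, e i ≤ n * 2 ^ Fintype.card I) ∧
      (tens (cst F fun j => twist (fun i => (c i : ℤ)) (fun i => (e i : ℤ)) (P j)) B).rank =
        (big (gc F) (ge F) P fun j => (B j).map (algebraMap F (FK I F))).rank

/-- PC-PLAINR: in one factor, an arbitrary tuple can be replaced by a tuple of integer matrices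
whose size is a power of two, without loss in the normalised rank -/
def StPlainR.{u} : Prop :=
  ∀ (F : Type u) [Field F] [CharZero F] (n m r : ℕ) (E J : Type) [Fintype E] [DecidableEq E]
    [Fintype J] [DecidableEq J] (P : Fin m → Matrix E E F) (σ : Fin m → Fin r)
    (Y : Fin r → Matrix J J F) (B : Fin m → Matrix (Fin n) (Fin n) F),
    ∃ (t : ℕ) (Z : Fin r → Matrix (Fin t → ZMod 2) (Fin t → ZMod 2) ℤ),
      2 ^ t * (tens (fun j => kroneckerMap (· * ·) (P j) (Y (σ j))) B).rank ≤
        Fintype.card J *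
          (tens (fun j => kroneckerMap (· * ·) (P j) ((Z (σ j)).map fun z : ℤ => (z : F))) B).rank

/-- PC-PHASE1R: in all factors -/
def StPhase1R.{u} : Prop :=
  ∀ (F : Type u) [Field F] [CharZero F] (n m r k : ℕ) (σ : Fin k → Fin m → Fin r)
    (J : Type) [Fintype J] [DecidableEq J] (Y : Fin k → Fin r → Matrix J J F)
    (B : Fin m → Matrix (Fin n) (Fin n) F),
      ∃ (t : ℕ) (Z : Fin k → Fin r → Matrix (Fin t → ZMod 2) (Fin t → ZMod 2) ℤ),
        2 ^ (k * t) * (tens (fun j => prd fun i => Y i (σ i j)) B).rank ≤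
          Fintype.card J ^ k *
            (tens (fun j => prd fun i => (Z i (σ i j)).map fun z : ℤ => (z : F)) B).rank

end Pool.Agent.Lib.MP_64d474_lc.Pc
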