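import Mathlib
import Pool.Agent.Lib.MP_64d474_lc.Pc.StmtsR
import Pool.Agent.Lib.MP_64d474_lc.Pc.Grid
import Pool.Agent.Lib.MP_64d474_lc.Pc.Replace
import Pool.Agent.Lib.MP_64d474_lc.Pc.LastB
import Pool.Agent.Lib.MP_64d474_lc.Nc.Main

/-!
# Partially commutative symbolic matrices: assembly
-/

open Matrix Module

set_option linter.unusedSectionVars false

namespace Pool.Agent.Lib.MP_64d474_lc.Pc

open Pool.Agent.Lib.MP_64d474_lc.Op Pool.Agent.Lib.MP_64d474_lc.Nc

namespace MainAux

/-- the data for a smaller size -/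
def restrict {n m : ℕ} (X : Data n m) {r : ℕ} (h : r ≤ n) : Data r m :=
  ⟨X.K₁, X.K₂, X.l₁, X.l₂, X.L, X.φ₁, X.φ₂, X.α,
    ⟨X.isData.add₁, X.isData.inj₁, X.isData.add₂, X.isData.inj₂, X.isData.inj,
      le_trans (Nat.mul_le_mul_left _ (Nat.pow_le_pow_left h 2)) X.isData.card_ge,
      lt_of_le_of_lt (Nat.mul_le_mul_left _ h) X.isData.steps⟩⟩

section Tens

variable {F : Type*} [Field F] {n m : ℕ}

theorem tens_sub {J : Type*} [Fintype J] {r : ℕ} (Y : Fin m → Matrix J J F)
    (B : Fin m → Matrix (Fin n) (Fin n) F) (f g : Fin r → Fin n) :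
    tens Y (fun j => (B j).submatrix f g) =
      (tens Y B).submatrix (Prod.map id f) (Prod.map id g) := by
  ext p q
  rw [Matrix.submatrix_apply, tens_apply, tens_apply]
  rfl

theorem rank_tens_sub {J : Type*} [Fintype J] {r : ℕ} (Y : Fin m → Matrix J J F)
    (B : Fin m → Matrix (Fin n) (Fin n) F) (f g : Fin r → Fin n) :
    (tens Y fun j => (B j).submatrix f g).rank ≤ (tens Y B).rank := by
  rw [tens_sub]
  exact Matrix.rank_submatrix_le _ _ _

theorem det_ne_zero_of_rank {α : Type*} [Fintype α] [DecidableEq α] (M : Matrix α α F)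
    (h : Fintype.card α ≤ M.rank) : M.det ≠ 0 := by
  intro h0
  obtain ⟨v, hv, hMv⟩ := Matrix.exists_mulVec_eq_zero_iff.mpr h0
  have h1 := LinearMap.finrank_range_add_finrank_ker M.mulVecLin
  rw [Module.finrank_fintype_fun_eq_card] at h1
  have h2 : M.rank = finrank F (LinearMap.range M.mulVecLin) := rfl
  have h3 : finrank F (LinearMap.ker M.mulVecLin) = 0 := by omega
  rw [Submodule.finrank_eq_zero] at h3
  have h4 : v ∈ LinearMap.ker M.mulVecLin := by
    rw [LinearMap.mem_ker, Matrix.mulVecLin_apply, hMv]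
  rw [h3, Submodule.mem_bot] at h4
  exact hv h4

variable {k : ℕ} (B : Fin m → Matrix (Fin n) (Fin n) F) (cl : Fin m → Fin k)

theorem card_idx (k D n : ℕ) : Fintype.card ((Fin k → Fin D) × Fin n) = D ^ k * n := by
  rw [Fintype.card_prod, Fintype.card_fun, Fintype.card_fin, Fintype.card_fin, Fintype.card_fin]

theorem size_le {r : ℕ} {f g : Fin r → Fin n}
    (h : PcNonsing (fun j => (B j).submatrix f g) cl) : r ≤ n := by
  obtain ⟨D, hD, Y, hY⟩ := h
  have h1 := Hit.rank_of_det_ne_zero _ hY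
  have h2 := rank_tens_sub (fun j => place (cl j) (Y j)) B f g
  have h3 := (tens (fun j => place (cl j) (Y j)) B).rank_le_card_width
  rw [h1, card_idx] at h2
  rw [card_idx] at h3
  exact Nat.le_of_mul_le_mul_left (h2.trans h3) (pow_pos hD k)

theorem bdd : BddAbove {r | ∃ f g : Fin r → Fin n, PcNonsing (fun j => (B j).submatrix f g) cl} :=
  ⟨n, by
    rintro r ⟨f, g, h⟩
    exact size_le B cl h⟩

theorem nonempty : {r | ∃ f g : Fin r → Fin n,
    PcNonsing (fun j => (B j).submatrix f g) cl}.Nonempty := by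
  refine ⟨0, fun i => i.elim0, fun i => i.elim0, 1, one_pos, fun _ => 1, ?_⟩
  rw [Matrix.det_isEmpty]
  exact one_ne_zero

theorem le_pcRank {r : ℕ} {f g : Fin r → Fin n}
    (h : PcNonsing (fun j => (B j).submatrix f g) cl) : r ≤ pcRank B cl :=
  le_csSup (bdd B cl) ⟨f, g, h⟩

theorem exists_sub : ∃ f g : Fin (pcRank B cl) → Fin n,
    PcNonsing (fun j => (B j).submatrix f g) cl :=
  Nat.sSup_mem (nonempty B cl) (bdd B cl)

theorem pcRank_le : pcRank B cl ≤ n := by
  obtain ⟨f, g, h⟩ := exists_sub B cl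
  exact size_le B cl h

theorem pcNonsing_iff : PcNonsing B cl ↔ pcRank B cl = n := by
  constructor
  · intro h
    refine le_antisymm (pcRank_le B cl) (le_pcRank B cl (f := id) (g := id) ?_)
    simpa only [Matrix.submatrix_id_id] using h
  · intro h
    obtain ⟨f, g, D, hD, Y, hY⟩ := exists_sub B cl
    refine ⟨D, hD, Y, det_ne_zero_of_rank _ ?_⟩
    have h1 := Hit.rank_of_det_ne_zero _ hY
    have h2 := rank_tens_sub (fun j => place (cl j) (Y j)) B f g
    rw [h1, card_idx, h] at h2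
    rw [card_idx]
    exact h2

end Tens

section Generic

variable {F : Type*} [Field F] {n m : ℕ} {I : Type*} [Fintype I] [DecidableEq I]

/-- the rank of the generic twist -/
noncomputable def gr (P : Fin m → Matrix (I → ZMod 2) (I → ZMod 2) ℤ)
    (B : Fin m → Matrix (Fin n) (Fin n) F) : ℕ :=
  (big (gc F) (ge F) P fun j => (B j).map (algebraMap F (FK I F))).rank

theorem gr_sub_le (P : Fin m → Matrix (I → ZMod 2) (I → ZMod 2) ℤ)
    (B : Fin m → Matrix (Fin n) (Fin n) F) {r : ℕ} (f g : Fin r → Fin n) :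
    gr P (fun j => (B j).submatrix f g) ≤ gr P B := by
  have h : (big (gc F) (ge F) P fun j => ((B j).submatrix f g).map (algebraMap F (FK I F))) =
      (big (gc F) (ge F) P fun j => (B j).map (algebraMap F (FK I F))).submatrix
        (Prod.map id f) (Prod.map id g) := rfl
  rw [gr, h]
  exact Matrix.rank_submatrix_le _ _ _

theorem big_eq (c e : I → ℤ) (P : Fin m → Matrix (I → ZMod 2) (I → ZMod 2) ℤ)
    (B : Fin m → Matrix (Fin n) (Fin n) F) :
    big (fun i => (c i : F)) (fun i => (e i : F)) P B =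
      tens (cst F fun j => twist c e (P j)) B := by
  ext p q
  rw [big, tens_apply]
  refine Finset.sum_congr rfl fun j _ => ?_
  rw [cst, Matrix.map_apply, Grid.twist_tw]
  have h := Grid.tw_hom (Int.castRingHom F) c e (P j) p.1 q.1
  change ((tw c e (P j) p.1 q.1 : ℤ) : F) = _ at h
  rw [h]
  rfl

theorem big_one (P : Fin m → Matrix (I → ZMod 2) (I → ZMod 2) ℤ)
    (B : Fin m → Matrix (Fin n) (Fin n) F) :
    big (fun _ => (1 : F)) (fun _ => 1) P B = (2 ^ Fintype.card I : F) • tens (cst F P) B := by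
  ext p q
  rw [big, Matrix.smul_apply, tens_apply, smul_eq_mul, Finset.mul_sum]
  refine Finset.sum_congr rfl fun j _ => ?_
  rw [RepAux.tw_one, cst, Matrix.map_apply]
  ring

theorem rank_big_one [CharZero F] (P : Fin m → Matrix (I → ZMod 2) (I → ZMod 2) ℤ)
    (B : Fin m → Matrix (Fin n) (Fin n) F) :
    (big (fun _ => (1 : F)) (fun _ => 1) P B).rank = (tens (cst F P) B).rank := by
  rw [big_one]
  have h5 : IsUnit ((2 ^ Fintype.card I : F) • (1 : Matrix ((I → ZMod 2) × Fin n)
      ((I → ZMod 2) × Fin n) F)).det := by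
    rw [Matrix.det_smul, Matrix.det_one, mul_one]
    exact isUnit_iff_ne_zero.mpr (pow_ne_zero _ (pow_ne_zero _ two_ne_zero))
  have h6 := Matrix.rank_mul_eq_right_of_isUnit_det _ (tens (cst F P) B) h5
  rw [Matrix.smul_mul, Matrix.one_mul] at h6
  exact h6

theorem card_gn (I : Type*) [Fintype I] [DecidableEq I] (n : ℕ) :
    Fintype.card ((I → ZMod 2) × Fin n) = 2 ^ Fintype.card I * n := by
  rw [Fintype.card_prod, Fintype.card_fun, ZMod.card, Fintype.card_fin]

/-- the tensor product of integer matrices in two forms -/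
theorem tens_pri {k : ℕ} (Z : Fin m → Fin k → Matrix (I → ZMod 2) (I → ZMod 2) ℤ)
    (B : Fin m → Matrix (Fin n) (Fin n) F) :
    (tens (cst F fun j => pri (Z j)) B) =
      (tens (fun j => prd fun i => (Z j i).map fun z : ℤ => (z : F)) B).submatrix
        ((Equiv.curry (Fin k) I (ZMod 2)).prodCongr (Equiv.refl (Fin n)))
        ((Equiv.curry (Fin k) I (ZMod 2)).prodCongr (Equiv.refl (Fin n))) := by
  ext p q
  rw [Matrix.submatrix_apply, tens_apply, tens_apply]
  refine Finset.sum_congr rfl fun j _ => ?_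
  congr 1
  rw [cst, Matrix.map_apply, pri, Int.cast_prod]
  rfl

theorem rank_tens_pri {k : ℕ} (Z : Fin m → Fin k → Matrix (I → ZMod 2) (I → ZMod 2) ℤ)
    (B : Fin m → Matrix (Fin n) (Fin n) F) :
    (tens (cst F fun j => pri (Z j)) B).rank =
      (tens (fun j => prd fun i => (Z j i).map fun z : ℤ => (z : F)) B).rank := by
  rw [tens_pri, Matrix.rank_submatrix]

end Generic

theorem place_eq {F J : Type*} [Field F] [DecidableEq J] {m k : ℕ} (cl : Fin m → Fin k)
    (Y : Fin m → Matrix J J F) (j : Fin m) :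
    place (cl j) (Y j) =
      prd fun i => (Fin.cons 1 Y : Fin (m + 1) → Matrix J J F) (slot cl i j) := by
  rw [place]
  congr 1
  funext i
  rw [slot]
  by_cases h : cl j = i
  · rw [if_pos h, if_pos h.symm, Fin.cons_succ]
  · rw [if_neg h, if_neg (Ne.symm h), Fin.cons_zero]

section Main

variable {F : Type*} [Field F] [CharZero F] {n m k : ℕ}

theorem gn_of_pc.{u} (hP1 : StPhase1.{u}) (hP2 : StPhase2.{u}) {F : Type u} [Field F] [CharZero F]
    (X : Data n (m + 1)) (cl : Fin m → Fin k) (B : Fin m → Matrix (Fin n) (Fin n) F)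
    (h : PcNonsing B cl) : GN (ptup X cl) B := by
  obtain ⟨D, hD, Y, hY⟩ := h
  have : Nonempty (Fin D) := ⟨⟨0, hD⟩⟩
  simp only [place_eq] at hY
  obtain ⟨t, Z, hZ⟩ := hP1 F n m (m + 1) k (slot cl) (Fin D) (fun _ => Fin.cons 1 Y) B hY
  refine hP2 F n m (m + 1) k t X (slot cl) Z B ⟨fun _ => 1, fun _ => 1, ?_⟩
  refine det_ne_zero_of_rank _ ?_
  rw [rank_big_one, rank_tens_pri, Hit.rank_of_det_ne_zero _ hZ]
  simp only [Fintype.card_prod, Fintype.card_fun, ZMod.card, Fintype.card_fin]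
  rw [← pow_mul, mul_comm t k]

/-- the rank of the generic twist of the explicit tuple -/
theorem gr_ptup.{u} (hP1 : StPhase1.{u}) (hP2 : StPhase2.{u}) (hV : StConv.{u}) (hM : StMinor.{u})
    (hG : StRankGrid.{u}) {F : Type u} [Field F] [CharZero F]
    (X : Data n (m + 1)) (cl : Fin m → Fin k) (B : Fin m → Matrix (Fin n) (Fin n) F) :
    gr (ptup X cl) B = 2 ^ (k * X.t) * pcRank B cl := by
  have hc : Fintype.card (Fin k × Fin X.t) = k * X.t := by
    rw [Fintype.card_prod, Fintype.card_fin, Fintype.card_fin]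
  apply le_antisymm
  · obtain ⟨r, f, g, hf, -, h1, h2⟩ := hM F (Fin k × Fin X.t) n m (ptup X cl) B
    have hr : r ≤ n := by
      have := Fintype.card_le_of_injective f hf
      rwa [Fintype.card_fin, Fintype.card_fin] at this
    have h3 := hV F r m k (restrict X hr) cl (fun j => (B j).submatrix f g) h1
    rw [gr, h2, hc]
    exact Nat.mul_le_mul_left _ (le_pcRank B cl h3)
  · obtain ⟨f, g, h1⟩ := exists_sub B cl
    obtain ⟨c, e, h2⟩ := gn_of_pc hP1 hP2 (restrict X (pcRank_le B cl)) cl _ h1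
    have h3 := (hG F (Fin k × Fin X.t) _ m (ptup X cl) (fun j => (B j).submatrix f g)).1 c e
    have h4 := Hit.rank_of_det_ne_zero _ h2
    have h5 : (big c e (ptup X cl) fun j => (B j).submatrix f g).rank =
        Fintype.card ((Fin k × Fin X.t → ZMod 2) × Fin (pcRank B cl)) := h4
    have h6 := h5.symm.le.trans h3
    rw [card_gn, hc] at h6
    exact h6.trans (gr_sub_le _ _ _ _)

theorem rank_le.{u} (hP2 : StPhase2.{u}) (hV : StConv.{u}) (hM : StMinor.{u})
    (hG : StRankGrid.{u}) (hR : StPhase1R.{u}) {F : Type u} [Field F] [CharZero F]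
    (cl : Fin m → Fin k) (B : Fin m → Matrix (Fin n) (Fin n) F) (D : ℕ)
    (Y : Fin m → Matrix (Fin D) (Fin D) F) :
    (tens (fun j => place (cl j) (Y j)) B).rank ≤ D ^ k * pcRank B cl := by
  simp only [place_eq]
  obtain ⟨t, Z, hZ⟩ := hR F n m (m + 1) k (slot cl) (Fin D) (fun _ => Fin.cons 1 Y) B
  rw [Fintype.card_fin] at hZ
  have hc : Fintype.card (Fin k × Fin t) = k * t := by
    rw [Fintype.card_prod, Fintype.card_fin, Fintype.card_fin]
  have h1 := (hG F (Fin k × Fin t) n m (fun j => pri fun i => Z i (slot cl i j)) B).1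
    (fun _ => 1) fun _ => 1
  rw [rank_big_one, rank_tens_pri] at h1
  obtain ⟨r, f, g, -, -, h2, h3⟩ := hM F (Fin k × Fin t) n m
    (fun j => pri fun i => Z i (slot cl i j)) B
  rw [h3, hc] at h1
  obtain ⟨X, -⟩ := exists_small r (m + 1)
  have h4 := hV F r m k X cl _ (hP2 F r m (m + 1) k t X (slot cl) Z _ h2)
  have h5 := le_pcRank B cl h4
  have h6 : 2 ^ (k * t) * (tens (fun j => prd fun i =>
      (Fin.cons 1 Y : Fin (m + 1) → Matrix (Fin D) (Fin D) F) (slot cl i j)) B).rank ≤
      2 ^ (k * t) * (D ^ k * pcRank B cl) := by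
    refine hZ.trans ?_
    calc D ^ k * (tens (fun j => prd fun i => (Z i (slot cl i j)).map fun z : ℤ => (z : F)) B).rank
        ≤ D ^ k * (2 ^ (k * t) * r) := Nat.mul_le_mul_left _ h1
      _ ≤ D ^ k * (2 ^ (k * t) * pcRank B cl) :=
          Nat.mul_le_mul_left _ (Nat.mul_le_mul_left _ h5)
      _ = _ := by ring
  exact Nat.le_of_mul_le_mul_left h6 (by positivity)

theorem card_tests (X : Data n (m + 1)) (cl : Fin m → Fin k) (S : Finset (Fin k)) :
    (tests X cl S).card ≤ (n * 2 ^ (k * X.t) + 1) ^ (2 * (S.card * X.t)) := by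
  classical
  let P : ({i : Fin k // i ∈ S} × Fin X.t → Fin (n * 2 ^ (k * X.t) + 1)) →
      Fin k × Fin X.t → ℤ := fun p i => if h : i.1 ∈ S then (p (⟨i.1, h⟩, i.2) : ℤ) else 1
  have h : tests X cl S ⊆ Finset.univ.image fun p :
      ({i : Fin k // i ∈ S} × Fin X.t → Fin (n * 2 ^ (k * X.t) + 1)) ×
      ({i : Fin k // i ∈ S} × Fin X.t → Fin (n * 2 ^ (k * X.t) + 1)) =>
      fun j => twist (P p.1) (P p.2) (ptup X cl j) := by
    intro Y hY
    obtain ⟨p, -, rfl⟩ := Finset.mem_image.mp hY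
    refine Finset.mem_image.mpr ⟨(fun i => p.1 (i.1.1, i.2), fun i => p.2 (i.1.1, i.2)),
      Finset.mem_univ _, ?_⟩
    have e : ∀ q : Fin k × Fin X.t → Fin (n * 2 ^ (k * X.t) + 1),
        P (fun i => q (i.1.1, i.2)) = par S q := by
      intro q
      funext i
      simp only [P, par]
      by_cases hi : i.1 ∈ S
      · rw [dif_pos hi, if_pos hi]
      · rw [dif_neg hi, if_neg hi]
    funext j
    simp only [e]
  refine (Finset.card_le_card h).trans (Finset.card_image_le.trans (le_of_eq ?_))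
  rw [Finset.card_univ, Fintype.card_prod, Fintype.card_fun, Fintype.card_fin, Fintype.card_prod,
    Fintype.card_coe, Fintype.card_fin, ← pow_add]
  congr 1
  ring

/-- parameters with bounds give a test -/
theorem mem_tests {X : Data n (m + 1)} {cl : Fin m → Fin k} {S : Finset (Fin k)}
    {c e : Fin k × Fin X.t → ℕ} (hc : ∀ i, c i ≤ n * 2 ^ (k * X.t))
    (he : ∀ i, e i ≤ n * 2 ^ (k * X.t)) :
    (fun j => twist (fun i => if i.1 ∈ S then (c i : ℤ) else 1)
      (fun i => if i.1 ∈ S then (e i : ℤ) else 1) (ptup X cl j)) ∈ tests X cl S :=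
  Finset.mem_image.mpr ⟨(fun i => ⟨c i, Nat.lt_succ_of_le (hc i)⟩,
    fun i => ⟨e i, Nat.lt_succ_of_le (he i)⟩), Finset.mem_univ _, rfl⟩

theorem rank_tests.{u} (hP1 : StPhase1.{u}) (hP2 : StPhase2.{u}) (hV : StConv.{u})
    (hM : StMinor.{u}) (hG : StRankGrid.{u}) (hT : StTorus.{u}) (hS : StSymRank.{u})
    {F : Type u} [Field F] [CharZero F]
    (X : Data n (m + 1)) (cl : Fin m → Fin k) (S : Finset (Fin k))
    (B : Fin m → Matrix (Fin n) (Fin n) F) (d : ℕ) (hd : d = 2 ^ (k * X.t)) :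
    (∀ Y ∈ tests X cl S, (tens (cst F Y) B).rank ≤ d * pcRank B cl) ∧
      ((∃ i, ∀ i' ≠ i, i' ∈ S) → ∃ Y ∈ tests X cl S,
        d * pcRank B cl < (tens (cst F Y) B).rank + d) ∧
      (S = Finset.univ → ∃ Y ∈ tests X cl S, (tens (cst F Y) B).rank = d * pcRank B cl) := by
  subst hd
  have h := gr_ptup hP1 hP2 hV hM hG X cl B
  have hc : Fintype.card (Fin k × Fin X.t) = k * X.t := by
    rw [Fintype.card_prod, Fintype.card_fin, Fintype.card_fin]
  obtain ⟨h1, c, e, hc', he', h2⟩ := hG F (Fin k × Fin X.t) n m (ptup X cl) B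
  rw [hc] at hc' he'
  have h3 : S = Finset.univ → ∃ Y ∈ tests X cl S,
      (tens (cst F Y) B).rank = 2 ^ (k * X.t) * pcRank B cl := by
    rintro rfl
    refine ⟨_, mem_tests hc' he', ?_⟩
    simp only [Finset.mem_univ, if_true]
    exact h2.trans h
  refine ⟨?_, ?_, h3⟩
  · intro Y hY
    obtain ⟨p, -, rfl⟩ := Finset.mem_image.mp hY
    rw [← h, ← big_eq]
    exact h1 _ _
  · rintro ⟨i₀, hi⟩
    have hd : 0 < 2 ^ (k * X.t) := by positivity
    by_cases hi₀ : i₀ ∈ S
    · have hS' : S = Finset.univ := by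
        rw [Finset.eq_univ_iff_forall]
        intro i
        by_cases h4 : i = i₀
        · rw [h4]
          exact hi₀
        · exact hi i h4
      obtain ⟨Y, hY, h4⟩ := h3 hS'
      exact ⟨Y, hY, by omega⟩
    · obtain ⟨f, g, h4⟩ := exists_sub B cl
      have hr := pcRank_le B cl
      obtain ⟨c, e, hc, he, h5⟩ := LastAux.exists_last hT hS (restrict X hr) cl _
        (gn_of_pc hP1 hP2 (restrict X hr) cl _ h4) S i₀ hi₀ hi
      have hle : pcRank B cl * 2 ^ (k * X.t) ≤ n * 2 ^ (k * X.t) := Nat.mul_le_mul_right _ hr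
      refine ⟨_, mem_tests (X := X) (S := S) (c := c) (e := e) (fun i => (hc i).trans hle)
        (fun i => (he i).trans hle), ?_⟩
      have h6 := rank_tens_sub (cst F fun j => twist (fun i => if i.1 ∈ S then (c i : ℤ) else 1)
        (fun i => if i.1 ∈ S then (e i : ℤ) else 1) (ptup X cl j)) B f g
      exact lt_of_lt_of_le h5 (Nat.add_le_add_right h6 _)

/-- one class: the noncommutative rank -/
theorem pcRank_one.{u} (hG : StRankGrid.{u}) (hH : StHier.{u}) (hM : StMinor.{u})
    {F : Type u} [Field F] [CharZero F] (cl : Fin m → Fin k) (hk : k = 1)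
    (B : Fin m → Matrix (Fin n) (Fin n) F) : pcRank B cl = ncRank B := by
  apply le_antisymm
  · -- a nonsingular submatrix gives a lower bound for the noncommutative rank
    obtain ⟨f, g, h1⟩ := exists_sub B cl
    obtain ⟨D, hD, Y, hY⟩ := ((hH F _ m k _ cl).2.2 hk).mp h1
    have h2 := Hit.rank_of_det_ne_zero _ hY
    have h3 := rank_tens_sub Y B f g
    have h4 := rank_tens_le Y B
    rw [h2, Fintype.card_prod, Fintype.card_fin, Fintype.card_fin] at h3
    rw [Fintype.card_fin] at h4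
    exact Nat.le_of_mul_le_mul_left (h3.trans h4) hD
  · obtain ⟨X, -⟩ := exists_small n m
    obtain ⟨r, f, g, -, -, h1, h2⟩ := hM F (Fin X.t) n m X.T B
    have h3 := (hG F (Fin X.t) n m X.T B).1 (fun _ => 1) fun _ => 1
    rw [rank_big_one, h2, Fintype.card_fin] at h3
    have h4 := (main X B _ _ rfl rfl).1.2
    have h5 : ncRank B < r + 1 := by
      by_contra h6
      rw [not_lt] at h6
      have h7 := Nat.mul_le_mul_left (2 ^ X.t) h6
      rw [Nat.mul_add, mul_one] at h7
      omega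
    have h6 : PcNonsing (fun j => (B j).submatrix f g) cl := by
      rw [(hH F _ m k _ cl).2.2 hk]
      obtain ⟨c, e, h7⟩ := h1
      let E := (Fintype.equivFin (Fin X.t → ZMod 2)).symm
      refine ⟨_, Fintype.card_pos, fun j => (tw c e (X.T j)).submatrix E E, ?_⟩
      rw [tens_reindex]
      have h8 : tens (fun j => tw c e (X.T j)) (fun j => (B j).submatrix f g) =
          big c e X.T fun j => (B j).submatrix f g := by
        ext p q
        rw [tens_apply]
        rfl
      rw [h8]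
      exact h7
    have := le_pcRank B cl h6
    omega

/-- the classes of one variable each: the commutative rank -/
theorem pcRank_inj.{u} (hH : StHier.{u})
    {F : Type u} [Field F] [CharZero F] (cl : Fin m → Fin k) (hcl : Function.Injective cl)
    (B : Fin m → Matrix (Fin n) (Fin n) F) :
    (∀ x : Fin m → F, (∑ j, x j • B j).rank ≤ pcRank B cl) ∧
      ∃ x : Fin m → F, (∑ j, x j • B j).rank = pcRank B cl := by
  have h1 : ∀ x : Fin m → F, (∑ j, x j • B j).rank ≤ pcRank B cl := by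
    intro x
    obtain ⟨f, g, hfg⟩ := exists_minor (∑ j, x j • B j)
    refine le_pcRank B cl (f := f) (g := g) ((hH F _ m k _ cl).1 ⟨x, ?_⟩)
    have e : (∑ j, x j • (B j).submatrix f g) = (∑ j, x j • B j).submatrix f g := by
      ext a b
      simp [Matrix.sum_apply]
    rw [e]
    exact hfg
  refine ⟨h1, ?_⟩
  obtain ⟨f, g, h2⟩ := exists_sub B cl
  obtain ⟨x, hx⟩ := (hH F _ m k _ cl).2.1 hcl h2
  refine ⟨x, le_antisymm (h1 x) ?_⟩
  have e : (∑ j, x j • (B j).submatrix f g) = (∑ j, x j • B j).submatrix f g := by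
    ext a b
    simp [Matrix.sum_apply]
  rw [e] at hx
  have h3 := Hit.rank_of_det_ne_zero _ hx
  rw [Fintype.card_fin] at h3
  rw [← h3]
  exact Matrix.rank_submatrix_le _ _ _

theorem pcRank_mono.{u} (hC : StCoarse.{u}) {F : Type u} [Field F] [CharZero F]
    (cl : Fin m → Fin k) (B : Fin m → Matrix (Fin n) (Fin n) F) {k' : ℕ} (π : Fin k → Fin k') :
    pcRank B cl ≤ pcRank B (π ∘ cl) := by
  obtain ⟨f, g, h⟩ := exists_sub B cl
  exact le_pcRank B _ (hC F _ m k k' _ cl π h)

end Main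

end MainAux

end Pool.Agent.Lib.MP_64d474_lc.Pc
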