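import Mathlib
import Pool.Agent.Lib.MP_64d474_lc.Pc.StmtsR
import Pool.Agent.Lib.MP_64d474_lc.Pc.Grid

/-!
# Partially commutative symbolic matrices: the rank of the generic twist

The rank of the generic twist is `2 ^ |I|` times the largest size of a submatrix with a
nonsingular twist (Schur complement).
-/

open Matrix Module MvPolynomial

set_option linter.unusedSectionVars false

namespace Pool.Agent.Lib.MP_64d474_lc.Pc

open Pool.Agent.Lib.MP_64d474_lc.Nc

namespace Minor

theorem rank_sub_le {K R C A B : Type*} [Field K] [Fintype R] [Fintype C] [Fintype A] [Fintype B]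
    (M : Matrix R C K) (f : A → R) (g : B → C) : (M.submatrix f g).rank ≤ M.rank := by
  classical
  have h : M.submatrix f g =
      (1 : Matrix R R K).submatrix f id * (M * (1 : Matrix C C K).submatrix id g) := by
    ext a b
    simp [Matrix.mul_apply, Matrix.one_apply]
  rw [h]
  exact (Matrix.rank_mul_le_right _ _).trans (Matrix.rank_mul_le_left _ _)

/-- a matrix with a nonsingular square submatrix `a` such that all square submatrices with one more
row and column are singular has rank the size of `a` -/
theorem schur {K R C A : Type*} [Field K] [Fintype R] [Fintype C] [Fintype A] [DecidableEq A]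
    (M : Matrix R C K) (φ : A → R) (ψ : A → C) (ha : (M.submatrix φ ψ).det ≠ 0)
    (h : ∀ x y, (M.submatrix (Sum.elim φ fun _ : Unit => x)
      (Sum.elim ψ fun _ : Unit => y)).det = 0) :
    M.rank = Fintype.card A := by
  classical
  set a := M.submatrix φ ψ with ha'
  have : Invertible a := a.invertibleOfIsUnitDet (isUnit_iff_ne_zero.mpr ha)
  have hM : M = M.submatrix id ψ * (⅟a * M.submatrix φ id) := by
    ext x y
    have h1 := h x y
    have h2 : M.submatrix (Sum.elim φ fun _ : Unit => x) (Sum.elim ψ fun _ : Unit => y) =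
        fromBlocks a (M.submatrix φ fun _ => y) (M.submatrix (fun _ => x) ψ)
          (M.submatrix (fun _ => x) fun _ => y) := by
      ext i j
      rcases i with i | i <;> rcases j with j | j <;> rfl
    rw [h2, det_fromBlocks₁₁] at h1
    have h3 := (mul_eq_zero.mp h1).resolve_left ha
    rw [Matrix.det_unique, Matrix.sub_apply, sub_eq_zero, Matrix.mul_assoc,
      Matrix.submatrix_apply] at h3
    rw [h3]
    rfl
  apply le_antisymm
  · rw [hM]
    exact (Matrix.rank_mul_le_left _ _).trans (Matrix.rank_le_card_width _)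
  · have h1 : a.rank = Fintype.card A :=
      Matrix.rank_of_isUnit a ((Matrix.isUnit_iff_isUnit_det a).mpr (isUnit_iff_ne_zero.mpr ha))
    rw [← h1]
    exact rank_sub_le M φ ψ

variable {I : Type*} [Fintype I] [DecidableEq I]

theorem big_sub {κ ι ι' R : Type*} [Fintype κ] [CommRing R] (c e : I → R)
    (T : κ → Matrix (I → ZMod 2) (I → ZMod 2) ℤ) (b : κ → Matrix ι ι R) (f g : ι' → ι) :
    big c e T (fun k => (b k).submatrix f g) =
      (big c e T b).submatrix (Prod.map id f) (Prod.map id g) := by
  ext p q
  rfl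

/-- the generic twist is nonsingular if some twist is nonsingular -/
theorem det_gen {F : Type*} [Field F] {n m : ℕ}
    (P : Fin m → Matrix (I → ZMod 2) (I → ZMod 2) ℤ) (B : Fin m → Matrix (Fin n) (Fin n) F)
    (h : GN P B) :
    (big (gc F) (ge F) P fun j => (B j).map (algebraMap F (FK I F))).det ≠ 0 := by
  obtain ⟨c, e, h⟩ := h
  have h1 := Grid.det_ne_zero P B h
  have h2 : algebraMap (MvPolynomial (I ⊕ I) F) (FK I F) (Grid.gen P B).det ≠ 0 := by
    rw [Ne, FaithfulSMul.algebraMap_eq_zero_iff]
    exact h1
  rw [RingHom.map_det, RingHom.mapMatrix_apply, Grid.gen, Grid.big_map] at h2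
  intro h3
  apply h2
  rw [← h3]
  congr 2

/-- in a nonsingular submatrix the rows and columns are different -/
theorem inj {F : Type*} [Field F] {n m r : ℕ}
    {P : Fin m → Matrix (I → ZMod 2) (I → ZMod 2) ℤ} {B : Fin m → Matrix (Fin n) (Fin n) F}
    {f g : Fin r → Fin n} (h : GN P fun j => (B j).submatrix f g) :
    Function.Injective f ∧ Function.Injective g := by
  obtain ⟨c, e, h⟩ := h
  rw [big_sub] at h
  constructor
  · intro a b hab
    by_contra hne
    apply h
    refine Matrix.det_zero_of_row_eq (i := (0, a)) (j := (0, b)) (fun h1 => hne ?_) ?_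
    · exact (Prod.mk.inj h1).2
    · ext q
      simp only [Matrix.submatrix_apply, Prod.map_apply, hab]
  · intro a b hab
    by_contra hne
    apply h
    refine Matrix.det_zero_of_column_eq (i := (0, a)) (j := (0, b)) (fun h1 => hne ?_) ?_
    · exact (Prod.mk.inj h1).2
    · intro q
      simp only [Matrix.submatrix_apply, Prod.map_apply, hab]

end Minor

open Minor in
/-- PC-MINOR -/
theorem stMinor.{u} (h : StCorank.{u}) : StMinor.{u} := by
  classical
  intro F _ _ I _ _ n m P B
  let p : ℕ → Prop := fun r => ∃ f g : Fin r → Fin n, GN P fun j => (B j).submatrix f g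
  have hp0 : p 0 := by
    refine ⟨Fin.elim0, Fin.elim0, 0, 0, ?_⟩
    rw [Matrix.det_isEmpty]
    exact one_ne_zero
  have hple : ∀ r, p r → r ≤ n := by
    rintro r ⟨f, g, hfg⟩
    have := Fintype.card_le_of_injective f (inj hfg).1
    simpa using this
  obtain ⟨r, ⟨f, g, hfg⟩, hmax⟩ : ∃ r, p r ∧ ¬ p (r + 1) := by
    refine ⟨Nat.findGreatest p n, Nat.findGreatest_spec (Nat.zero_le n) hp0, fun h1 => ?_⟩
    have := Nat.le_findGreatest (hple _ h1) h1
    omega
  refine ⟨r, f, g, (inj hfg).1, (inj hfg).2, hfg, ?_⟩
  set M := big (gc F) (ge F) P fun j => (B j).map (algebraMap F (FK I F)) with hM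
  have hcard : Fintype.card ((I → ZMod 2) × Fin r) = 2 ^ Fintype.card I * r := by
    rw [Fintype.card_prod, Fintype.card_fun, ZMod.card, Fintype.card_fin]
  rw [← hcard]
  refine schur M (Prod.map id f) (Prod.map id g) ?_ ?_
  · have h1 := det_gen P _ hfg
    rw [hM, ← big_sub]
    exact h1
  · rintro ⟨x, i⟩ ⟨y, j⟩
    by_contra hne
    have h1 : ¬ GN P fun k => (B k).submatrix (Fin.cons i f : Fin (r + 1) → Fin n)
        (Fin.cons j g : Fin (r + 1) → Fin n) := fun h2 => hmax ⟨_, _, h2⟩
    have h2 := h F I (r + 1) m P _ h1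
    have h3 : (big (gc F) (ge F) P fun k => ((B k).submatrix (Fin.cons i f : Fin (r + 1) → Fin n)
        (Fin.cons j g : Fin (r + 1) → Fin n)).map (algebraMap F (FK I F))) =
        M.submatrix (Prod.map id (Fin.cons i f : Fin (r + 1) → Fin n))
          (Prod.map id (Fin.cons j g : Fin (r + 1) → Fin n)) := by
      rw [hM, ← big_sub]
      rfl
    rw [h3] at h2
    set N := M.submatrix (Prod.map id (Fin.cons i f : Fin (r + 1) → Fin n))
          (Prod.map id (Fin.cons j g : Fin (r + 1) → Fin n)) with hN
    have h4 : M.submatrix (Sum.elim (Prod.map id f) fun _ : Unit => (x, i))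
        (Sum.elim (Prod.map id g) fun _ : Unit => (y, j)) =
        N.submatrix (Sum.elim (fun a : (I → ZMod 2) × Fin r => (a.1, a.2.succ))
          fun _ : Unit => (x, 0)) (Sum.elim (fun a : (I → ZMod 2) × Fin r => (a.1, a.2.succ))
          fun _ : Unit => (y, 0)) := by
      rw [hN, Matrix.submatrix_submatrix]
      congr 1
      · funext a
        rcases a with a | a <;> simp [Prod.map]
      · funext a
        rcases a with a | a <;> simp [Prod.map]
    have h5 := Matrix.rank_of_isUnit _ ((Matrix.isUnit_iff_isUnit_det _).mpr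
      (isUnit_iff_ne_zero.mpr hne))
    rw [h4] at h5
    have h6 := rank_sub_le N (Sum.elim (fun a : (I → ZMod 2) × Fin r => (a.1, a.2.succ))
          fun _ : Unit => (x, 0)) (Sum.elim (fun a : (I → ZMod 2) × Fin r => (a.1, a.2.succ))
          fun _ : Unit => (y, 0))
    rw [h5, Fintype.card_sum, hcard, Fintype.card_unit] at h6
    rw [Nat.mul_succ] at h2
    omega

end Pool.Agent.Lib.MP_64d474_lc.Pc
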