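import Pool.Agent.Lib.MP_64d474_lc.Pc.Stmts
import Pool.Agent.Lib.MP_64d474_lc.Nc.Mix
import Pool.Agent.Lib.MP_64d474_lc.Nc.Rank

/-!
# PC-MIX: mixing by signed translations over every field of characteristic zero
-/

set_option autoImplicit false
set_option linter.unusedSectionVars false

open Matrix Module Cardinal

namespace Pool.Agent.Lib.MP_64d474_lc.Pc

open Pool.Agent.Lib.MP_64d474_lc.Nc
open Pool.Agent.Lib.MP_64d474_lc.Op (Nonshrunk)

namespace MixF

section gen

variable {F : Type*} [Field F] {J : Type} [Fintype J] {n N : ℕ}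

/-- a matrix on `J`, acting on `J × Fin n` -/
def glif (M : Matrix J J F) : Matrix (J × Fin n) (J × Fin n) F :=
  Matrix.kroneckerMap (· * ·) M (1 : Matrix (Fin n) (Fin n) F)

/-- the matrix `L (M ⊗ 1) R` -/
def gbtw (L : Matrix (Fin N) (J × Fin n) F) (M : Matrix J J F)
    (R : Matrix (J × Fin n) (Fin N) F) : Matrix (Fin N) (Fin N) F :=
  L * (glif M : Matrix (J × Fin n) (J × Fin n) F) * R

theorem glif_map {F' : Type*} [Field F'] (φ : F →+* F') (M : Matrix J J F) :
    (glif M : Matrix (J × Fin n) (J × Fin n) F).map φ = glif (M.map φ) := by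
  ext p q
  simp only [glif, Matrix.map_apply, Matrix.kroneckerMap_apply, map_mul]
  congr 1
  rw [Matrix.one_apply, Matrix.one_apply]
  split_ifs <;> simp

theorem gbtw_map {F' : Type*} [Field F'] (φ : F →+* F') (L : Matrix (Fin N) (J × Fin n) F)
    (M : Matrix J J F) (R : Matrix (J × Fin n) (Fin N) F) :
    (gbtw L M R).map φ = gbtw (L.map φ) (M.map φ) (R.map φ) := by
  rw [gbtw, gbtw, Matrix.map_mul, Matrix.map_mul, glif_map]

theorem single_map {F' : Type*} [Field F'] [DecidableEq J] (φ : F →+* F') (i j : J) :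
    (Matrix.single i j (1 : F)).map φ = Matrix.single i j (1 : F') := by
  rw [Matrix.map_single, map_one]

theorem fwop_map {F' : Type*} [Field F'] (φ : F →+* F') {t : ℕ} (σ τ : Fin t → ZMod 2) :
    (fwop F σ τ).map φ = fwop F' σ τ := by
  ext x y
  simp [fwop]

/-- nonshrunk families may be reindexed -/
theorem nsh_iff {κ : Type} [Fintype κ] (B : κ → Matrix (Fin N) (Fin N) F) :
    (Nsh fun k => (B k).mulVecLin) ↔
      Nonshrunk fun i => B ((Fintype.equivFin κ).symm i) := by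
  have h : ∀ U : Submodule F (Fin N → F),
      img (fun k => (B k).mulVecLin) U =
        ⨆ i, U.map (B ((Fintype.equivFin κ).symm i)).mulVecLin := fun U =>
    ((Fintype.equivFin κ).symm.iSup_comp (g := fun k => U.map (B k).mulVecLin)).symm
  constructor
  · intro hB U
    rw [← h U]
    exact hB U
  · intro hB U
    rw [h U]
    exact hB U

end gen

section curry

variable {F : Type*} [Field F] {V : Type*} [AddCommGroup V] [Module F V] {J : Type} [Fintype J]
  [DecidableEq J] {n : ℕ}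

/-- currying, with a basis of `V` -/
noncomputable def cur (e : V ≃ₗ[F] (Fin n → F)) : (J × Fin n → F) ≃ₗ[F] (J → V) :=
  (LinearEquiv.curry F F J (Fin n)).trans (LinearEquiv.piCongrRight fun _ => e.symm)

theorem cur_apply (e : V ≃ₗ[F] (Fin n → F)) (f : J × Fin n → F) (j : J) :
    cur e f j = e.symm (fun a => f (j, a)) := rfl

theorem lif_mulVec (M : Matrix J J F) (f : J × Fin n → F) (j : J) (a : Fin n) :
    (glif M *ᵥ f) (j, a) = ∑ j', M j j' * f (j', a) := by
  rw [Matrix.mulVec, dotProduct, Fintype.sum_prod_type]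
  refine Finset.sum_congr rfl (fun j' _ => ?_)
  rw [Finset.sum_eq_single a]
  · simp [glif]
  · intro b _ hb
    simp [glif, Matrix.one_apply_ne (Ne.symm hb)]
  · intro h; exact absurd (Finset.mem_univ _) h

theorem cur_lif (e : V ≃ₗ[F] (Fin n → F)) (M : Matrix J J F) (f : J × Fin n → F) :
    cur e (glif M *ᵥ f) = act M (cur e f) := by
  ext j
  rw [Mix.act_apply, cur_apply]
  apply e.injective
  rw [LinearEquiv.apply_symm_apply, map_sum]
  ext a
  rw [lif_mulVec, Finset.sum_apply]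
  refine Finset.sum_congr rfl (fun j' _ => ?_)
  rw [map_smul, cur_apply, LinearEquiv.apply_symm_apply]
  rfl

theorem gbtw_mulVecLin {N : ℕ} (e : V ≃ₗ[F] (Fin n → F)) (f : (J → V) →ₗ[F] (Fin N → F))
    (g : (Fin N → F) →ₗ[F] (J → V)) (M : Matrix J J F) :
    (gbtw (LinearMap.toMatrix' (f ∘ₗ (cur e).toLinearMap)) M
      (LinearMap.toMatrix' ((cur e).symm.toLinearMap ∘ₗ g))).mulVecLin = f ∘ₗ act M ∘ₗ g := by
  refine LinearMap.ext (fun x => ?_)
  rw [gbtw, Matrix.mulVecLin_apply, ← Matrix.mulVec_mulVec, ← Matrix.mulVec_mulVec,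
    LinearMap.toMatrix'_mulVec, LinearMap.toMatrix'_mulVec]
  simp only [LinearMap.comp_apply, LinearEquiv.coe_coe]
  rw [cur_lif, LinearEquiv.apply_symm_apply]

end curry

/-- NC-CORE over every field of characteristic zero -/
theorem core.{u} {F : Type u} [Field F] [CharZero F] (t n N : ℕ) (S : Type) [Fintype S]
    [Nonempty S] (v : S → Fin t → ZMod 2) (δ : ℝ) (hv : Bias v δ) (hδ : 0 ≤ δ)
    (L : Matrix (Fin N) ((Fin t → ZMod 2) × Fin n) F)
    (R : Matrix ((Fin t → ZMod 2) × Fin n) (Fin N) F)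
    (hN : Nsh fun p : (Fin t → ZMod 2) × (Fin t → ZMod 2) =>
      (gbtw L (Matrix.single p.1 p.2 1) R).mulVecLin)
    (h0 : ∀ s s', gbtw L (fwop F (v s) (v s')) R = 0) :
    (N : ℝ) ≤ 2 * δ * n * 2 ^ t := by
  classical
  set E : Set F := (Set.range fun p : Fin N × ((Fin t → ZMod 2) × Fin n) => L p.1 p.2) ∪
    Set.range fun p : ((Fin t → ZMod 2) × Fin n) × Fin N => R p.1 p.2 with hE
  have hEf : E.Finite := (Set.finite_range _).union (Set.finite_range _)
  let F₀ : Subfield F := Subfield.closure E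
  have hcard : #F₀ ≤ ℵ₀ := by
    refine (Subfield.cardinalMk_closure_le_max E).trans (max_le ?_ le_rfl)
    exact hEf.countable.le_aleph0
  obtain ⟨σ⟩ := Pool.Agent.Lib.MP_64d474_lc.Op.Embed.exists_embed hcard
  have hLF : ∀ i j, L i j ∈ F₀ := fun i j => Subfield.subset_closure (Or.inl ⟨(i, j), rfl⟩)
  have hRF : ∀ i j, R i j ∈ F₀ := fun i j => Subfield.subset_closure (Or.inr ⟨(i, j), rfl⟩)
  let L₀ : Matrix (Fin N) ((Fin t → ZMod 2) × Fin n) F₀ := fun i j => ⟨L i j, hLF i j⟩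
  let R₀ : Matrix ((Fin t → ZMod 2) × Fin n) (Fin N) F₀ := fun i j => ⟨R i j, hRF i j⟩
  have hLm : L₀.map F₀.subtype = L := rfl
  have hRm : R₀.map F₀.subtype = R := rfl
  have hB₀ : Nonshrunk fun i => gbtw L₀ (Matrix.single
      ((Fintype.equivFin ((Fin t → ZMod 2) × (Fin t → ZMod 2))).symm i).1
      ((Fintype.equivFin ((Fin t → ZMod 2) × (Fin t → ZMod 2))).symm i).2 1) R₀ := by
    refine Pool.Agent.Lib.MP_64d474_lc.Op.Nonshrunk.descend F₀.subtype _ ?_
    have h := (nsh_iff fun p : (Fin t → ZMod 2) × (Fin t → ZMod 2) =>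
      gbtw L (Matrix.single p.1 p.2 1) R).mp hN
    simp only [gbtw_map, single_map]
    exact h
  have hBσ := Pool.Agent.Lib.MP_64d474_lc.Op.stBase' F₀ ℂ σ N _ _ hB₀
  refine stCore stErr stScale t n N S v δ hv hδ (L₀.map σ) (R₀.map σ) ?_ ?_
  · have h : Nsh fun p : (Fin t → ZMod 2) × (Fin t → ZMod 2) =>
        (gbtw (L₀.map σ) (Matrix.single p.1 p.2 1) (R₀.map σ)).mulVecLin := by
      refine (nsh_iff fun p : (Fin t → ZMod 2) × (Fin t → ZMod 2) =>
        gbtw (L₀.map σ) (Matrix.single p.1 p.2 1) (R₀.map σ)).mpr ?_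
      simp only [gbtw_map, single_map] at hBσ
      exact hBσ
    exact h
  · intro s s'
    have h1 : gbtw L₀ (fwop F₀ (v s) (v s')) R₀ = 0 := by
      have h2 : (gbtw L₀ (fwop F₀ (v s) (v s')) R₀).map F₀.subtype =
          (0 : Matrix (Fin N) (Fin N) F₀).map F₀.subtype := by
        rw [gbtw_map, fwop_map, hLm, hRm, h0, Matrix.map_zero _ (map_zero _)]
      exact Matrix.map_injective F₀.subtype.injective h2
    have h3 := congrArg (fun M : Matrix (Fin N) (Fin N) F₀ => M.map σ) h1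
    simp only [gbtw_map, fwop_map] at h3
    rw [Matrix.map_zero _ (map_zero _)] at h3
    exact h3

end MixF

open MixF in
theorem stMixF.{u} : StMixF.{u} := by
  intro F _ _ t S _ _ v δ hv hδ V _ _ _ U Y hUY
  obtain ⟨U0, r, L0, R0, hdim, hN⟩ := stComp.{u} F ((Fin t → ZMod 2) × (Fin t → ZMod 2)) U
    (((Fin t → ZMod 2) → V) ⧸ Y) (Mix.fam U Y)
  obtain ⟨V', hV'⟩ := Mix.count U Y U0 r hdim
  refine ⟨V', ?_⟩
  let e : V ≃ₗ[F] (Fin (finrank F V) → F) := (Module.finBasis F V).equivFun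
  have hr := core t (finrank F V) r S v δ hv hδ
    (LinearMap.toMatrix' ((L0 ∘ₗ Y.mkQ) ∘ₗ (cur e).toLinearMap))
    (LinearMap.toMatrix' ((cur e).symm.toLinearMap ∘ₗ (U.subtype ∘ₗ R0))) ?_ ?_
  · have hcard : Fintype.card (Fin t → ZMod 2) = 2 ^ t := by simp [ZMod.card]
    rw [hcard] at hV'
    have := (Nat.cast_le (α := ℝ)).mpr hV'
    push_cast at this
    linarith
  · have : (fun p : (Fin t → ZMod 2) × (Fin t → ZMod 2) =>
        (gbtw (LinearMap.toMatrix' ((L0 ∘ₗ Y.mkQ) ∘ₗ (cur e).toLinearMap))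
          (Matrix.single p.1 p.2 1)
        (LinearMap.toMatrix' ((cur e).symm.toLinearMap ∘ₗ (U.subtype ∘ₗ R0)))).mulVecLin) =
        fun k => L0 ∘ₗ Mix.fam U Y k ∘ₗ R0 := by
      funext p
      rw [gbtw_mulVecLin]
      rfl
    rw [this]
    exact hN
  · intro s s'
    apply Matrix.toLin'.injective
    rw [map_zero]
    change Matrix.mulVecLin _ = 0
    rw [gbtw_mulVecLin]
    refine LinearMap.ext (fun x => ?_)
    simp only [LinearMap.comp_apply, LinearMap.zero_apply]
    have hmem : act (fwop F (v s) (v s')) (U.subtype (R0 x)) ∈ Y :=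
      hUY s s' ⟨_, (R0 x).2, rfl⟩
    rw [(Submodule.Quotient.mk_eq_zero Y).mpr hmem |> fun h => (show Y.mkQ _ = 0 from h), map_zero]

end Pool.Agent.Lib.MP_64d474_lc.Pc
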