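import Mathlib
import Pool.Agent.Lib.MP_64d474_lc.Pc.Stmts

/-!
# PC-PHASE1: in all factors, an arbitrary tuple can be replaced by integer matrices
-/

open Matrix Module

set_option linter.unusedSectionVars false

namespace Pool.Agent.Lib.MP_64d474_lc.Pc

open Pool.Agent.Lib.MP_64d474_lc.Nc

namespace Phase1

variable {F : Type*} [Field F] {n m : ℕ}

theorem tens_apply {J : Type*} [Fintype J] (T : Fin m → Matrix J J F)
    (B : Fin m → Matrix (Fin n) (Fin n) F) (p q : J × Fin n) :
    tens T B p q = ∑ k, T k p.1 q.1 * B k p.2 q.2 := by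
  rw [tens, Matrix.sum_apply]
  rfl

/-- reindexing of the first factor -/
theorem det_reindex {G G' : Type*} [Fintype G] [Fintype G'] [DecidableEq G] [DecidableEq G']
    (e : G ≃ G') (T : Fin m → Matrix G G F) (T' : Fin m → Matrix G' G' F)
    (h : ∀ j x y, T' j (e x) (e y) = T j x y) (B : Fin m → Matrix (Fin n) (Fin n) F) :
    (tens T' B).det = (tens T B).det := by
  have h1 : tens T B = (tens T' B).submatrix (e.prodCongr (Equiv.refl (Fin n)))
      (e.prodCongr (Equiv.refl (Fin n))) := by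
    ext p q
    rw [tens_apply, Matrix.submatrix_apply, tens_apply]
    refine Finset.sum_congr rfl fun j _ => ?_
    rw [← h]
    rfl
  rw [h1, Matrix.det_submatrix_equiv_self]

/-- padding of the first factor -/
theorem det_pad {G C G' : Type*} [Fintype G] [Fintype C] [Fintype G'] [DecidableEq G]
    [DecidableEq C] [DecidableEq G'] (e : G × C ≃ G') (T : Fin m → Matrix G G F)
    (T' : Fin m → Matrix G' G' F)
    (h : ∀ j x c y d, T' j (e (x, c)) (e (y, d)) = if c = d then T j x y else 0)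
    (B : Fin m → Matrix (Fin n) (Fin n) F) (h0 : (tens T B).det ≠ 0) :
    (tens T' B).det ≠ 0 := by
  let e' : (G × Fin n) × C ≃ G' × Fin n :=
    (Equiv.prodAssoc G (Fin n) C).trans
      (((Equiv.refl G).prodCongr (Equiv.prodComm (Fin n) C)).trans
        ((Equiv.prodAssoc G C (Fin n)).symm.trans (e.prodCongr (Equiv.refl (Fin n)))))
  have he' : ∀ x a c, e' ((x, a), c) = (e (x, c), a) := fun _ _ _ => rfl
  have h1 : (tens T' B).submatrix e' e' =
      Matrix.kroneckerMap (· * ·) (tens T B) (1 : Matrix C C F) := by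
    ext p q
    obtain ⟨⟨x, a⟩, c⟩ := p
    obtain ⟨⟨y, b⟩, d⟩ := q
    rw [Matrix.submatrix_apply, he', he', tens_apply, Matrix.kroneckerMap_apply, tens_apply,
      Matrix.one_apply]
    simp only [h]
    split_ifs with hcd
    · rw [mul_one]
    · simp
  rw [← Matrix.det_submatrix_equiv_self e' (tens T' B), h1, Matrix.det_kronecker, Matrix.det_one,
    one_pow, mul_one]
  exact pow_ne_zero _ h0

/-- the matrix `Z ⊗ 1` -/
def padL {t₀ t' : ℕ} (Z : Matrix (Fin t₀ → ZMod 2) (Fin t₀ → ZMod 2) ℤ) :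
    Matrix (Fin (t₀ + t') → ZMod 2) (Fin (t₀ + t') → ZMod 2) ℤ := fun x y =>
  if (fun i => x (Fin.natAdd t₀ i)) = (fun i => y (Fin.natAdd t₀ i)) then
    Z (fun i => x (Fin.castAdd t' i)) (fun i => y (Fin.castAdd t' i)) else 0

/-- the matrix `1 ⊗ Z` -/
def padR {t₀ t' : ℕ} (Z : Matrix (Fin t' → ZMod 2) (Fin t' → ZMod 2) ℤ) :
    Matrix (Fin (t₀ + t') → ZMod 2) (Fin (t₀ + t') → ZMod 2) ℤ := fun x y =>
  if (fun i => x (Fin.castAdd t' i)) = (fun i => y (Fin.castAdd t' i)) then
    Z (fun i => x (Fin.natAdd t₀ i)) (fun i => y (Fin.natAdd t₀ i)) else 0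

theorem padL_append {t₀ t' : ℕ} (Z : Matrix (Fin t₀ → ZMod 2) (Fin t₀ → ZMod 2) ℤ)
    (a b : Fin t₀ → ZMod 2) (a' b' : Fin t' → ZMod 2) :
    padL Z (Fin.append a a') (Fin.append b b') = if a' = b' then Z a b else 0 := by
  unfold padL
  simp only [Fin.append_left, Fin.append_right]

theorem padR_append {t₀ t' : ℕ} (Z : Matrix (Fin t' → ZMod 2) (Fin t' → ZMod 2) ℤ)
    (a b : Fin t₀ → ZMod 2) (a' b' : Fin t' → ZMod 2) :
    padR Z (Fin.append a a') (Fin.append b b') = if a = b then Z a' b' else 0 := by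
  unfold padR
  simp only [Fin.append_left, Fin.append_right]

/-- the decomposition of the index set -/
def split (E : Type) (t₀ t' k : ℕ) :
    ((E × (Fin t₀ → ZMod 2)) × (Fin k → Fin t' → ZMod 2)) ×
      ((Fin t' → ZMod 2) × (Fin k → Fin t₀ → ZMod 2)) ≃
    E × (Fin (k + 1) → Fin (t₀ + t') → ZMod 2) where
  toFun p := (p.1.1.1, Fin.cons (Fin.append p.1.1.2 p.2.1)
    fun i => Fin.append (p.2.2 i) (p.1.2 i))
  invFun p := (((p.1, fun i => p.2 0 (Fin.castAdd t' i)),
      fun i a => p.2 i.succ (Fin.natAdd t₀ a)),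
    (fun i => p.2 0 (Fin.natAdd t₀ i), fun i a => p.2 i.succ (Fin.castAdd t' a)))
  left_inv p := by
    obtain ⟨⟨⟨x, a⟩, f'⟩, ⟨a', f⟩⟩ := p
    simp only [Fin.cons_zero, Fin.cons_succ, Fin.append_left, Fin.append_right]
  right_inv p := by
    obtain ⟨x, g⟩ := p
    refine Prod.ext rfl ?_
    funext i
    refine Fin.cases ?_ (fun i => ?_) i
    · simp only [Fin.cons_zero]
      funext a
      refine Fin.addCases (fun a => ?_) (fun a => ?_) a
      · rw [Fin.append_left]
      · rw [Fin.append_right]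
    · simp only [Fin.cons_succ]
      funext a
      refine Fin.addCases (fun a => ?_) (fun a => ?_) a
      · rw [Fin.append_left]
      · rw [Fin.append_right]

theorem split_apply (E : Type) (t₀ t' k : ℕ) (x : E) (a : Fin t₀ → ZMod 2)
    (f' : Fin k → Fin t' → ZMod 2) (a' : Fin t' → ZMod 2) (f : Fin k → Fin t₀ → ZMod 2) :
    split E t₀ t' k (((x, a), f'), (a', f)) =
      (x, Fin.cons (Fin.append a a') fun i => Fin.append (f i) (f' i)) := rfl

/-- the induction, with a context -/
theorem main.{u} (h : StPlain.{u}) (F : Type u) [Field F] [CharZero F] (n m r : ℕ)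
    (J : Type) [Fintype J] [DecidableEq J] [Nonempty J] (B : Fin m → Matrix (Fin n) (Fin n) F)
    (k : ℕ) : ∀ (E : Type) [Fintype E] [DecidableEq E] (P : Fin m → Matrix E E F)
      (σ : Fin k → Fin m → Fin r) (Y : Fin k → Fin r → Matrix J J F),
      (tens (fun j => kroneckerMap (· * ·) (P j) (prd fun i => Y i (σ i j))) B).det ≠ 0 →
      ∃ (t : ℕ) (Z : Fin k → Fin r → Matrix (Fin t → ZMod 2) (Fin t → ZMod 2) ℤ),
        (tens (fun j => kroneckerMap (· * ·) (P j)
          (prd fun i => (Z i (σ i j)).map fun z : ℤ => (z : F))) B).det ≠ 0 := by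
  induction k with
  | zero =>
    intro E _ _ P σ Y hY
    refine ⟨0, fun i => i.elim0, ?_⟩
    have h1 := det_reindex (F := F) (n := n)
      ((Equiv.refl E).prodCongr (Equiv.ofUnique (Fin 0 → J) (Fin 0 → Fin 0 → ZMod 2)))
      (fun j => kroneckerMap (· * ·) (P j) (prd fun i => Y i (σ i j)))
      (fun j => kroneckerMap (· * ·) (P j)
        (prd fun i => (((fun i => i.elim0 : Fin 0 → Fin r →
          Matrix (Fin 0 → ZMod 2) (Fin 0 → ZMod 2) ℤ) i (σ i j)).map fun z : ℤ => (z : F))))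
      (fun j x y => by
        obtain ⟨x, x'⟩ := x
        obtain ⟨y, y'⟩ := y
        simp only [Matrix.kroneckerMap_apply, prd]
        simp) B
    rw [h1]
    exact hY
  | succ k ih =>
    intro E _ _ P σ Y hY
    -- the first factor
    let e1 : (E × (Fin k → J)) × J ≃ E × (Fin (k + 1) → J) :=
      { toFun := fun p => (p.1.1, Fin.cons p.2 p.1.2)
        invFun := fun p => ((p.1, fun i => p.2 i.succ), p.2 0)
        left_inv := fun p => by
          obtain ⟨⟨x, f⟩, a⟩ := p
          simp only [Fin.cons_zero, Fin.cons_succ]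
        right_inv := fun p => by
          obtain ⟨x, g⟩ := p
          refine Prod.ext rfl ?_
          exact Fin.cons_self_tail g }
    have h1 := det_reindex (F := F) (n := n) e1
      (fun j => kroneckerMap (· * ·)
        (kroneckerMap (· * ·) (P j) (prd fun i => Y (Fin.succ i) (σ (Fin.succ i) j)))
        (Y 0 (σ 0 j)))
      (fun j => kroneckerMap (· * ·) (P j) (prd fun i => Y i (σ i j)))
      (fun j x y => by
        obtain ⟨⟨x, f⟩, a⟩ := x
        obtain ⟨⟨y, g⟩, b⟩ := y
        change P j x y * (∏ i, Y i (σ i j) ((Fin.cons a f : Fin (k + 1) → J) i)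
            ((Fin.cons b g : Fin (k + 1) → J) i)) =
          P j x y * (∏ i, Y (Fin.succ i) (σ (Fin.succ i) j) (f i) (g i)) * Y 0 (σ 0 j) a b
        rw [Fin.prod_univ_succ]
        simp only [Fin.cons_zero, Fin.cons_succ]
        ring) B
    rw [h1] at hY
    obtain ⟨t₀, Z₀, hZ₀⟩ := h F n m r (E × (Fin k → J)) J
      (fun j => kroneckerMap (· * ·) (P j) (prd fun i => Y (Fin.succ i) (σ (Fin.succ i) j)))
      (σ 0) (Y 0) B hY
    -- the other factors
    let e2 : (E × (Fin t₀ → ZMod 2)) × (Fin k → J) ≃ (E × (Fin k → J)) × (Fin t₀ → ZMod 2) :=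
      { toFun := fun p => ((p.1.1, p.2), p.1.2)
        invFun := fun p => ((p.1.1, p.2), p.1.2)
        left_inv := fun _ => rfl
        right_inv := fun _ => rfl }
    have h2 := det_reindex (F := F) (n := n) e2
      (fun j => kroneckerMap (· * ·)
        (kroneckerMap (· * ·) (P j) ((Z₀ (σ 0 j)).map fun z : ℤ => (z : F)))
        (prd fun i => Y (Fin.succ i) (σ (Fin.succ i) j)))
      (fun j => kroneckerMap (· * ·)
        (kroneckerMap (· * ·) (P j) (prd fun i => Y (Fin.succ i) (σ (Fin.succ i) j)))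
        ((Z₀ (σ 0 j)).map fun z : ℤ => (z : F)))
      (fun j x y => by
        obtain ⟨⟨x, a⟩, f⟩ := x
        obtain ⟨⟨y, b⟩, g⟩ := y
        change P j x y * (∏ i, Y (Fin.succ i) (σ (Fin.succ i) j) (f i) (g i)) *
            ((Z₀ (σ 0 j) a b : ℤ) : F) =
          P j x y * ((Z₀ (σ 0 j) a b : ℤ) : F) *
            (∏ i, Y (Fin.succ i) (σ (Fin.succ i) j) (f i) (g i))
        ring) B
    rw [h2] at hZ₀
    obtain ⟨t', Z', hZ'⟩ := ih (E × (Fin t₀ → ZMod 2))
      (fun j => kroneckerMap (· * ·) (P j) ((Z₀ (σ 0 j)).map fun z : ℤ => (z : F)))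
      (fun i => σ (Fin.succ i)) (fun i => Y (Fin.succ i)) hZ₀
    refine ⟨t₀ + t', Fin.cons (fun s => padL (Z₀ s)) fun i s => padR (Z' i s), ?_⟩
    refine det_pad (split E t₀ t' k) _ _ (fun j x c y d => ?_) B hZ'
    obtain ⟨⟨x, a⟩, f'⟩ := x
    obtain ⟨a', f⟩ := c
    obtain ⟨⟨y, b⟩, g'⟩ := y
    obtain ⟨b', g⟩ := d
    rw [split_apply, split_apply]
    simp only [Matrix.kroneckerMap_apply, prd, Matrix.map_apply]
    rw [Fin.prod_univ_succ]
    simp only [Fin.cons_zero, Fin.cons_succ, padL_append, padR_append, Prod.mk.injEq]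
    by_cases ha : a' = b'
    · by_cases hf : f = g
      · subst hf
        rw [if_pos ha, if_pos ⟨ha, rfl⟩]
        simp only [if_true]
        ring
      · obtain ⟨i, hi⟩ := Function.ne_iff.1 hf
        rw [if_neg (show ¬ (a' = b' ∧ f = g) from fun hh => hf hh.2)]
        have h3 : ∏ i, (((if f i = g i then Z' i (σ (Fin.succ i) j) (f' i) (g' i) else 0 : ℤ)) : F) =
            0 := Finset.prod_eq_zero (Finset.mem_univ i) (by rw [if_neg hi, Int.cast_zero])
        rw [h3, mul_zero, mul_zero]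
    · rw [if_neg ha, if_neg (show ¬ (a' = b' ∧ f = g) from fun hh => ha hh.1), Int.cast_zero,
        zero_mul, mul_zero]

end Phase1

theorem stPhase1.{u} (h : StPlain.{u}) : StPhase1.{u} := by
  intro F _ _ n m r k σ J _ _ _ Y B hY
  have h1 := Phase1.det_reindex (F := F) (n := n) (Equiv.punitProd (Fin k → J)).symm
    (fun j => prd fun i => Y i (σ i j))
    (fun j => kroneckerMap (· * ·) (1 : Matrix PUnit.{1} PUnit.{1} F)
      (prd fun i => Y i (σ i j)))
    (fun j x y => by
      change (1 : Matrix PUnit.{1} PUnit.{1} F) PUnit.unit PUnit.unit *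
        (prd fun i => Y i (σ i j)) x y = _
      rw [Matrix.one_apply_eq, one_mul]) B
  rw [← h1] at hY
  obtain ⟨t, Z, hZ⟩ := Phase1.main h F n m r J B k PUnit.{1} (fun _ => 1) σ Y hY
  refine ⟨t, Z, ?_⟩
  have h2 := Phase1.det_reindex (F := F) (n := n)
    (Equiv.punitProd (Fin k → Fin t → ZMod 2)).symm
    (fun j => prd fun i => (Z i (σ i j)).map fun z : ℤ => (z : F))
    (fun j => kroneckerMap (· * ·) (1 : Matrix PUnit.{1} PUnit.{1} F)
      (prd fun i => (Z i (σ i j)).map fun z : ℤ => (z : F)))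
    (fun j x y => by
      change (1 : Matrix PUnit.{1} PUnit.{1} F) PUnit.unit PUnit.unit *
        (prd fun i => (Z i (σ i j)).map fun z : ℤ => (z : F)) x y = _
      rw [Matrix.one_apply_eq, one_mul]) B
  rw [← h2]
  exact hZ

end Pool.Agent.Lib.MP_64d474_lc.Pc
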