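import Mathlib
import Pool.Agent.Lib.MP_64d474_lc.Pc.StmtsR
import Pool.Agent.Lib.MP_64d474_lc.Pc.Phase1

/-!
# PC-PHASE1R: in all factors, an arbitrary tuple can be replaced by integer matrices, for ranks
-/

open Matrix Module

set_option linter.unusedSectionVars false

namespace Pool.Agent.Lib.MP_64d474_lc.Pc

open Pool.Agent.Lib.MP_64d474_lc.Nc

namespace Phase1R

section Kron

variable {F : Type*} [Field F] {A C : Type*} [Fintype A] [Fintype C] [DecidableEq C]

/-- exchange of the variables of a vector -/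
def swp (F A C : Type*) [Field F] : (A × C → F) ≃ₗ[F] (C → A → F) where
  toFun x := fun c a => x (a, c)
  invFun y := fun p => y p.2 p.1
  map_add' _ _ := rfl
  map_smul' _ _ := rfl
  left_inv _ := rfl
  right_inv _ := rfl

theorem swp_apply (x : A × C → F) (c : C) (a : A) : swp F A C x c a = x (a, c) := rfl

theorem kron_one_mulVec (M : Matrix A A F) (x : A × C → F) (c : C) :
    swp F A C ((Matrix.kroneckerMap (· * ·) M (1 : Matrix C C F)) *ᵥ x) c =
      M *ᵥ (swp F A C x c) := by
  funext a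
  rw [swp_apply, Matrix.mulVec, dotProduct, Matrix.mulVec, dotProduct, Fintype.sum_prod_type]
  refine Finset.sum_congr rfl fun b _ => ?_
  rw [Finset.sum_eq_single c]
  · rw [Matrix.kroneckerMap_apply, Matrix.one_apply_eq, mul_one, swp_apply]
  · intro d _ hd
    rw [Matrix.kroneckerMap_apply, Matrix.one_apply_ne (Ne.symm hd), mul_zero, zero_mul]
  · intro h
    exact absurd (Finset.mem_univ c) h

theorem rank_kron_one (M : Matrix A A F) :
    (Matrix.kroneckerMap (· * ·) M (1 : Matrix C C F)).rank = Fintype.card C * M.rank := by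
  have h1 : (LinearMap.range
      (Matrix.kroneckerMap (· * ·) M (1 : Matrix C C F)).mulVecLin).map
        (swp F A C).toLinearMap = pw C (LinearMap.range M.mulVecLin) := by
    ext y
    rw [Submodule.mem_map, mem_pw]
    constructor
    · rintro ⟨_, ⟨x, rfl⟩, rfl⟩ c
      refine ⟨swp F A C x c, ?_⟩
      exact (kron_one_mulVec M x c).symm
    · intro h
      choose z hz using h
      refine ⟨_, ⟨(swp F A C).symm z, rfl⟩, ?_⟩
      funext c
      have h2 := kron_one_mulVec (C := C) M ((swp F A C).symm z) c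
      rw [LinearEquiv.apply_symm_apply] at h2
      exact h2.trans (hz c)
  have h2 : finrank F ((LinearMap.range
      (Matrix.kroneckerMap (· * ·) M (1 : Matrix C C F)).mulVecLin).map
        (swp F A C).toLinearMap) = finrank F (pw C (LinearMap.range M.mulVecLin)) := by
    rw [h1]
  rw [finrank_pw, LinearEquiv.finrank_map_eq] at h2
  exact h2

end Kron

variable {F : Type*} [Field F] {n m : ℕ}

/-- reindexing of the first factor -/
theorem rank_reindex {G G' : Type*} [Fintype G] [Fintype G'] [DecidableEq G] [DecidableEq G']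
    (e : G ≃ G') (T : Fin m → Matrix G G F) (T' : Fin m → Matrix G' G' F)
    (h : ∀ j x y, T' j (e x) (e y) = T j x y) (B : Fin m → Matrix (Fin n) (Fin n) F) :
    (tens T' B).rank = (tens T B).rank := by
  have h1 : tens T B = (tens T' B).submatrix (e.prodCongr (Equiv.refl (Fin n)))
      (e.prodCongr (Equiv.refl (Fin n))) := by
    ext p q
    rw [Phase1.tens_apply, Matrix.submatrix_apply, Phase1.tens_apply]
    refine Finset.sum_congr rfl fun j _ => ?_
    rw [← h]
    rfl
  rw [h1, Matrix.rank_submatrix]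

/-- padding of the first factor -/
theorem rank_pad {G C G' : Type*} [Fintype G] [Fintype C] [Fintype G'] [DecidableEq G]
    [DecidableEq C] [DecidableEq G'] (e : G × C ≃ G') (T : Fin m → Matrix G G F)
    (T' : Fin m → Matrix G' G' F)
    (h : ∀ j x c y d, T' j (e (x, c)) (e (y, d)) = if c = d then T j x y else 0)
    (B : Fin m → Matrix (Fin n) (Fin n) F) :
    (tens T' B).rank = Fintype.card C * (tens T B).rank := by
  let e' : (G × Fin n) × C ≃ G' × Fin n :=
    (Equiv.prodAssoc G (Fin n) C).trans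
      (((Equiv.refl G).prodCongr (Equiv.prodComm (Fin n) C)).trans
        ((Equiv.prodAssoc G C (Fin n)).symm.trans (e.prodCongr (Equiv.refl (Fin n)))))
  have he' : ∀ x a c, e' ((x, a), c) = (e (x, c), a) := fun _ _ _ => rfl
  have h1 : (tens T' B).submatrix e' e' =
      Matrix.kroneckerMap (· * ·) (tens T B) (1 : Matrix C C F) := by
    ext p q
    obtain ⟨⟨x, a⟩, c⟩ := p
    obtain ⟨⟨y, b⟩, d⟩ := q
    rw [Matrix.submatrix_apply, he', he', Phase1.tens_apply, Matrix.kroneckerMap_apply,
      Phase1.tens_apply, Matrix.one_apply]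
    simp only [h]
    split_ifs with hcd
    · rw [mul_one]
    · simp
  rw [← rank_kron_one (C := C) (tens T B), ← h1, Matrix.rank_submatrix]

theorem arith (t₀ t' k r₀ r₁ r₂ j : ℕ) (h1 : 2 ^ t₀ * r₀ ≤ j * r₁)
    (h2 : 2 ^ (k * t') * r₁ ≤ j ^ k * r₂) :
    2 ^ ((k + 1) * (t₀ + t')) * r₀ ≤ j ^ (k + 1) * (2 ^ t' * (2 ^ t₀) ^ k * r₂) := by
  have h3 : 2 ^ ((k + 1) * (t₀ + t')) * r₀ =
      2 ^ t' * (2 ^ t₀) ^ k * (2 ^ (k * t') * (2 ^ t₀ * r₀)) := by
    have h4 : (k + 1) * (t₀ + t') = t' + t₀ * k + (k * t' + t₀) := by ring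
    rw [h4, pow_add, pow_add, pow_add, pow_mul 2 t₀ k]
    ring
  rw [h3]
  calc 2 ^ t' * (2 ^ t₀) ^ k * (2 ^ (k * t') * (2 ^ t₀ * r₀))
      ≤ 2 ^ t' * (2 ^ t₀) ^ k * (2 ^ (k * t') * (j * r₁)) := by gcongr
    _ = 2 ^ t' * (2 ^ t₀) ^ k * j * (2 ^ (k * t') * r₁) := by ring
    _ ≤ 2 ^ t' * (2 ^ t₀) ^ k * j * (j ^ k * r₂) := by gcongr
    _ = j ^ (k + 1) * (2 ^ t' * (2 ^ t₀) ^ k * r₂) := by ring

/-- the induction, with a context -/
theorem main.{u} (h : StPlainR.{u}) (F : Type u) [Field F] [CharZero F] (n m r : ℕ)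
    (J : Type) [Fintype J] [DecidableEq J] (B : Fin m → Matrix (Fin n) (Fin n) F)
    (k : ℕ) : ∀ (E : Type) [Fintype E] [DecidableEq E] (P : Fin m → Matrix E E F)
      (σ : Fin k → Fin m → Fin r) (Y : Fin k → Fin r → Matrix J J F),
      ∃ (t : ℕ) (Z : Fin k → Fin r → Matrix (Fin t → ZMod 2) (Fin t → ZMod 2) ℤ),
        2 ^ (k * t) *
            (tens (fun j => kroneckerMap (· * ·) (P j) (prd fun i => Y i (σ i j))) B).rank ≤
          Fintype.card J ^ k * (tens (fun j => kroneckerMap (· * ·) (P j)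
            (prd fun i => (Z i (σ i j)).map fun z : ℤ => (z : F))) B).rank := by
  induction k with
  | zero =>
    intro E _ _ P σ Y
    refine ⟨0, fun i => i.elim0, ?_⟩
    have h1 := rank_reindex (F := F) (n := n)
      ((Equiv.refl E).prodCongr (Equiv.ofUnique (Fin 0 → J) (Fin 0 → Fin 0 → ZMod 2)))
      (fun j => kroneckerMap (· * ·) (P j) (prd fun i => Y i (σ i j)))
      (fun j => kroneckerMap (· * ·) (P j)
        (prd fun i => (((fun i => i.elim0 : Fin 0 → Fin r →
          Matrix (Fin 0 → ZMod 2) (Fin 0 → ZMod 2) ℤ) i (σ i j)).map fun z : ℤ => (z : F))))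
      (fun j x y => by
        obtain ⟨x, x'⟩ := x
        obtain ⟨y, y'⟩ := y
        simp only [Matrix.kroneckerMap_apply, prd]
        simp) B
    rw [h1]
    simp only [zero_mul, pow_zero, one_mul]
    exact le_refl _
  | succ k ih =>
    intro E _ _ P σ Y
    -- the first factor
    let e1 : (E × (Fin k → J)) × J ≃ E × (Fin (k + 1) → J) :=
      { toFun := fun p => (p.1.1, Fin.cons p.2 p.1.2)
        invFun := fun p => ((p.1, fun i => p.2 i.succ), p.2 0)
        left_inv := fun p => by
          obtain ⟨⟨x, f⟩, a⟩ := p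
          simp only [Fin.cons_zero, Fin.cons_succ]
        right_inv := fun p => by
          obtain ⟨x, g⟩ := p
          refine Prod.ext rfl ?_
          exact Fin.cons_self_tail g }
    have h1 := rank_reindex (F := F) (n := n) e1
      (fun j => kroneckerMap (· * ·)
        (kroneckerMap (· * ·) (P j) (prd fun i => Y (Fin.succ i) (σ (Fin.succ i) j)))
        (Y 0 (σ 0 j)))
      (fun j => kroneckerMap (· * ·) (P j) (prd fun i => Y i (σ i j)))
      (fun j x y => by
        obtain ⟨⟨x, f⟩, a⟩ := x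
        obtain ⟨⟨y, g⟩, b⟩ := y
        change P j x y * (∏ i, Y i (σ i j) ((Fin.cons a f : Fin (k + 1) → J) i)
            ((Fin.cons b g : Fin (k + 1) → J) i)) =
          P j x y * (∏ i, Y (Fin.succ i) (σ (Fin.succ i) j) (f i) (g i)) * Y 0 (σ 0 j) a b
        rw [Fin.prod_univ_succ]
        simp only [Fin.cons_zero, Fin.cons_succ]
        ring) B
    rw [h1]
    obtain ⟨t₀, Z₀, hZ₀⟩ := h F n m r (E × (Fin k → J)) J
      (fun j => kroneckerMap (· * ·) (P j) (prd fun i => Y (Fin.succ i) (σ (Fin.succ i) j)))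
      (σ 0) (Y 0) B
    -- the other factors
    let e2 : (E × (Fin t₀ → ZMod 2)) × (Fin k → J) ≃ (E × (Fin k → J)) × (Fin t₀ → ZMod 2) :=
      { toFun := fun p => ((p.1.1, p.2), p.1.2)
        invFun := fun p => ((p.1.1, p.2), p.1.2)
        left_inv := fun _ => rfl
        right_inv := fun _ => rfl }
    have h2 := rank_reindex (F := F) (n := n) e2
      (fun j => kroneckerMap (· * ·)
        (kroneckerMap (· * ·) (P j) ((Z₀ (σ 0 j)).map fun z : ℤ => (z : F)))
        (prd fun i => Y (Fin.succ i) (σ (Fin.succ i) j)))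
      (fun j => kroneckerMap (· * ·)
        (kroneckerMap (· * ·) (P j) (prd fun i => Y (Fin.succ i) (σ (Fin.succ i) j)))
        ((Z₀ (σ 0 j)).map fun z : ℤ => (z : F)))
      (fun j x y => by
        obtain ⟨⟨x, a⟩, f⟩ := x
        obtain ⟨⟨y, b⟩, g⟩ := y
        change P j x y * (∏ i, Y (Fin.succ i) (σ (Fin.succ i) j) (f i) (g i)) *
            ((Z₀ (σ 0 j) a b : ℤ) : F) =
          P j x y * ((Z₀ (σ 0 j) a b : ℤ) : F) *
            (∏ i, Y (Fin.succ i) (σ (Fin.succ i) j) (f i) (g i))
        ring) B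
    rw [h2] at hZ₀
    obtain ⟨t', Z', hZ'⟩ := ih (E × (Fin t₀ → ZMod 2))
      (fun j => kroneckerMap (· * ·) (P j) ((Z₀ (σ 0 j)).map fun z : ℤ => (z : F)))
      (fun i => σ (Fin.succ i)) (fun i => Y (Fin.succ i))
    refine ⟨t₀ + t', Fin.cons (fun s => Phase1.padL (Z₀ s)) fun i s => Phase1.padR (Z' i s), ?_⟩
    have h4 := rank_pad (F := F) (n := n) (Phase1.split E t₀ t' k)
      (fun j => kroneckerMap (· * ·)
        (kroneckerMap (· * ·) (P j) ((Z₀ (σ 0 j)).map fun z : ℤ => (z : F)))
        (prd fun i => (Z' i (σ (Fin.succ i) j)).map fun z : ℤ => (z : F)))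
      (fun j => kroneckerMap (· * ·) (P j)
        (prd fun i => ((Fin.cons (fun s => Phase1.padL (Z₀ s)) fun i s => Phase1.padR (Z' i s) :
          Fin (k + 1) → Fin r → Matrix (Fin (t₀ + t') → ZMod 2) (Fin (t₀ + t') → ZMod 2) ℤ) i
            (σ i j)).map fun z : ℤ => (z : F)))
      (fun j x c y d => by
        obtain ⟨⟨x, a⟩, f'⟩ := x
        obtain ⟨a', f⟩ := c
        obtain ⟨⟨y, b⟩, g'⟩ := y
        obtain ⟨b', g⟩ := d
        rw [Phase1.split_apply, Phase1.split_apply]
        simp only [Matrix.kroneckerMap_apply, prd, Matrix.map_apply]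
        rw [Fin.prod_univ_succ]
        simp only [Fin.cons_zero, Fin.cons_succ, Phase1.padL_append, Phase1.padR_append,
          Prod.mk.injEq]
        by_cases ha : a' = b'
        · by_cases hf : f = g
          · subst hf
            rw [if_pos ha, if_pos ⟨ha, rfl⟩]
            simp only [if_true]
            ring
          · obtain ⟨i, hi⟩ := Function.ne_iff.1 hf
            rw [if_neg (show ¬ (a' = b' ∧ f = g) from fun hh => hf hh.2)]
            have h3 : ∏ i, (((if f i = g i then Z' i (σ (Fin.succ i) j) (f' i) (g' i)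
                else 0 : ℤ)) : F) = 0 :=
              Finset.prod_eq_zero (Finset.mem_univ i) (by rw [if_neg hi, Int.cast_zero])
            rw [h3, mul_zero, mul_zero]
        · rw [if_neg ha, if_neg (show ¬ (a' = b' ∧ f = g) from fun hh => ha hh.1), Int.cast_zero,
            zero_mul, mul_zero]) B
    rw [h4]
    have h5 : Fintype.card ((Fin t' → ZMod 2) × (Fin k → Fin t₀ → ZMod 2)) =
        2 ^ t' * (2 ^ t₀) ^ k := by
      rw [Fintype.card_prod, Fintype.card_fun, Fintype.card_fun, Fintype.card_fun, ZMod.card,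
        Fintype.card_fin, Fintype.card_fin, Fintype.card_fin]
    rw [h5]
    exact arith t₀ t' k _ _ _ _ hZ₀ hZ'

end Phase1R

theorem stPhase1R.{u} (h : StPlainR.{u}) : StPhase1R.{u} := by
  intro F _ _ n m r k σ J _ _ Y B
  have h1 := Phase1R.rank_reindex (F := F) (n := n) (Equiv.punitProd (Fin k → J)).symm
    (fun j => prd fun i => Y i (σ i j))
    (fun j => kroneckerMap (· * ·) (1 : Matrix PUnit.{1} PUnit.{1} F)
      (prd fun i => Y i (σ i j)))
    (fun j x y => by
      change (1 : Matrix PUnit.{1} PUnit.{1} F) PUnit.unit PUnit.unit *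
        (prd fun i => Y i (σ i j)) x y = _
      rw [Matrix.one_apply_eq, one_mul]) B
  obtain ⟨t, Z, hZ⟩ := Phase1R.main h F n m r J B k PUnit.{1} (fun _ => 1) σ Y
  refine ⟨t, Z, ?_⟩
  have h2 := Phase1R.rank_reindex (F := F) (n := n)
    (Equiv.punitProd (Fin k → Fin t → ZMod 2)).symm
    (fun j => prd fun i => (Z i (σ i j)).map fun z : ℤ => (z : F))
    (fun j => kroneckerMap (· * ·) (1 : Matrix PUnit.{1} PUnit.{1} F)
      (prd fun i => (Z i (σ i j)).map fun z : ℤ => (z : F)))
    (fun j x y => by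
      change (1 : Matrix PUnit.{1} PUnit.{1} F) PUnit.unit PUnit.unit *
        (prd fun i => (Z i (σ i j)).map fun z : ℤ => (z : F)) x y = _
      rw [Matrix.one_apply_eq, one_mul]) B
  rw [← h1, ← h2]
  exact hZ

end Pool.Agent.Lib.MP_64d474_lc.Pc
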