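import Pool.Agent.Lib.MP_64d474_lc.Pc.Stmts
import Pool.Agent.Lib.MP_64d474_lc.Nc.Main

/-!
# PC-PLAIN: in one factor, an arbitrary tuple can be replaced by a tuple of integer matrices
-/

open Matrix Module

set_option linter.unusedSectionVars false

namespace Pool.Agent.Lib.MP_64d474_lc.Pc

open Pool.Agent.Lib.MP_64d474_lc.Nc

namespace Plain

variable {F : Type*} [Field F] {n m r : ℕ} {E : Type} [Fintype E] [DecidableEq E]

/-- the matrices `∑_{σ j = κ} P_j ⊗ B_j` -/
noncomputable def fam (P : Fin m → Matrix E E F) (σ : Fin m → Fin r)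
    (B : Fin m → Matrix (Fin n) (Fin n) F) (κ : Fin r) :
    Matrix (Fin (Fintype.card (E × Fin n))) (Fin (Fintype.card (E × Fin n))) F :=
  fun x y => ∑ j with σ j = κ,
    P j ((Fintype.equivFin (E × Fin n)).symm x).1 ((Fintype.equivFin (E × Fin n)).symm y).1 *
      B j ((Fintype.equivFin (E × Fin n)).symm x).2 ((Fintype.equivFin (E × Fin n)).symm y).2

/-- the reindexing -/
noncomputable def psi (E : Type) [Fintype E] (n : ℕ) (J : Type*) :
    (E × J) × Fin n ≃ J × Fin (Fintype.card (E × Fin n)) where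
  toFun x := (x.1.2, Fintype.equivFin (E × Fin n) (x.1.1, x.2))
  invFun y := ((((Fintype.equivFin (E × Fin n)).symm y.2).1, y.1),
    ((Fintype.equivFin (E × Fin n)).symm y.2).2)
  left_inv x := by simp
  right_inv y := by simp

theorem det_eq {J : Type*} [Fintype J] [DecidableEq J] (P : Fin m → Matrix E E F)
    (σ : Fin m → Fin r) (B : Fin m → Matrix (Fin n) (Fin n) F) (Z : Fin r → Matrix J J F) :
    (tens (fun j => kroneckerMap (· * ·) (P j) (Z (σ j))) B).det = (tens Z (fam P σ B)).det := by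
  have h1 : tens (fun j => kroneckerMap (· * ·) (P j) (Z (σ j))) B =
      (tens Z (fam P σ B)).submatrix (psi E n J) (psi E n J) := by
    ext ⟨⟨x, y⟩, a⟩ ⟨⟨x', y'⟩, a'⟩
    rw [tens_apply, Matrix.submatrix_apply, tens_apply,
      ← Finset.sum_fiberwise Finset.univ σ]
    refine Finset.sum_congr rfl fun κ _ => ?_
    simp only [fam, psi, Equiv.coe_fn_mk, Equiv.symm_apply_apply, kroneckerMap_apply]
    rw [Finset.mul_sum]
    refine Finset.sum_congr rfl fun j hj => ?_
    rw [(Finset.mem_filter.1 hj).2]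
    ring
  rw [h1, Matrix.det_submatrix_equiv_self]

end Plain

theorem stPlain.{u} : StPlain.{u} := by
  intro F _ _ n m r E J _ _ _ _ _ P σ Y B h
  rw [Plain.det_eq] at h
  have hnc : NcNonsing (Plain.fam P σ B) := by
    refine ⟨Fintype.card J, Fintype.card_pos,
      fun k => (Y k).submatrix (Fintype.equivFin J).symm (Fintype.equivFin J).symm, ?_⟩
    rw [tens_reindex]
    exact h
  obtain ⟨X, -⟩ := exists_small (Fintype.card (E × Fin n)) r
  have h2 := ((main X (Plain.fam P σ B) _ _ rfl rfl).2.2.out 1 3).1 hnc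
  obtain ⟨Z, -, hZ⟩ := h2
  refine ⟨X.t, Z, ?_⟩
  rw [Plain.det_eq P σ B fun k => (Z k).map fun z : ℤ => (z : F)]
  exact hZ

end Pool.Agent.Lib.MP_64d474_lc.Pc
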