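import Pool.Agent.Lib.MP_64d474_lc.Pc.StmtsR
import Pool.Agent.Lib.MP_64d474_lc.Pc.Plain

/-!
# PC-PLAINR: in one factor, an arbitrary tuple can be replaced by a tuple of integer matrices,
without loss in the normalised rank
-/

open Matrix Module

set_option linter.unusedSectionVars false

namespace Pool.Agent.Lib.MP_64d474_lc.Pc

open Pool.Agent.Lib.MP_64d474_lc.Op (ncRank)
open Pool.Agent.Lib.MP_64d474_lc.Nc

namespace PlainR

open Plain

theorem rank_eq {F : Type*} [Field F] {n m r : ℕ} {E : Type} [Fintype E] [DecidableEq E]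
    {J : Type*} [Fintype J] [DecidableEq J] (P : Fin m → Matrix E E F)
    (σ : Fin m → Fin r) (B : Fin m → Matrix (Fin n) (Fin n) F) (Z : Fin r → Matrix J J F) :
    (tens (fun j => kroneckerMap (· * ·) (P j) (Z (σ j))) B).rank = (tens Z (fam P σ B)).rank := by
  have h1 : tens (fun j => kroneckerMap (· * ·) (P j) (Z (σ j))) B =
      (tens Z (fam P σ B)).submatrix (psi E n J) (psi E n J) := by
    ext ⟨⟨x, y⟩, a⟩ ⟨⟨x', y'⟩, a'⟩
    rw [tens_apply, Matrix.submatrix_apply, tens_apply,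
      ← Finset.sum_fiberwise Finset.univ σ]
    refine Finset.sum_congr rfl fun κ _ => ?_
    simp only [fam, psi, Equiv.coe_fn_mk, Equiv.symm_apply_apply, kroneckerMap_apply]
    rw [Finset.mul_sum]
    refine Finset.sum_congr rfl fun j hj => ?_
    rw [(Finset.mem_filter.1 hj).2]
    ring
  rw [h1, Matrix.rank_submatrix]

/-- the twist with all parameters equal to one -/
theorem big_one {F : Type*} [Field F] {t N r : ℕ}
    (T : Fin r → Matrix (Fin t → ZMod 2) (Fin t → ZMod 2) ℤ)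
    (A : Fin r → Matrix (Fin N) (Fin N) F) :
    big (fun _ => (1 : F)) (fun _ => 1) T A = (2 : F) ^ t • tens (cst F T) A := by
  ext p q
  rw [Matrix.smul_apply, big, tens_apply, smul_eq_mul, Finset.mul_sum]
  refine Finset.sum_congr rfl fun k _ => ?_
  have h1 : tw (fun _ => (1 : F)) (fun _ => 1) (T k) p.1 q.1 =
      2 ^ t * ((T k p.1 q.1 : ℤ) : F) := Hit.tw_one (T k) p.1 q.1
  rw [h1, mul_assoc]
  rfl

theorem rank_smul {F : Type*} [Field F] {α : Type*} [Fintype α] [DecidableEq α] {c : F}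
    (hc : c ≠ 0) (M : Matrix α α F) : (c • M).rank = M.rank := by
  refine le_antisymm ?_ ?_
  · have h1 : c • M = (c • (1 : Matrix α α F)) * M := by rw [Matrix.smul_mul, Matrix.one_mul]
    rw [h1]
    exact Matrix.rank_mul_le_right _ _
  · have h1 : M = (c⁻¹ • (1 : Matrix α α F)) * (c • M) := by
      rw [Matrix.smul_mul, Matrix.one_mul, smul_smul, inv_mul_cancel₀ hc, one_smul]
    conv_lhs => rw [h1]
    exact Matrix.rank_mul_le_right _ _

end PlainR

/-- PC-PLAINR -/
theorem stPlainR.{u} (hm : StMinor.{u}) (hg : StRankGrid.{u}) : StPlainR.{u} := by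
  intro F _ _ n m r E J _ _ _ _ P σ Y B
  set A := Plain.fam P σ B with hA
  obtain ⟨X, -⟩ := exists_small (Fintype.card (E × Fin n)) r
  have hd := X.isData
  have h1 := (rank_tower hd.add₁ hd.inj₁ hd.add₂ hd.inj₂ hd.inj hd.steps hd.card_ge A).1
  have h1' : 2 ^ X.t * ncRank A < (tens (cst F X.T) A).rank + 2 ^ X.t := h1
  obtain ⟨r', f, g, -, -, -, h2⟩ := hm F (Fin X.t) _ _ X.T A
  obtain ⟨h3, c, e, -, -, h4⟩ := hg F (Fin X.t) _ _ X.T A
  rw [Fintype.card_fin] at h2
  have h5 := h3 (fun _ => 1) (fun _ => 1)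
  have h20 : (2 : F) ^ X.t ≠ 0 := pow_ne_zero _ two_ne_zero
  rw [PlainR.big_one, PlainR.rank_smul h20, h2] at h5
  have h6 : ncRank A ≤ r' := by
    have h7 : 2 ^ X.t * ncRank A < 2 ^ X.t * (r' + 1) := by
      rw [Nat.mul_add, Nat.mul_one]
      omega
    have h8 := lt_of_mul_lt_mul_left h7 (Nat.zero_le _)
    omega
  refine ⟨X.t, fun j => twist (fun i => (c i : ℤ)) (fun i => (e i : ℤ)) (X.T j), ?_⟩
  have h9 := rank_tens_le Y A
  rw [PlainR.rank_eq, PlainR.rank_eq P σ B fun k =>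
    (twist (fun i => (c i : ℤ)) (fun i => (e i : ℤ)) (X.T k)).map fun z : ℤ => (z : F)]
  rw [← hA]
  have h10 : (tens (fun k =>
      (twist (fun i => (c i : ℤ)) (fun i => (e i : ℤ)) (X.T k)).map fun z : ℤ => (z : F)) A).rank =
        2 ^ X.t * r' := by
    rw [← h2, ← h4]
    rfl
  rw [h10]
  calc 2 ^ X.t * (tens Y A).rank ≤ 2 ^ X.t * (Fintype.card J * ncRank A) :=
        Nat.mul_le_mul_left _ h9
    _ ≤ 2 ^ X.t * (Fintype.card J * r') :=
        Nat.mul_le_mul_left _ (Nat.mul_le_mul_left _ h6)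
    _ = _ := by ring

end Pool.Agent.Lib.MP_64d474_lc.Pc
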