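import Mathlib
import Pool.Agent.Lib.MP_64d474_lc.Pc.StmtsR
import Pool.Agent.Lib.MP_64d474_lc.Pc.Grid
import Pool.Agent.Lib.MP_64d474_lc.Nc.Hit

/-!
# The rank of the generic twist is attained on the grid
-/

open Matrix Module MvPolynomial

set_option linter.unusedSectionVars false

namespace Pool.Agent.Lib.MP_64d474_lc.Pc

open Pool.Agent.Lib.MP_64d474_lc.Nc

namespace RankGrid

open Grid

variable {I : Type*} [Fintype I] [DecidableEq I] {κ ι : Type*} [Fintype κ] {F : Type*} [Field F]
  (T : κ → Matrix (I → ZMod 2) (I → ZMod 2) ℤ) (B : κ → Matrix ι ι F)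

theorem gen_map_alg : (gen T B).map (algebraMap (MvPolynomial (I ⊕ I) F) (FK I F)) =
    big (gc F) (ge F) T fun j => (B j).map (algebraMap F (FK I F)) := by
  rw [gen, big_map]
  rfl

/-- a nonvanishing minor of the generic twist of size equal to its rank -/
theorem exists_minor_gen [Fintype ι] [DecidableEq ι] :
    ∃ (r : ℕ) (a b : Fin r → (I → ZMod 2) × ι), ((gen T B).submatrix a b).det ≠ 0 ∧
      (big (gc F) (ge F) T fun j => (B j).map (algebraMap F (FK I F))).rank = r := by
  obtain ⟨a, b, hab⟩ := exists_minor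
    ((gen T B).map (algebraMap (MvPolynomial (I ⊕ I) F) (FK I F)))
  refine ⟨_, a, b, ?_, by rw [gen_map_alg]⟩
  intro h
  apply hab
  have : (((gen T B).map (algebraMap (MvPolynomial (I ⊕ I) F) (FK I F))).submatrix a b).det =
      algebraMap (MvPolynomial (I ⊕ I) F) (FK I F) (((gen T B).submatrix a b).det) := by
    rw [RingHom.map_det]
    rfl
  rw [this, h, map_zero]

end RankGrid

open Grid RankGrid in
/-- PC-RANKGRID -/
theorem stRankGrid.{u} : StRankGrid.{u} := by
  classical
  intro F _ _ I _ _ n m P B
  have hcard : Fintype.card ((I → ZMod 2) × Fin n) = n * 2 ^ Fintype.card I := by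
    rw [Fintype.card_prod, Fintype.card_fun, ZMod.card, Fintype.card_fin, mul_comm]
  have hle : ∀ c e : I → F, (big c e P B).rank ≤
      (big (gc F) (ge F) P fun j => (B j).map (algebraMap F (FK I F))).rank := by
    intro c e
    have h := Hit.rank_specialise (K := FK I F) (eval (Sum.elim c e)) (gen P B)
    rw [gen_eval, gen_map_alg] at h
    exact h
  refine ⟨hle, ?_⟩
  obtain ⟨r, a, b, hab, hr⟩ := exists_minor_gen P B
  have hrn : r ≤ n * 2 ^ Fintype.card I := by
    rw [← hcard, ← hr]
    exact Matrix.rank_le_card_width _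
  by_contra hcon
  apply hab
  refine eq_zero_of_eval_zero_at_prod_finset _
    (fun _ => (Finset.range (n * 2 ^ Fintype.card I + 1)).image fun i : ℕ => (i : F)) ?_ ?_
  · intro j
    rw [Finset.card_image_of_injective _ Nat.cast_injective, Finset.card_range]
    have h1 := degreeOf_det j ((gen P B).submatrix a b) fun p q => degreeOf_gen P B j (a p) (b q)
    rw [Fintype.card_fin] at h1
    omega
  · intro x hx
    have hx' : ∀ i, ∃ a : ℕ, a ≤ n * 2 ^ Fintype.card I ∧ (a : F) = x i := by
      intro i
      obtain ⟨a, ha, hax⟩ := Finset.mem_image.mp (hx i)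
      exact ⟨a, by have := Finset.mem_range.mp ha; omega, hax⟩
    choose d hd hdx using hx'
    by_contra h1
    apply hcon
    refine ⟨fun i => d (Sum.inl i), fun i => d (Sum.inr i), fun i => hd _, fun i => hd _, ?_⟩
    rw [← big_eq_tens]
    have h2 : (fun i : I => (((d (Sum.inl i) : ℕ) : ℤ) : F)) = fun i => x (Sum.inl i) := by
      ext1 i
      rw [← hdx]
      push_cast
      rfl
    have h3 : (fun i : I => (((d (Sum.inr i) : ℕ) : ℤ) : F)) = fun i => x (Sum.inr i) := by
      ext1 i
      rw [← hdx]
      push_cast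
      rfl
    rw [h2, h3]
    refine le_antisymm (hle _ _) ?_
    rw [hr]
    have h4 : eval x (((gen P B).submatrix a b).det) =
        ((big (fun i => x (Sum.inl i)) (fun i => x (Sum.inr i)) P B).submatrix a b).det := by
      rw [← gen_eval, RingHom.map_det]
      rfl
    rw [h4] at h1
    have h5 := Hit.rank_of_det_ne_zero _ h1
    rw [Fintype.card_fin] at h5
    rw [← h5]
    exact Matrix.rank_submatrix_le _ a b

end Pool.Agent.Lib.MP_64d474_lc.Pc
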