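import Mathlib
import Pool.Agent.Lib.MP_64d474_lc.Pc.Stmts
import Pool.Agent.Lib.MP_64d474_lc.Nc.Tower

/-!
PC-SYMRANK: chains of stable subspaces.
-/

open Matrix Module

set_option linter.unusedSectionVars false

namespace Pool.Agent.Lib.MP_64d474_lc.Pc

open Pool.Agent.Lib.MP_64d474_lc.Nc

namespace SymAux

section Gen

variable {F V W κ J : Type*} [Field F] [AddCommGroup V] [Module F V] [FiniteDimensional F V]
  [AddCommGroup W] [Module F W] [FiniteDimensional F W] [Fintype κ] [Fintype J]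
  (P : Submodule F V → Prop) (B : κ → V →ₗ[F] W) (T : κ → Matrix J J F)

/-- all chains of subspaces with the property `P` have potential at most `β` times the size -/
def BdP (β : ℝ) : Prop :=
  ∀ (G : ℕ) (c : ℕ → Submodule F V), Antitone c → c G = ⊥ → (∀ g, P (c g)) →
    ((∑ g ∈ Finset.range G, gap B T (c g) (c (g + 1)) : ℤ) : ℝ) ≤ β * Fintype.card J

variable {P B T}

theorem weave_prop {c v : ℕ → Submodule F V} (h1 : ∀ g, P (c g)) (h2 : ∀ g, P (v g)) (i : ℕ) :
    P (weave c v i) := by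
  rcases Nat.even_or_odd' i with ⟨g, rfl | rfl⟩
  · rw [weave_even]
    exact h1 g
  · rw [weave_odd]
    exact h2 g

theorem sum_term {β : ℝ} (h : BdP P B T β) {G : ℕ} {c v : ℕ → Submodule F V} (hG : c G = ⊥)
    (h1 : ∀ g, c (g + 1) ≤ v g) (h2 : ∀ g, v g ≤ c g) (hc : ∀ g, P (c g)) (hv : ∀ g, P (v g)) :
    2 * ((∑ g ∈ Finset.range G, gap B T (c g) (c (g + 1)) : ℤ) : ℝ) - β * Fintype.card J ≤
      ((∑ g ∈ Finset.range G, term B T (c g) (c (g + 1)) (v g) : ℤ) : ℝ) := by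
  have h3 := h (2 * G) (weave c v) (weave_antitone h1 h2) (by rw [weave_even]; exact hG)
    (weave_prop hc hv)
  rw [sum_weave (gap B T)] at h3
  have h4 : ∑ g ∈ Finset.range G, term B T (c g) (c (g + 1)) (v g) =
      2 * ∑ g ∈ Finset.range G, gap B T (c g) (c (g + 1)) -
        ∑ g ∈ Finset.range G, (gap B T (c g) (v g) + gap B T (v g) (c (g + 1))) := by
    rw [Finset.mul_sum, ← Finset.sum_sub_distrib]
    refine Finset.sum_congr rfl fun g _ => ?_
    rw [term_eq B T (h1 g) (h2 g)]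
    ring
  rw [h4]
  push_cast at h3 ⊢
  linarith

/-- the phase -/
theorem bd_dbl {Ω : Type*} [Fintype Ω] [DecidableEq Ω] {A : Ω → κ → Matrix J J F} {β ℓ lam : ℝ}
    (h : BdP P B T β) (hℓ : 0 ≤ ℓ) (hlam : ℓ * finrank F V ≤ lam * Fintype.card J)
    (hlev : ∀ U U' : Submodule F V, P U → P U' → U' ≤ U → ∃ V' : Submodule F V, P V' ∧ U' ≤ V' ∧
      V' ≤ U ∧
      (Fintype.card Ω : ℝ) * (term B T U U' V' : ℤ) ≤ 3 * (∑ ω, crk B T (A ω) U U' : ℕ) +
        Fintype.card Ω * (ℓ * ((finrank F U : ℝ) - finrank F U'))) :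
    BdP P B (Nc.dbl T A) ((5 * β + lam) / 6) := by
  intro G c hc hG hP
  have hlev' : ∀ g, ∃ V' : Submodule F V, P V' ∧ c (g + 1) ≤ V' ∧ V' ≤ c g ∧
      (Fintype.card Ω : ℝ) * (term B T (c g) (c (g + 1)) V' : ℤ) ≤
        3 * (∑ ω, crk B T (A ω) (c g) (c (g + 1)) : ℕ) +
        Fintype.card Ω * (ℓ * ((finrank F (c g) : ℝ) - finrank F (c (g + 1)))) := fun g =>
    hlev _ _ (hP _) (hP _) (hc (Nat.le_succ g))
  choose v hv0 hv1 hv2 hv3 using hlev'
  have h1 := sum_term h hG hv1 hv2 hP hv0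
  have h2 := h G c hc hG hP
  set Φ : ℝ := ((∑ g ∈ Finset.range G, gap B T (c g) (c (g + 1)) : ℤ) : ℝ) with hΦ
  set R : ℝ := ((∑ g ∈ Finset.range G, ∑ ω, crk B T (A ω) (c g) (c (g + 1)) : ℕ) : ℝ) with hR
  have h3 : ((∑ g ∈ Finset.range G, gap B (Nc.dbl T A) (c g) (c (g + 1)) : ℤ) : ℝ) ≤
      2 * Fintype.card Ω * Φ - R := by
    have h4 : ∑ g ∈ Finset.range G, gap B (Nc.dbl T A) (c g) (c (g + 1)) ≤
        ∑ g ∈ Finset.range G, (2 * Fintype.card Ω * gap B T (c g) (c (g + 1)) -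
          ∑ ω, (crk B T (A ω) (c g) (c (g + 1)) : ℤ)) :=
      Finset.sum_le_sum fun g _ => gap_dbl B T A _ _
    rw [Finset.sum_sub_distrib, ← Finset.mul_sum] at h4
    have h5 : ((∑ g ∈ Finset.range G, gap B (Nc.dbl T A) (c g) (c (g + 1)) : ℤ) : ℝ) ≤
        ((2 * Fintype.card Ω * ∑ g ∈ Finset.range G, gap B T (c g) (c (g + 1)) -
          ∑ g ∈ Finset.range G, ∑ ω, (crk B T (A ω) (c g) (c (g + 1)) : ℤ) : ℤ) : ℝ) := by
      exact_mod_cast h4
    refine h5.trans (le_of_eq ?_)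
    rw [hΦ, hR]
    push_cast
    ring
  have h4 : (Fintype.card Ω : ℝ) * ((∑ g ∈ Finset.range G,
      term B T (c g) (c (g + 1)) (v g) : ℤ) : ℝ) ≤ 3 * R +
      Fintype.card Ω * (ℓ * finrank F V) := by
    have h5 : (Fintype.card Ω : ℝ) * ((∑ g ∈ Finset.range G,
        term B T (c g) (c (g + 1)) (v g) : ℤ) : ℝ) ≤ ∑ g ∈ Finset.range G,
        (3 * ((∑ ω, crk B T (A ω) (c g) (c (g + 1)) : ℕ) : ℝ) +
        Fintype.card Ω * (ℓ * ((finrank F (c g) : ℝ) - finrank F (c (g + 1))))) := by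
      push_cast
      rw [Finset.mul_sum]
      refine Finset.sum_le_sum fun g _ => ?_
      have := hv3 g
      push_cast at this
      exact this
    refine h5.trans ?_
    rw [Finset.sum_add_distrib, ← Finset.mul_sum, ← Finset.mul_sum, ← Finset.mul_sum,
      Finset.sum_range_sub', hG, finrank_bot, hR]
    have h6 : (finrank F (c 0) : ℝ) ≤ finrank F V := by
      exact_mod_cast Submodule.finrank_le _
    have h7 : (0 : ℝ) ≤ Fintype.card Ω := Nat.cast_nonneg _
    push_cast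
    have h8 : ℓ * ((finrank F (c 0) : ℝ) - 0) ≤ ℓ * finrank F V := by
      rw [sub_zero]
      exact mul_le_mul_of_nonneg_left h6 hℓ
    have h9 := mul_le_mul_of_nonneg_left h8 h7
    linarith
  have h5 : (0 : ℝ) ≤ Fintype.card Ω := Nat.cast_nonneg _
  have h6 := mul_le_mul_of_nonneg_left h1 h5
  have h7 := mul_le_mul_of_nonneg_left h2 h5
  have h8 := mul_le_mul_of_nonneg_left hlam h5
  refine h3.trans ?_
  rw [Fintype.card_prod, Fintype.card_prod, Fintype.card_bool, Nat.cast_mul, Nat.cast_mul,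
    Nat.cast_ofNat]
  nlinarith

theorem bd_reindex {J' : Type*} [Fintype J'] (e : J' ≃ J) {β : ℝ} (h : BdP P B T β) :
    BdP P B (fun k => (T k).submatrix e e) β := by
  intro G c hc hG hP
  have h1 := h G c hc hG hP
  rw [Fintype.card_congr e]
  simp only [gap_reindex]
  exact h1

theorem bd_mono {β β' : ℝ} (h : BdP P B T β) (hβ : β ≤ β') : BdP P B T β' := fun G c hc hG hP =>
  (h G c hc hG hP).trans (mul_le_mul_of_nonneg_right hβ (Nat.cast_nonneg _))

theorem of_bd {β : ℝ} (h : Bd B T β) : BdP P B T β := fun G c hc hG _ => h G c hc hG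

theorem rank_of_bd (ht : P ⊤) (hb : P ⊥) {β : ℝ} (h : BdP P B T β) :
    (Fintype.card J : ℝ) * finrank F V - β * Fintype.card J ≤
      finrank F (LinearMap.range (ev B T)) := by
  have h1 := h 1 (fun g => if g = 0 then ⊤ else ⊥) (by
    refine antitone_nat_of_succ_le fun g => ?_
    simp) (by simp) (by
    intro g
    split_ifs
    · exact ht
    · exact hb)
  rw [Finset.sum_range_one] at h1
  simp only [if_true, zero_add, one_ne_zero, if_false] at h1
  have h2 : tgt B T ⊤ ⊥ = LinearMap.range (ev B T) := by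
    have h3 : pw J (⊤ : Submodule F V) = ⊤ := by
      rw [eq_top_iff]
      exact fun x _ => mem_pw.mpr fun j => Submodule.mem_top
    rw [tgt, img_bot, pw_bot, sup_bot_eq, h3, Submodule.map_top]
  rw [gap, h2, finrank_top] at h1
  push_cast at h1
  linarith

theorem cst_dbl (K : Type*) [Field K] {m : ℕ} {J Ω : Type} [DecidableEq Ω]
    (T : Fin m → Matrix J J ℤ) (A : Ω → Fin m → Matrix J J ℤ) :
    cst K (Nc.dbl T A) = Nc.dbl (cst K T) fun ω => cst K (A ω) := by
  funext k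
  ext x y
  simp only [cst, Nc.dbl, Matrix.map_apply]
  split_ifs <;> simp

end Gen

end SymAux

open SymAux in
theorem stSymRank.{u} (hL : StLevel.{u}) : StSymRank.{u} := by
  classical
  intro K₁ K₂ _ _ _ _ _ l₁ l₂ m n L φ₁ φ₂ α hD K V _ _ _ _ _ B hB Γ hΓ q hq hmul hV
  obtain ⟨hφ₁, hi₁, hφ₂, hi₂, hα, hK, hsteps⟩ := hD
  have hq' : (0 : ℝ) < q := by exact_mod_cast hq
  have hKpos : (0 : ℝ) < Fintype.card K₁ := by exact_mod_cast Fintype.card_pos
  have key : ∀ L' : ℕ, L' ≤ L → BdP (Stable Γ) B (cst K (tower φ₁ φ₂ α L'))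
      ((5 / 6) ^ L' * finrank K V + q / 2) := by
    intro L' hL'
    induction L' with
    | zero =>
      have h1 : cst K (tower φ₁ φ₂ α 0) = 0 := by
        funext k
        ext x y
        simp [cst, tower]
      rw [h1, pow_zero, one_mul]
      have : Unique (Fin ((l₂ + l₂ + 1) * 0) → ZMod 2) :=
        { default := fun i => i.elim0
          uniq := fun f => funext fun i => i.elim0 }
      exact of_bd (Nc.bd_mono (Nc.bd_zero (J := Fin ((l₂ + l₂ + 1) * 0) → ZMod 2) B hB)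
        (by linarith))
    | succ L' ih =>
      have ih' := ih (by omega)
      have hb := stBias K₁ l₁ φ₁ hφ₁ hi₁ ((l₂ + l₂ + 1) * L')
      set δ : ℝ := (((l₂ + l₂ + 1) * L' : ℕ) : ℝ) / Fintype.card K₁ with hδdef
      have hδ : 0 ≤ δ := by positivity
      have hm := stMom K₂ _ l₂ φ₂ α hφ₂ hi₂ hα
      have hδ' : (m + 1) * (2 * δ * (finrank K V : ℝ)) / q * finrank K V ≤ q / 2 := by
        have h1 : ((4 * (m + 1) * ((l₂ + l₂ + 1) * L) * n ^ 2 : ℕ) : ℝ) ≤ Fintype.card K₁ := by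
          exact_mod_cast hK
        have h2 : (((l₂ + l₂ + 1) * L' : ℕ) : ℝ) ≤ ((l₂ + l₂ + 1) * L : ℕ) := by
          exact_mod_cast Nat.mul_le_mul_left _ (by omega)
        have h3 : (4 * (m + 1) * (((l₂ + l₂ + 1) * L' : ℕ) : ℝ) * n ^ 2) ≤ Fintype.card K₁ := by
          push_cast at h1 h2 ⊢
          refine le_trans ?_ h1
          gcongr
        rw [hV, hδdef]
        push_cast at h3 ⊢
        rw [div_mul_eq_mul_div, div_le_div_iff₀ hq' (by norm_num)]
        have h4 : ((m : ℝ) + 1) * (2 * (((l₂ : ℝ) + l₂ + 1) * L' / Fintype.card K₁) *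
            ((n : ℝ) * q)) * ((n : ℝ) * q) * 2 =
            (4 * (m + 1) * (((l₂ : ℝ) + l₂ + 1) * L') * n ^ 2) / Fintype.card K₁ * (q * q) := by
          field_simp
          ring
        rw [h4]
        have h5 : (4 * ((m : ℝ) + 1) * (((l₂ : ℝ) + l₂ + 1) * L') * n ^ 2) / Fintype.card K₁ ≤ 1 := by
          rw [div_le_one hKpos]
          exact h3
        have h6 := mul_le_mul_of_nonneg_right h5 (mul_nonneg hq'.le hq'.le)
        linarith
      have h3 : BdP (Stable Γ) B (Nc.dbl (cst K (tower φ₁ φ₂ α L'))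
          (fun ω => cst K (iprt (bvec φ₁ ((l₂ + l₂ + 1) * L')) (svec φ₂ α) ω)))
          ((5 * ((5 / 6) ^ L' * finrank K V + q / 2) + q / 2) / 6) := by
        refine SymAux.bd_dbl (ℓ := (m + 1) * (2 * δ * finrank K V *
          2 ^ ((l₂ + l₂ + 1) * L')) / q) ih' (by positivity) ?_ fun U U' hU hU' hUU => ?_
        · rw [Fintype.card_fun, ZMod.card, Fintype.card_fin]
          push_cast
          have h4 : (0 : ℝ) ≤ 2 ^ ((l₂ + l₂ + 1) * L') := by positivity
          have h5 := mul_le_mul_of_nonneg_right hδ' h4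
          refine le_trans (le_of_eq ?_) h5
          ring
        · exact hL K V ((l₂ + l₂ + 1) * L') m _ _ (bvec φ₁ ((l₂ + l₂ + 1) * L')) δ hb hδ
            (svec φ₂ α) hm B Γ hΓ q hq hmul _ U U' hU hU' hUU
      have h4 : cst K (tower φ₁ φ₂ α (L' + 1)) = fun k =>
          (Nc.dbl (cst K (tower φ₁ φ₂ α L')) (fun ω => cst K (iprt (bvec φ₁ ((l₂ + l₂ + 1) * L'))
            (svec φ₂ α) ω)) k).submatrix (Equiv.ofBijective dec dec_bijective)
            (Equiv.ofBijective dec dec_bijective) := by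
        rw [← SymAux.cst_dbl]
        rfl
      have h5 := SymAux.bd_reindex (Equiv.ofBijective dec dec_bijective) h3
      rw [← h4] at h5
      refine SymAux.bd_mono h5 (le_of_eq ?_)
      ring
  have h2 := SymAux.rank_of_bd (P := Stable Γ) (fun s _ v _ => Submodule.mem_top)
    (fun s _ v hv => by
      rw [Submodule.mem_bot] at hv ⊢
      rw [hv, map_zero]) (key L le_rfl)
  rw [hV, Fintype.card_fun, ZMod.card, Fintype.card_fin] at h2
  have h4 : ((5 / 6 : ℝ) ^ L * (n * q : ℕ) + q / 2) < q := by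
    have h5 : ((2 * 5 ^ L * n : ℕ) : ℝ) < (6 ^ L : ℕ) := by exact_mod_cast hsteps
    push_cast at h5 ⊢
    have h6 : (0 : ℝ) < 6 ^ L := by positivity
    have h7 : (5 / 6 : ℝ) ^ L * n < 1 / 2 := by
      rw [div_pow, div_mul_eq_mul_div, div_lt_div_iff₀ h6 (by norm_num)]
      linarith
    nlinarith
  have h5 : (0 : ℝ) < 2 ^ ((l₂ + l₂ + 1) * L) := by positivity
  have h6 := mul_lt_mul_of_pos_right h4 h5
  have h7 : ((2 ^ ((l₂ + l₂ + 1) * L) * (n * q) : ℕ) : ℝ) <
      (finrank K (LinearMap.range (ev B (cst K (tower φ₁ φ₂ α L)))) +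
        2 ^ ((l₂ + l₂ + 1) * L) * q : ℕ) := by
    push_cast at h2 h6 ⊢
    linarith
  exact_mod_cast h7

end Pool.Agent.Lib.MP_64d474_lc.Pc
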