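import Mathlib
import Pool.Agent.Lib.MP_64d474_lc.Nc.Hit
import Pool.Agent.Lib.MP_64d474_lc.Pc.Stmts

/-!
# Partially commutative symbolic matrices: semilinear automorphisms

The signed translations together with the changes of signs of the variables are semilinear
automorphisms that commute with all generic twists, and the dimensions of their stable subspaces
are multiples of `2 ^ |I|`.
-/

open Matrix Module MvPolynomial

set_option linter.unusedSectionVars false

namespace Pool.Agent.Lib.MP_64d474_lc.Pc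

open Pool.Agent.Lib.MP_64d474_lc.Op (sgn)
open Pool.Agent.Lib.MP_64d474_lc.Nc
open Pool.Agent.Lib.MP_64d474_lc.Nc.Hit (sgn_sum sgn_mul_self sgn_pow sgn_sq_cast exists_order
  degree_le_of coeff_prod_of coeff_det exists_lead)

namespace Tor

variable {I : Type*} [Fintype I] [DecidableEq I]

theorem tw_hom {R S : Type*} [CommRing R] [CommRing S] (f : R →+* S) (c e : I → R)
    (T : Matrix (I → ZMod 2) (I → ZMod 2) ℤ) (x y : I → ZMod 2) :
    f (tw c e T x y) = tw (fun i => f (c i)) (fun i => f (e i)) T x y := by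
  rw [tw, tw, map_mul, map_sum, map_prod]
  congr 1
  · refine Finset.sum_congr rfl fun z _ => ?_
    rw [map_mul, map_prod, map_intCast]
    congr 1
    refine Finset.prod_congr rfl fun i _ => ?_
    rw [map_add, map_one, map_mul, map_intCast]
  · refine Finset.prod_congr rfl fun i _ => ?_
    split_ifs
    · exact map_one f
    · rfl

theorem add_self_vec (τ : I → ZMod 2) : τ + τ = 0 := by
  ext i
  exact CharTwo.add_self_eq_zero _

theorem add_add_self (x τ : I → ZMod 2) : x + τ + τ = x := by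
  rw [add_assoc, add_self_vec, add_zero]

/-- changing the signs of the parameters is a conjugation by a signed translation -/
theorem tw_flip {R : Type*} [CommRing R] (c e : I → R)
    (T : Matrix (I → ZMod 2) (I → ZMod 2) ℤ) (τ σ x y : I → ZMod 2) :
    tw (fun i => ((sgn (τ i) : ℤ) : R) * c i) (fun i => ((sgn (σ i) : ℤ) : R) * e i) T x y =
      ((sgn (σ ⬝ᵥ (x + y)) : ℤ) : R) * tw c e T (x + τ) (y + τ) := by
  have h1 : ∀ z : I → ZMod 2, z + (x + τ) + (y + τ) = z + x + y := by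
    intro z
    have : τ + τ = 0 := add_self_vec τ
    calc z + (x + τ) + (y + τ) = z + x + y + (τ + τ) := by abel
      _ = z + x + y := by rw [this, add_zero]
  have h2 : ∏ i, (if x i = y i then (1 : R) else ((sgn (σ i) : ℤ) : R) * e i) =
      ((sgn (σ ⬝ᵥ (x + y)) : ℤ) : R) *
        ∏ i, (if (x + τ) i = (y + τ) i then (1 : R) else e i) := by
    rw [dotProduct, sgn_sum, Int.cast_prod, ← Finset.prod_mul_distrib]
    refine Finset.prod_congr rfl fun i _ => ?_
    by_cases h : x i = y i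
    · have h3 : (x + τ) i = (y + τ) i := by rw [Pi.add_apply, Pi.add_apply, h]
      rw [if_pos h, if_pos h3, Pi.add_apply, h, CharTwo.add_self_eq_zero, mul_zero]
      simp [sgn]
    · have h3 : ¬ (x + τ) i = (y + τ) i := by
        rw [Pi.add_apply, Pi.add_apply]
        intro h4
        exact h (add_right_cancel h4)
      have h5 : x i + y i = 1 := by
        generalize x i = p at h
        generalize y i = q at h
        revert h p q
        decide
      rw [if_neg h, if_neg h3, Pi.add_apply, h5, mul_one]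
  rw [tw, tw, h2]
  have h3 : ∑ z, (∏ i, (1 + ((sgn (x i + z i) : ℤ) : R) * (((sgn (τ i) : ℤ) : R) * c i))) *
        ((T z (z + x + y) : ℤ) : R) =
      ∑ z, (∏ i, (1 + ((sgn ((x + τ) i + z i) : ℤ) : R) * c i)) *
        ((T z (z + (x + τ) + (y + τ)) : ℤ) : R) := by
    refine Finset.sum_congr rfl fun z _ => ?_
    rw [h1]
    congr 1
    refine Finset.prod_congr rfl fun i _ => ?_
    rw [Pi.add_apply, show x i + τ i + z i = (x i + z i) + τ i by ring,
      Op.S7Aux.sgn_add (x i + z i), Int.cast_mul, mul_assoc]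
  rw [h3]
  ring

theorem sum_sgn (w : I → ZMod 2) :
    ∑ σ : I → ZMod 2, sgn (σ ⬝ᵥ w) = if w = 0 then 2 ^ Fintype.card I else 0 := by
  split_ifs with h
  · rw [h]
    simp [sgn]
  · obtain ⟨i, hi⟩ := Function.ne_iff.1 h
    have h1 : ∑ σ : I → ZMod 2, sgn (σ ⬝ᵥ w) = ∑ σ : I → ZMod 2, -sgn (σ ⬝ᵥ w) := by
      rw [← Equiv.sum_comp (Equiv.addRight (Pi.single i 1 : I → ZMod 2))]
      refine Finset.sum_congr rfl fun σ _ => ?_
      rw [Equiv.coe_addRight, add_dotProduct, single_dotProduct, one_mul,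
        Op.S7Aux.zmod2 (w i) hi, Op.S7Aux.sgn_add_one]
    rw [Finset.sum_neg_distrib] at h1
    omega

section Poly

variable {F : Type*} [Field F]

/-- the change of signs of the variables -/
noncomputable def flip (τ σ : I → ZMod 2) :
    MvPolynomial (I ⊕ I) F →ₐ[F] MvPolynomial (I ⊕ I) F :=
  aeval (Sum.elim (fun i => ((sgn (τ i) : ℤ) : MvPolynomial (I ⊕ I) F) * X (Sum.inl i))
    fun i => ((sgn (σ i) : ℤ) : MvPolynomial (I ⊕ I) F) * X (Sum.inr i))

/-- the parity of the exponents -/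
def par1 (γ : I ⊕ I →₀ ℕ) : I → ZMod 2 := fun i => (γ (Sum.inl i) : ZMod 2)

/-- the parity of the exponents -/
def par2 (γ : I ⊕ I →₀ ℕ) : I → ZMod 2 := fun i => (γ (Sum.inr i) : ZMod 2)

theorem prod_sgn_pow (ρ : I → ZMod 2) (f : I → ℕ) :
    ∏ i, ((sgn (ρ i) : ℤ) : MvPolynomial (I ⊕ I) F) ^ f i =
      C ((sgn (ρ ⬝ᵥ fun i => (f i : ZMod 2)) : ℤ) : F) := by
  rw [dotProduct, sgn_sum, Int.cast_prod, map_prod]
  refine Finset.prod_congr rfl fun i _ => ?_
  rw [← sgn_pow, Int.cast_pow, map_pow, map_intCast]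

theorem flip_monomial (τ σ : I → ZMod 2) (γ : I ⊕ I →₀ ℕ) (a : F) :
    flip τ σ (monomial γ a) =
      monomial γ (((sgn (τ ⬝ᵥ par1 γ) * sgn (σ ⬝ᵥ par2 γ) : ℤ) : F) * a) := by
  have h2 : (∏ i : I, (X (Sum.inl i) : MvPolynomial (I ⊕ I) F) ^ γ (Sum.inl i)) *
      ∏ i : I, (X (Sum.inr i) : MvPolynomial (I ⊕ I) F) ^ γ (Sum.inr i) =
      monomial γ 1 := by
    rw [monomial_eq, Finsupp.prod_fintype _ _ (fun i => pow_zero _), Fintype.prod_sum_type]
    simp
  have h3 := prod_sgn_pow (F := F) τ (fun i => γ (Sum.inl i))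
  have h4 := prod_sgn_pow (F := F) σ (fun i => γ (Sum.inr i))
  have h5 : (fun i => ((γ (Sum.inl i) : ℕ) : ZMod 2)) = par1 γ := rfl
  have h6 : (fun i => ((γ (Sum.inr i) : ℕ) : ZMod 2)) = par2 γ := rfl
  rw [h5] at h3
  rw [h6] at h4
  rw [Int.cast_mul]
  rw [flip, aeval_monomial, Finsupp.prod_fintype _ _ (fun i => pow_zero _), Fintype.prod_sum_type]
  simp only [Sum.elim_inl, Sum.elim_inr, mul_pow, Finset.prod_mul_distrib]
  rw [h3, h4]
  generalize ((sgn (τ ⬝ᵥ par1 γ) : ℤ) : F) = p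
  generalize ((sgn (σ ⬝ᵥ par2 γ) : ℤ) : F) = q
  have h7 : monomial γ (p * q * a) = C (p * q * a) * monomial γ 1 := by
    rw [C_mul_monomial, mul_one]
  rw [h7, ← h2, map_mul, map_mul, algebraMap_eq]
  generalize (∏ i : I, (X (Sum.inl i) : MvPolynomial (I ⊕ I) F) ^ γ (Sum.inl i)) = A
  generalize (∏ i : I, (X (Sum.inr i) : MvPolynomial (I ⊕ I) F) ^ γ (Sum.inr i)) = B
  generalize (C p : MvPolynomial (I ⊕ I) F) = P
  generalize (C q : MvPolynomial (I ⊕ I) F) = Q
  generalize (C a : MvPolynomial (I ⊕ I) F) = Z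
  ring

theorem coeff_flip (τ σ : I → ZMod 2) (γ : I ⊕ I →₀ ℕ) (f : MvPolynomial (I ⊕ I) F) :
    coeff γ (flip τ σ f) = ((sgn (τ ⬝ᵥ par1 γ) * sgn (σ ⬝ᵥ par2 γ) : ℤ) : F) * coeff γ f := by
  classical
  induction f using MvPolynomial.induction_on' with
  | monomial u a =>
    rw [flip_monomial, coeff_monomial, coeff_monomial]
    split_ifs with h
    · rw [h]
    · rw [mul_zero]
  | add p q hp hq => rw [map_add, coeff_add, hp, hq, coeff_add, mul_add]

theorem flip_flip (τ σ : I → ZMod 2) (f : MvPolynomial (I ⊕ I) F) :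
    flip τ σ (flip τ σ f) = f := by
  ext γ
  rw [coeff_flip, coeff_flip, ← mul_assoc, ← Int.cast_mul]
  have h1 : sgn (τ ⬝ᵥ par1 γ) * sgn (σ ⬝ᵥ par2 γ) * (sgn (τ ⬝ᵥ par1 γ) * sgn (σ ⬝ᵥ par2 γ)) =
      1 := by
    calc sgn (τ ⬝ᵥ par1 γ) * sgn (σ ⬝ᵥ par2 γ) * (sgn (τ ⬝ᵥ par1 γ) * sgn (σ ⬝ᵥ par2 γ)) =
        (sgn (τ ⬝ᵥ par1 γ) * sgn (τ ⬝ᵥ par1 γ)) * (sgn (σ ⬝ᵥ par2 γ) * sgn (σ ⬝ᵥ par2 γ)) := by
          ring
      _ = 1 := by rw [sgn_mul_self, sgn_mul_self, one_mul]
  rw [h1, Int.cast_one, one_mul]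

/-- the change of signs of the variables as a ring isomorphism -/
noncomputable def flipE (τ σ : I → ZMod 2) :
    MvPolynomial (I ⊕ I) F ≃+* MvPolynomial (I ⊕ I) F :=
  { (flip (F := F) τ σ).toRingHom with
    invFun := flip τ σ
    left_inv := flip_flip τ σ
    right_inv := flip_flip τ σ }

/-- the change of signs of the variables of rational functions -/
noncomputable def flipK (τ σ : I → ZMod 2) : FK I F ≃+* FK I F :=
  IsFractionRing.ringEquivOfRingEquiv (flipE (F := F) τ σ)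

theorem flipK_algebraMap (τ σ : I → ZMod 2) (f : MvPolynomial (I ⊕ I) F) :
    flipK τ σ (algebraMap (MvPolynomial (I ⊕ I) F) (FK I F) f) =
      algebraMap (MvPolynomial (I ⊕ I) F) (FK I F) (flip τ σ f) :=
  IsFractionRing.ringEquivOfRingEquiv_algebraMap (flipE (F := F) τ σ) f

theorem flipK_const (τ σ : I → ZMod 2) (a : F) :
    flipK τ σ (algebraMap F (FK I F) a) = algebraMap F (FK I F) a := by
  rw [IsScalarTower.algebraMap_apply F (MvPolynomial (I ⊕ I) F) (FK I F), flipK_algebraMap]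
  congr 1
  exact (flip (F := F) τ σ).commutes a

theorem flipK_gc (τ σ : I → ZMod 2) (i : I) :
    flipK τ σ (gc F i) = ((sgn (τ i) : ℤ) : FK I F) * gc F i := by
  rw [gc, flipK_algebraMap, flip, aeval_X, Sum.elim_inl, map_mul, map_intCast]

theorem flipK_ge (τ σ : I → ZMod 2) (i : I) :
    flipK τ σ (ge F i) = ((sgn (σ i) : ℤ) : FK I F) * ge F i := by
  rw [ge, flipK_algebraMap, flip, aeval_X, Sum.elim_inr, map_mul, map_intCast]

theorem flipK_gtw (τ σ : I → ZMod 2) (T : Matrix (I → ZMod 2) (I → ZMod 2) ℤ)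
    (x y : I → ZMod 2) :
    flipK τ σ (gtw F T x y) =
      ((sgn (σ ⬝ᵥ (x + y)) : ℤ) : FK I F) * gtw F T (x + τ) (y + τ) := by
  have h1 := tw_hom ((flipK (F := F) τ σ : FK I F ≃+* FK I F) : FK I F →+* FK I F)
    (gc F) (ge F) T x y
  have h2 : ∀ i, ((flipK (F := F) τ σ : FK I F ≃+* FK I F) : FK I F →+* FK I F) (gc F i) =
      ((sgn (τ i) : ℤ) : FK I F) * gc F i := fun i => flipK_gc τ σ i
  have h3 : ∀ i, ((flipK (F := F) τ σ : FK I F ≃+* FK I F) : FK I F →+* FK I F) (ge F i) =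
      ((sgn (σ i) : ℤ) : FK I F) * ge F i := fun i => flipK_ge τ σ i
  simp only [h2, h3] at h1
  rw [tw_flip] at h1
  exact h1

end Poly

section Trans

variable {F : Type*} [Field F] {ι : Type*}

/-- the signed translation -/
noncomputable def trE (τ σ : I → ZMod 2) :
    ((I → ZMod 2) × ι → FK I F) ≃+ ((I → ZMod 2) × ι → FK I F) where
  toFun v := fun p => ((sgn (σ ⬝ᵥ p.1) : ℤ) : FK I F) * flipK τ σ (v (p.1 + τ, p.2))
  invFun w := fun p =>
    (flipK τ σ).symm (((sgn (σ ⬝ᵥ (p.1 + τ)) : ℤ) : FK I F) * w (p.1 + τ, p.2))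
  left_inv v := by
    ext1 p
    simp only
    rw [← mul_assoc, sgn_sq_cast, one_mul, add_add_self, RingEquiv.symm_apply_apply]
  right_inv w := by
    ext1 p
    simp only
    rw [RingEquiv.apply_symm_apply, add_add_self, ← mul_assoc, sgn_sq_cast, one_mul]
  map_add' v w := by
    ext1 p
    simp only [Pi.add_apply]
    rw [map_add, mul_add]

theorem trE_apply (τ σ : I → ZMod 2) (v : (I → ZMod 2) × ι → FK I F) (p : (I → ZMod 2) × ι) :
    trE τ σ v p = ((sgn (σ ⬝ᵥ p.1) : ℤ) : FK I F) * flipK τ σ (v (p.1 + τ, p.2)) := rfl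

/-- the semilinear automorphism -/
noncomputable def sem (τ σ : I → ZMod 2) : Semi (FK I F) ((I → ZMod 2) × ι → FK I F) where
  σ := flipK τ σ
  g := trE τ σ
  smul a v := by
    ext1 p
    rw [Pi.smul_apply, smul_eq_mul, trE_apply, trE_apply, Pi.smul_apply, smul_eq_mul, map_mul]
    ring

theorem sem_comm [Fintype ι] (τ σ : I → ZMod 2) (T : Matrix (I → ZMod 2) (I → ZMod 2) ℤ)
    (b : Matrix ι ι F) (v : (I → ZMod 2) × ι → FK I F) :
    kroneckerMap (· * ·) (gtw F T) (b.map (algebraMap F (FK I F))) *ᵥ trE τ σ v =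
      trE τ σ (kroneckerMap (· * ·) (gtw F T) (b.map (algebraMap F (FK I F))) *ᵥ v) := by
  have hm : ∀ (M : Matrix ((I → ZMod 2) × ι) ((I → ZMod 2) × ι) (FK I F))
      (w : (I → ZMod 2) × ι → FK I F) (p : (I → ZMod 2) × ι), (M *ᵥ w) p = ∑ q, M p q * w q :=
    fun _ _ _ => rfl
  ext1 p
  rw [trE_apply, hm, hm, map_sum, Finset.mul_sum]
  let E : (I → ZMod 2) × ι ≃ (I → ZMod 2) × ι := (Equiv.addRight τ).prodCongr (Equiv.refl ι)
  conv_rhs => rw [← Equiv.sum_comp E]
  refine Finset.sum_congr rfl fun q _ => ?_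
  have e1 : E q = (q.1 + τ, q.2) := rfl
  rw [e1, trE_apply, kroneckerMap_apply, kroneckerMap_apply, map_mul, map_mul, Matrix.map_apply,
    flipK_const, flipK_gtw]
  simp only
  have e2 : p.1 + τ + (q.1 + τ) = p.1 + q.1 := by
    calc p.1 + τ + (q.1 + τ) = p.1 + q.1 + (τ + τ) := by abel
      _ = p.1 + q.1 := by rw [add_self_vec, add_zero]
  rw [add_add_self, add_add_self, e2, dotProduct_add, Op.S7Aux.sgn_add, Int.cast_mul]
  have e3 := sgn_sq_cast (R := FK I F) (σ ⬝ᵥ p.1)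
  generalize ((sgn (σ ⬝ᵥ p.1) : ℤ) : FK I F) = s at *
  generalize ((sgn (σ ⬝ᵥ q.1) : ℤ) : FK I F) = s'
  generalize gtw F T p.1 q.1 = g
  generalize algebraMap F (FK I F) (b p.2 q.2) = c
  generalize flipK τ σ (v (q.1 + τ, q.2)) = w
  calc g * c * (s' * w) = (s * s) * (s' * g * c * w) := by rw [e3]; ring
    _ = _ := by ring

end Trans

section One

variable {F : Type*} [Field F]

/-- the transform of a vector of polynomials by a signed translation -/
noncomputable def tr (τ σ : I → ZMod 2) (v : (I → ZMod 2) → MvPolynomial (I ⊕ I) F) :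
    (I → ZMod 2) → MvPolynomial (I ⊕ I) F :=
  fun z => ((sgn (σ ⬝ᵥ z) : ℤ) : MvPolynomial (I ⊕ I) F) * flip τ σ (v (z + τ))

/-- the transform of a vector of rational functions by a signed translation -/
noncomputable def trK (τ σ : I → ZMod 2) (v : (I → ZMod 2) → FK I F) : (I → ZMod 2) → FK I F :=
  fun z => ((sgn (σ ⬝ᵥ z) : ℤ) : FK I F) * flipK τ σ (v (z + τ))

/-- the combination of transforms with index `x` -/
noncomputable def kv (v : (I → ZMod 2) → MvPolynomial (I ⊕ I) F)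
    (γ : I ⊕ I →₀ ℕ) (y x : I → ZMod 2) : (I → ZMod 2) → MvPolynomial (I ⊕ I) F :=
  ∑ σ : I → ZMod 2, ((sgn (σ ⬝ᵥ (x + par2 γ)) * sgn ((x + y) ⬝ᵥ par1 γ) : ℤ) :
    MvPolynomial (I ⊕ I) F) • tr (x + y) σ v

theorem coeff_kv (v : (I → ZMod 2) → MvPolynomial (I ⊕ I) F)
    (γ δ : I ⊕ I →₀ ℕ) (y x z : I → ZMod 2) :
    coeff δ (kv v γ y x z) = ((∑ σ : I → ZMod 2,
      sgn (σ ⬝ᵥ (x + par2 γ)) * sgn ((x + y) ⬝ᵥ par1 γ) * (sgn (σ ⬝ᵥ z) *
        (sgn ((x + y) ⬝ᵥ par1 δ) * sgn (σ ⬝ᵥ par2 δ))) : ℤ) : F) *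
        coeff δ (v (z + (x + y))) := by
  rw [kv, Finset.sum_apply, coeff_sum, Int.cast_sum, Finset.sum_mul]
  refine Finset.sum_congr rfl fun σ _ => ?_
  rw [Pi.smul_apply, smul_eq_mul, tr]
  have h1 : ∀ (n : ℤ) (f : MvPolynomial (I ⊕ I) F),
      coeff δ ((n : MvPolynomial (I ⊕ I) F) * f) = (n : F) * coeff δ f := by
    intro n f
    rw [← map_intCast (C : F →+* MvPolynomial (I ⊕ I) F), coeff_C_mul]
  rw [h1, h1, coeff_flip]
  push_cast
  ring

theorem coeff_kv_self (v : (I → ZMod 2) → MvPolynomial (I ⊕ I) F)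
    (γ : I ⊕ I →₀ ℕ) (y x z : I → ZMod 2) :
    coeff γ (kv v γ y x z) = if z = x then 2 ^ Fintype.card I * coeff γ (v y) else 0 := by
  rw [coeff_kv]
  have h1 : ∑ σ : I → ZMod 2,
      sgn (σ ⬝ᵥ (x + par2 γ)) * sgn ((x + y) ⬝ᵥ par1 γ) * (sgn (σ ⬝ᵥ z) *
        (sgn ((x + y) ⬝ᵥ par1 γ) * sgn (σ ⬝ᵥ par2 γ))) =
      ∑ σ : I → ZMod 2, sgn (σ ⬝ᵥ (x + z)) := by
    refine Finset.sum_congr rfl fun σ _ => ?_
    have e1 := sgn_mul_self ((x + y) ⬝ᵥ par1 γ)
    have e2 := sgn_mul_self (σ ⬝ᵥ par2 γ)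
    rw [dotProduct_add, dotProduct_add, Op.S7Aux.sgn_add, Op.S7Aux.sgn_add]
    generalize sgn ((x + y) ⬝ᵥ par1 γ) = p at *
    generalize sgn (σ ⬝ᵥ par2 γ) = q at *
    generalize sgn (σ ⬝ᵥ x) = r at *
    generalize sgn (σ ⬝ᵥ z) = s at *
    calc r * q * p * (s * (p * q)) = r * s * (p * p) * (q * q) := by ring
      _ = r * s := by rw [e1, e2]; ring
  rw [h1, sum_sgn]
  by_cases h : z = x
  · rw [if_pos h, h, add_self_vec, if_pos rfl, ← add_assoc, add_self_vec, zero_add]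
    push_cast
    rfl
  · rw [if_neg h]
    have h2 : ¬ x + z = 0 := by
      intro h3
      apply h
      have := congrArg (fun w => x + w) h3
      simp only [← add_assoc, add_self_vec, zero_add, add_zero] at this
      exact this
    rw [if_neg h2, Int.cast_zero, zero_mul]

theorem algebraMap_tr (τ σ : I → ZMod 2) (v : (I → ZMod 2) → MvPolynomial (I ⊕ I) F)
    (z : I → ZMod 2) :
    algebraMap (MvPolynomial (I ⊕ I) F) (FK I F) (tr τ σ v z) =
      trK τ σ (fun z => algebraMap (MvPolynomial (I ⊕ I) F) (FK I F) (v z)) z := by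
  rw [tr, trK, flipK_algebraMap, map_mul, map_intCast]

/-- the space of all vectors has no nontrivial stable subspace -/
theorem eq_top [CharZero F] (Y : Submodule (FK I F) ((I → ZMod 2) → FK I F))
    (hY : ∀ τ σ, ∀ v ∈ Y, trK τ σ v ∈ Y) (hne : Y ≠ ⊥) : Y = ⊤ := by
  classical
  obtain ⟨v, hvY, hv⟩ := Submodule.exists_mem_ne_zero_of_ne_bot hne
  obtain ⟨b, hb⟩ := IsLocalization.exist_integer_multiples_of_finite
    (nonZeroDivisors (MvPolynomial (I ⊕ I) F)) v
  choose w hw using hb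
  let ψ := algebraMap (MvPolynomial (I ⊕ I) F) (FK I F)
  have hψ : Function.Injective ψ := IsFractionRing.injective _ _
  have hw' : (fun z => ψ (w z)) = ψ b • v := by
    ext1 z
    rw [Pi.smul_apply, smul_eq_mul, ← Algebra.smul_def]
    exact hw z
  have hwY : (fun z => ψ (w z)) ∈ Y := by
    rw [hw']
    exact Y.smul_mem _ hvY
  have hw0 : w ≠ 0 := by
    intro h
    have h1 : ψ b • v = 0 := by
      rw [← hw', h]
      ext1 z
      exact map_zero ψ
    rcases smul_eq_zero.mp h1 with h2 | h2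
    · exact nonZeroDivisors.ne_zero b.2 (hψ (by rw [h2, map_zero]))
    · exact hv h2
  obtain ⟨m⟩ := exists_order (I ⊕ I)
  obtain ⟨γ, y, hγ, hmax⟩ := exists_lead m w hw0
  let U : Matrix (I → ZMod 2) (I → ZMod 2) (MvPolynomial (I ⊕ I) F) :=
    fun z x => kv w γ y x z
  have hdeg : ∀ z x, m.toSyn (m.degree (U z x)) ≤ m.toSyn γ := by
    intro z x
    refine degree_le_of m γ _ fun δ hδ => ?_
    rw [coeff_kv, hmax _ δ hδ, mul_zero]
  have hU : U.det ≠ 0 := by
    intro h0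
    have h1 := coeff_det m γ U hdeg
    rw [h0, coeff_zero] at h1
    have h2 : U.map (coeff γ) =
        Matrix.diagonal fun _ => 2 ^ Fintype.card I * coeff γ (w y) := by
      ext z x
      rw [Matrix.map_apply, Matrix.diagonal_apply, coeff_kv_self]
    rw [h2, Matrix.det_diagonal, Finset.prod_const] at h1
    have h3 : (2 ^ Fintype.card I * coeff γ (w y) : F) ≠ 0 :=
      mul_ne_zero (pow_ne_zero _ two_ne_zero) hγ
    exact pow_ne_zero _ h3 h1.symm
  have hUK : (U.map ψ).det ≠ 0 := by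
    have : (U.map ψ).det = ψ U.det := by
      rw [RingHom.map_det]
      rfl
    rw [this]
    intro h
    exact hU (hψ (by rw [h, map_zero]))
  have hli := Matrix.linearIndependent_cols_of_det_ne_zero hUK
  have hmem : ∀ x, (U.map ψ).col x ∈ Y := by
    intro x
    have h1 : (U.map ψ).col x = ∑ σ : I → ZMod 2,
        ((sgn (σ ⬝ᵥ (x + par2 γ)) * sgn ((x + y) ⬝ᵥ par1 γ) : ℤ) : FK I F) •
          trK (x + y) σ (fun z => ψ (w z)) := by
      ext1 z
      have h2 : (U.map ψ).col x z = ψ (kv w γ y x z) := rfl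
      rw [h2, kv, Finset.sum_apply, Finset.sum_apply, map_sum]
      refine Finset.sum_congr rfl fun σ _ => ?_
      rw [Pi.smul_apply, Pi.smul_apply, smul_eq_mul, smul_eq_mul, map_mul, map_intCast,
        algebraMap_tr]
    rw [h1]
    exact Y.sum_mem fun σ _ => Y.smul_mem _ (hY _ _ _ hwY)
  have hli' : LinearIndependent (FK I F) fun x => (⟨(U.map ψ).col x, hmem x⟩ : Y) := by
    refine LinearIndependent.of_comp (Submodule.subtype _) ?_
    exact hli
  have h1 := hli'.fintype_card_le_finrank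
  refine Submodule.eq_top_of_finrank_eq (le_antisymm (Submodule.finrank_le _) ?_)
  rw [Module.finrank_fintype_fun_eq_card]
  exact h1

theorem finrank_map_add {K V W : Type*} [Field K] [AddCommGroup V] [Module K V]
    [FiniteDimensional K V] [AddCommGroup W] [Module K W] (f : V →ₗ[K] W) (U : Submodule K V) :
    finrank K (U.map f) + finrank K (U ⊓ LinearMap.ker f : Submodule K V) = finrank K U := by
  have h1 := LinearMap.finrank_range_add_finrank_ker (f.domRestrict U)
  rw [LinearMap.range_domRestrict, LinearMap.ker_domRestrict] at h1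
  have h2 : Submodule.comap U.subtype (LinearMap.ker f) =
      Submodule.comap U.subtype (U ⊓ LinearMap.ker f) := by
    ext x
    simp
  rw [← h1, h2, (Submodule.comapSubtypeEquivOfLe
    (inf_le_left : U ⊓ LinearMap.ker f ≤ U)).finrank_eq]

/-- vectors supported on a set of blocks -/
def supp {ι : Type*} (K J : Type*) [Field K] (s : Finset ι) : Submodule K (J × ι → K) where
  carrier := {v | ∀ p, p.2 ∉ s → v p = 0}
  zero_mem' := fun _ _ => rfl
  add_mem' := fun {v w} hv hw p hp => by rw [Pi.add_apply, hv p hp, hw p hp, add_zero]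
  smul_mem' := fun a v hv p hp => by rw [Pi.smul_apply, hv p hp, smul_zero]

theorem dvd_finrank [CharZero F] {ι : Type*} [Fintype ι] [DecidableEq ι]
    (U : Submodule (FK I F) ((I → ZMod 2) × ι → FK I F))
    (hU : ∀ τ σ, ∀ v ∈ U, trE τ σ v ∈ U) (s : Finset ι) :
    2 ^ Fintype.card I ∣ finrank (FK I F)
      (U ⊓ supp (FK I F) (I → ZMod 2) s : Submodule (FK I F) ((I → ZMod 2) × ι → FK I F)) := by
  induction s using Finset.induction_on with
  | empty =>
    have h1 : supp (FK I F) (I → ZMod 2) (∅ : Finset ι) = ⊥ := by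
      rw [eq_bot_iff]
      intro v hv
      rw [Submodule.mem_bot]
      ext1 p
      exact hv p (Finset.notMem_empty _)
    rw [h1, inf_bot_eq, finrank_bot]
    exact dvd_zero _
  | insert a s ha ih =>
    let f : ((I → ZMod 2) × ι → FK I F) →ₗ[FK I F] ((I → ZMod 2) → FK I F) :=
      LinearMap.funLeft (FK I F) (FK I F) fun z => (z, a)
    have hf : ∀ v z, f v z = v (z, a) := fun _ _ => rfl
    rw [← finrank_map_add f (U ⊓ supp (FK I F) (I → ZMod 2) (insert a s))]
    have h1 : U ⊓ supp (FK I F) (I → ZMod 2) (insert a s) ⊓ LinearMap.ker f =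
        U ⊓ supp (FK I F) (I → ZMod 2) s := by
      ext v
      rw [Submodule.mem_inf, Submodule.mem_inf, Submodule.mem_inf, LinearMap.mem_ker]
      constructor
      · rintro ⟨⟨h1, h2⟩, h3⟩
        refine ⟨h1, fun p hp => ?_⟩
        by_cases h4 : p.2 = a
        · have h5 := congrFun h3 p.1
          rw [hf] at h5
          rw [← h4] at h5
          exact h5
        · exact h2 p fun h5 => (Finset.mem_insert.mp h5).elim h4 hp
      · rintro ⟨h1, h2⟩
        refine ⟨⟨h1, fun p hp => h2 p fun h3 => hp (Finset.mem_insert_of_mem h3)⟩, ?_⟩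
        ext1 z
        rw [hf]
        exact h2 (z, a) ha
    rw [h1]
    refine dvd_add ?_ ih
    have h2 : ∀ τ σ, ∀ v ∈ (U ⊓ supp (FK I F) (I → ZMod 2) (insert a s)).map f,
        trK τ σ v ∈ (U ⊓ supp (FK I F) (I → ZMod 2) (insert a s)).map f := by
      rintro τ σ _ ⟨v, ⟨hv1, hv2⟩, rfl⟩
      refine ⟨trE τ σ v, ⟨hU τ σ v hv1, fun p hp => ?_⟩, ?_⟩
      · rw [trE_apply, hv2 (p.1 + τ, p.2) hp, map_zero, mul_zero]
      · ext1 z
        rfl
    by_cases h3 : (U ⊓ supp (FK I F) (I → ZMod 2) (insert a s)).map f = ⊥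
    · rw [h3, finrank_bot]
      exact dvd_zero _
    · rw [eq_top _ h2 h3, finrank_top, Module.finrank_fintype_fun_eq_card, Fintype.card_fun,
        ZMod.card]

end One

end Tor

theorem stTorus.{u} : StTorus.{u} := by
  intro F _ _ I _ _ n
  refine ⟨Set.range fun p : (I → ZMod 2) × (I → ZMod 2) => Tor.sem p.1 p.2, ?_, ?_⟩
  · rintro _ ⟨p, rfl⟩ T b v
    exact Tor.sem_comm p.1 p.2 T b v
  · intro U hU
    have h1 := Tor.dvd_finrank U (fun τ σ v hv => hU _ ⟨(τ, σ), rfl⟩ v hv) Finset.univ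
    have h2 : Tor.supp (FK I F) (I → ZMod 2) (Finset.univ : Finset (Fin n)) = ⊤ := by
      rw [eq_top_iff]
      intro v _ p hp
      exact absurd (Finset.mem_univ _) hp
    rw [h2, inf_top_eq] at h1
    exact h1

end Pool.Agent.Lib.MP_64d474_lc.Pc
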