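import Mathlib
import Pool.Agent.Lib.MP_64d474_lc.Pc.Main
import Pool.Agent.Lib.MP_64d474_lc.Pc.AvgF
import Pool.Agent.Lib.MP_64d474_lc.Pc.MixF
import Pool.Agent.Lib.MP_64d474_lc.Pc.Level
import Pool.Agent.Lib.MP_64d474_lc.Pc.SymRank
import Pool.Agent.Lib.MP_64d474_lc.Pc.Torus
import Pool.Agent.Lib.MP_64d474_lc.Pc.Corank
import Pool.Agent.Lib.MP_64d474_lc.Pc.Plain
import Pool.Agent.Lib.MP_64d474_lc.Pc.Phase1
import Pool.Agent.Lib.MP_64d474_lc.Pc.Phase2
import Pool.Agent.Lib.MP_64d474_lc.Pc.Conv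
import Pool.Agent.Lib.MP_64d474_lc.Pc.Minor
import Pool.Agent.Lib.MP_64d474_lc.Pc.RankGrid
import Pool.Agent.Lib.MP_64d474_lc.Pc.PlainR
import Pool.Agent.Lib.MP_64d474_lc.Pc.Phase1R
import Pool.Agent.Lib.MP_64d474_lc.Pc.Hier
import Pool.Agent.Lib.MP_64d474_lc.Pc.Coarse

/-!
# Partially commutative symbolic matrices: all modules
-/

open Matrix Module

namespace Pool.Agent.Lib.MP_64d474_lc.Pc

open Pool.Agent.Lib.MP_64d474_lc.Op Pool.Agent.Lib.MP_64d474_lc.Nc

theorem symRank.{u} : StSymRank.{u} := stSymRank (stLevel stAvgF stMixF)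

theorem corank.{u} : StCorank.{u} := stCorank stTorus

theorem phase1.{u} : StPhase1.{u} := stPhase1 stPlain

theorem phase2.{u} : StPhase2.{u} := stPhase2 (stReplace stTorus corank symRank)

theorem conv.{u} : StConv.{u} := stConv corank stCommon

theorem minor.{u} : StMinor.{u} := stMinor corank

theorem phase1R.{u} : StPhase1R.{u} := stPhase1R (stPlainR minor stRankGrid)

theorem tests_main.{u} {F : Type u} [Field F] [CharZero F] {n m k : ℕ}
    (X : Data n (m + 1)) (cl : Fin m → Fin k) (S : Finset (Fin k))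
    (B : Fin m → Matrix (Fin n) (Fin n) F) (d : ℕ) (hd : d = 2 ^ (k * X.t)) :
    (∀ Y ∈ tests X cl S, (tens (cst F Y) B).rank ≤ d * pcRank B cl) ∧
      ((∃ i, ∀ i' ≠ i, i' ∈ S) → ∃ Y ∈ tests X cl S,
        d * pcRank B cl < (tens (cst F Y) B).rank + d) ∧
      (S = Finset.univ → ∃ Y ∈ tests X cl S, (tens (cst F Y) B).rank = d * pcRank B cl) :=
  MainAux.rank_tests phase1 phase2 conv minor stRankGrid stTorus symRank X cl S B d hd

theorem rank_main.{u} {F : Type u} [Field F] [CharZero F] {n m k : ℕ}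
    (B : Fin m → Matrix (Fin n) (Fin n) F) (cl : Fin m → Fin k) :
    (PcNonsing B cl ↔ pcRank B cl = n) ∧
      (∀ (D : ℕ) (Y : Fin m → Matrix (Fin D) (Fin D) F),
        (tens (fun j => place (cl j) (Y j)) B).rank ≤ D ^ k * pcRank B cl) ∧
      (k = 1 → pcRank B cl = ncRank B) ∧
      (∀ (k' : ℕ) (π : Fin k → Fin k'), pcRank B cl ≤ pcRank B (π ∘ cl)) ∧
      (Function.Injective cl → (∀ x : Fin m → F, (∑ j, x j • B j).rank ≤ pcRank B cl) ∧
        ∃ x : Fin m → F, (∑ j, x j • B j).rank = pcRank B cl) :=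
  ⟨MainAux.pcNonsing_iff B cl, MainAux.rank_le phase2 conv minor stRankGrid phase1R cl B,
    fun hk => MainAux.pcRank_one stRankGrid stHier minor cl hk B,
    fun _ π => MainAux.pcRank_mono stCoarse cl B π,
    fun h => MainAux.pcRank_inj stHier cl h B⟩

end Pool.Agent.Lib.MP_64d474_lc.Pc
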