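import Mathlib
import Pool.Agent.Lib.MP_64d474_lc.Nc.Main
import Pool.Agent.Lib.MP_64d474_lc.Pc.Stmts

/-!
# Module Conv (helper60, project PC of helper66)

The converse: a nonsingular twist of the explicit tuple gives matrices in general position.
-/

open Matrix Module MvPolynomial

set_option autoImplicit false
set_option linter.unusedSectionVars false

namespace Pool.Agent.Lib.MP_64d474_lc.Pc

open Pool.Agent.Lib.MP_64d474_lc.Op (sgn)
open Pool.Agent.Lib.MP_64d474_lc.Nc

namespace ConvAux

section Twist

variable {I : Type*} [Fintype I] [DecidableEq I]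

theorem tw_hom {R S : Type*} [CommRing R] [CommRing S] (f : R →+* S) (c e : I → R)
    (T : Matrix (I → ZMod 2) (I → ZMod 2) ℤ) (x y : I → ZMod 2) :
    f (tw c e T x y) = tw (fun i => f (c i)) (fun i => f (e i)) T x y := by
  rw [tw, tw, map_mul, map_sum, map_prod]
  congr 1
  · refine Finset.sum_congr rfl fun z _ => ?_
    rw [map_mul, map_prod, map_intCast]
    congr 1
    refine Finset.prod_congr rfl fun i _ => ?_
    rw [map_add, map_one, map_mul, map_intCast]
  · refine Finset.prod_congr rfl fun i _ => ?_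
    split_ifs
    · exact map_one f
    · rfl

theorem tw_one {R : Type*} [CommRing R]
    (T : Matrix (I → ZMod 2) (I → ZMod 2) ℤ) (x y : I → ZMod 2) :
    tw (fun _ => (1 : R)) (fun _ => 1) T x y = 2 ^ Fintype.card I * ((T x y : ℤ) : R) := by
  have h1 : ∀ z : I → ZMod 2, ∏ i, (1 + ((sgn (x i + z i) : ℤ) : R) * 1) =
      if z = x then 2 ^ Fintype.card I else 0 := by
    intro z
    by_cases h : z = x
    · rw [if_pos h, h]
      have : ∀ i, (1 + ((sgn (x i + x i) : ℤ) : R) * 1) = 2 := by
        intro i
        rw [CharTwo.add_self_eq_zero]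
        simp [sgn]
        norm_num
      rw [Finset.prod_congr rfl fun i _ => this i, Finset.prod_const, Finset.card_univ]
    · rw [if_neg h]
      obtain ⟨i, hi⟩ := Function.ne_iff.mp h
      refine Finset.prod_eq_zero (Finset.mem_univ i) ?_
      have h5 : x i + z i = 1 := by
        generalize x i = p at hi
        generalize z i = q at hi
        revert hi p q
        decide
      rw [h5]
      simp [sgn]
  rw [tw, Finset.sum_congr rfl fun z _ => by rw [h1 z]]
  simp only [ite_mul, zero_mul, Finset.sum_ite_eq', Finset.mem_univ, if_true, ite_self,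
    Finset.prod_const_one, mul_one]
  have : x + x + y = y := by
    ext i
    rw [Pi.add_apply, Pi.add_apply, CharTwo.add_self_eq_zero, zero_add]
  rw [this]

theorem mat_eq_zero {K α : Type*} [Field K] [Fintype α] [DecidableEq α] (M : Matrix α α K)
    (h : M.rank = 0) : M = 0 := by
  have h1 : LinearMap.range M.mulVecLin = ⊥ := Submodule.finrank_eq_zero.mp h
  rw [LinearMap.range_eq_bot] at h1
  ext i j
  have h2 := congrFun (LinearMap.congr_fun h1 (Pi.single j 1)) i
  rw [Matrix.mulVecLin_apply, Matrix.mulVec_single_one] at h2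
  exact h2

/-- a nonzero matrix has a nonsingular twist -/
theorem gn_one.{u} (hC : StCorank.{u}) (F : Type u) [Field F] [CharZero F] (I : Type) [Fintype I]
    [DecidableEq I] (Q : Matrix (I → ZMod 2) (I → ZMod 2) ℤ) (hQ : Q ≠ 0) :
    GN (fun _ : Fin 1 => Q) (fun _ : Fin 1 => (1 : Matrix (Fin 1) (Fin 1) F)) := by
  by_contra hG
  have h1 := hC F I 1 1 (fun _ => Q) (fun _ => 1) hG
  rw [mul_one] at h1
  have h2 : (big (gc F) (ge F) (fun _ : Fin 1 => Q)
      fun _ : Fin 1 => (1 : Matrix (Fin 1) (Fin 1) F).map (algebraMap F (FK I F))).rank = 0 := by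
    omega
  replace h2 := mat_eq_zero _ h2
  apply hQ
  ext x y
  rw [Matrix.zero_apply]
  have h3 := congrFun (congrFun h2 (x, 0)) (y, 0)
  rw [Matrix.zero_apply, big, Fin.sum_univ_one] at h3
  simp only [Matrix.map_apply, Matrix.one_apply_eq, map_one, mul_one] at h3
  have h4 : algebraMap (MvPolynomial (I ⊕ I) F) (FK I F)
      (tw (fun i => X (Sum.inl i)) (fun i => X (Sum.inr i)) Q x y) = 0 := by
    rw [tw_hom (algebraMap (MvPolynomial (I ⊕ I) F) (FK I F))]
    exact h3
  have h5 : tw (fun i => (X (Sum.inl i) : MvPolynomial (I ⊕ I) F)) (fun i => X (Sum.inr i)) Q x y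
      = 0 := by
    apply IsFractionRing.injective (MvPolynomial (I ⊕ I) F) (FK I F)
    rw [h4, map_zero]
  have h6 := congrArg (eval fun _ : I ⊕ I => (1 : F)) h5
  rw [tw_hom (eval fun _ : I ⊕ I => (1 : F)), map_zero] at h6
  simp only [eval_X] at h6
  rw [tw_one] at h6
  have h7 : ((Q x y : ℤ) : F) = 0 := by
    rcases mul_eq_zero.mp h6 with h | h
    · exact absurd h (pow_ne_zero _ two_ne_zero)
    · exact h
  exact_mod_cast h7

/-- the twist of a tensor product -/
theorem tw_pri {k : ℕ} {R : Type*} [CommRing R] (c e : Fin k × I → R)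
    (Z : Fin k → Matrix (I → ZMod 2) (I → ZMod 2) ℤ) (x y : Fin k × I → ZMod 2) :
    tw c e (pri Z) x y = ∏ i, tw (fun a => c (i, a)) (fun a => e (i, a)) (Z i)
      (fun a => x (i, a)) (fun a => y (i, a)) := by
  simp only [tw]
  rw [Finset.prod_mul_distrib, Finset.prod_univ_sum, Fintype.piFinset_univ,
    ← Equiv.sum_comp (Equiv.curry (Fin k) I (ZMod 2)), Fintype.prod_prod_type]
  congr 1
  refine Finset.sum_congr rfl fun z _ => ?_
  rw [Finset.prod_mul_distrib, Fintype.prod_prod_type, pri, Int.cast_prod]
  rfl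

end Twist

section Prd

variable {F : Type*} [Field F] {k : ℕ} {J : Type*} [Fintype J] [DecidableEq J]

theorem prd_mul (A A' : Fin k → Matrix J J F) :
    prd A * prd A' = prd fun i => A i * A' i := by
  ext x y
  rw [Matrix.mul_apply]
  simp only [prd, Matrix.mul_apply]
  rw [Finset.prod_univ_sum, Fintype.piFinset_univ]
  refine Finset.sum_congr rfl fun z _ => ?_
  rw [Finset.prod_mul_distrib]

theorem prd_ne_zero (A : Fin k → Matrix J J F) (h : ∀ i, A i ≠ 0) : prd A ≠ 0 := by
  have h1 : ∀ i, ∃ x y, A i x y ≠ 0 := by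
    intro i
    by_contra h2
    push Not at h2
    exact h i (Matrix.ext h2)
  choose x y hxy using h1
  intro h0
  have h2 := congrFun (congrFun h0 x) y
  exact Finset.prod_ne_zero_iff.mpr (fun i _ => hxy i) h2

theorem det_of_prd (A : Fin k → Matrix J J F) (h : (prd A).det ≠ 0) (i : Fin k) :
    (A i).det ≠ 0 := by
  intro h0
  obtain ⟨v, hv, hAv⟩ := Matrix.exists_mulVec_eq_zero_iff.mpr h0
  obtain ⟨x0, hx0⟩ := Function.ne_iff.mp hv
  let N : Fin k → Matrix J J F := Function.update (fun _ => 1) i (Matrix.of fun x _ => v x)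
  have : Nonempty J := ⟨x0⟩
  have hN : ∀ i', N i' ≠ 0 := by
    intro i'
    by_cases hi : i' = i
    · subst hi
      intro h1
      have h2 := congrFun (congrFun h1 x0) x0
      simp only [N, Function.update_self, Matrix.of_apply, Matrix.zero_apply] at h2
      exact hx0 h2
    · simp only [N, Function.update_of_ne hi]
      exact one_ne_zero
  have h1 : prd A * prd N = 0 := by
    rw [prd_mul]
    ext x y
    refine Finset.prod_eq_zero (Finset.mem_univ i) ?_
    simp only [N, Function.update_self, Matrix.mul_apply, Matrix.of_apply]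
    exact congrFun hAv (x i)
  apply prd_ne_zero N hN
  have h2 : IsUnit (prd A).det := isUnit_iff_ne_zero.mpr h
  calc prd N = (prd A)⁻¹ * (prd A * prd N) := by
        rw [← Matrix.mul_assoc, Matrix.nonsing_inv_mul _ h2, Matrix.one_mul]
    _ = 0 := by rw [h1, Matrix.mul_zero]

end Prd

end ConvAux

open ConvAux

theorem stConv.{u} (hC : StCorank.{u}) (hK : StCommon.{u}) : StConv.{u} := by
  classical
  intro F _ _ n m k D cl B hGN
  rcases Nat.eq_zero_or_pos n with hn | hn
  · subst hn
    refine ⟨1, one_pos, 0, ?_⟩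
    rw [Matrix.det_isEmpty]
    exact one_ne_zero
  -- the first matrix of the explicit tuple is nonzero
  have hT0 : D.T 0 ≠ 0 := by
    intro h0
    let B1 : Fin (m + 1) → Matrix (Fin n) (Fin n) ℚ := fun j => if j = 0 then 1 else 0
    have h1 : Nonsing B1 := by
      refine ⟨fun j => if j = 0 then 1 else 0, ?_⟩
      have : (∑ k : Fin (m + 1), (if k = 0 then (1 : ℚ) else 0) • B1 k) = 1 := by
        rw [Finset.sum_eq_single 0]
        · simp [B1]
        · intro b _ hb
          simp [hb]
        · simp
      rw [this, Matrix.det_one]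
      exact one_ne_zero
    have h2 := (main D B1 (2 ^ D.t) (tens (cst ℚ D.T) B1).rank rfl rfl).2.2
    have h3 : NcNonsing B1 ↔ 2 ^ D.t * n < (tens (cst ℚ D.T) B1).rank + 2 ^ D.t := h2.out 1 2
    have h4 := h3.mp h1.nc
    have h5 : tens (cst ℚ D.T) B1 = 0 := by
      ext p q
      rw [tens_apply, Matrix.zero_apply]
      refine Finset.sum_eq_zero fun j _ => ?_
      by_cases hj : j = 0
      · subst hj
        simp only [cst, h0, Matrix.map_apply, Matrix.zero_apply, Int.cast_zero, zero_mul]
      · simp only [B1, if_neg hj, Matrix.zero_apply, mul_zero]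
    rw [h5, Matrix.rank_zero, zero_add] at h4
    have h6 : 2 ^ D.t * 1 ≤ 2 ^ D.t * n := Nat.mul_le_mul_left _ hn
    omega
  -- the tensor power of the first matrix
  let Q : Matrix (Fin k × Fin D.t → ZMod 2) (Fin k × Fin D.t → ZMod 2) ℤ := pri fun _ => D.T 0
  have hQ : Q ≠ 0 := by
    intro h0
    apply hT0
    ext x y
    rw [Matrix.zero_apply]
    by_contra hxy
    have h1 := congrFun (congrFun h0 fun p => x p.2) fun p => y p.2
    exact Finset.prod_ne_zero_iff.mpr (fun i _ => hxy) h1
  obtain ⟨c, e, hce, hce'⟩ := hK F (Fin k × Fin D.t) n m 1 1 _ _ _ _ hGN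
    (gn_one hC F (Fin k × Fin D.t) Q hQ)
  -- the matrices
  let J := Fin D.t → ZMod 2
  let A : Fin k → Matrix J J F := fun i => tw (fun a => c (i, a)) (fun a => e (i, a)) (D.T 0)
  let M : Fin m → Matrix J J F := fun j =>
    tw (fun a => c (cl j, a)) (fun a => e (cl j, a)) (D.T j.succ)
  let E : (Fin k × Fin D.t → ZMod 2) ≃ (Fin k → J) := Equiv.curry (Fin k) (Fin D.t) (ZMod 2)
  have hA : (prd A).det ≠ 0 := by
    intro h0
    apply hce'
    have h1 : big c e (fun _ : Fin 1 => Q) (fun _ : Fin 1 => (1 : Matrix (Fin 1) (Fin 1) F)) =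
        (prd A).submatrix (((Equiv.prodUnique _ (Fin 1)).trans E))
          ((Equiv.prodUnique _ (Fin 1)).trans E) := by
      ext p q
      rw [big, Fin.sum_univ_one, Matrix.submatrix_apply]
      have h2 : (1 : Matrix (Fin 1) (Fin 1) F) p.2 q.2 = 1 := by
        rw [Subsingleton.elim p.2 q.2, Matrix.one_apply_eq]
      rw [h2, mul_one, tw_pri]
      rfl
    rw [h1, Matrix.det_submatrix_equiv_self, h0]
  have hAi : ∀ i, IsUnit (A i).det := fun i => isUnit_iff_ne_zero.mpr (det_of_prd A hA i)
  let Y' : Fin m → Matrix J J F := fun j => (A (cl j))⁻¹ * M j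
  have hfac : ∀ j, (prd fun i => if cl j = i then M j else A i) = prd A * place (cl j) (Y' j) := by
    intro j
    rw [place, prd_mul]
    congr 1
    funext i
    by_cases hi : i = cl j
    · subst hi
      rw [if_pos rfl, if_pos rfl]
      simp only [Y']
      rw [← Matrix.mul_assoc, Matrix.mul_nonsing_inv _ (hAi _), Matrix.one_mul]
    · rw [if_neg (fun h => hi h.symm), if_neg hi, Matrix.mul_one]
  have hdet : (tens (fun j => place (cl j) (Y' j)) B).det ≠ 0 := by
    intro h0
    apply hce
    have h1 : big c e (ptup D cl) B =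
        (Matrix.kroneckerMap (· * ·) (prd A) (1 : Matrix (Fin n) (Fin n) F) *
          tens (fun j => place (cl j) (Y' j)) B).submatrix (E.prodCongr (Equiv.refl (Fin n)))
            (E.prodCongr (Equiv.refl (Fin n))) := by
      have h2 : Matrix.kroneckerMap (· * ·) (prd A) (1 : Matrix (Fin n) (Fin n) F) *
          tens (fun j => place (cl j) (Y' j)) B =
          tens (fun j => prd fun i => if cl j = i then M j else A i) B := by
        rw [tens, tens, Matrix.mul_sum]
        refine Finset.sum_congr rfl fun j _ => ?_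
        rw [← Matrix.mul_kronecker_mul, Matrix.one_mul, hfac]
      rw [h2]
      ext p q
      rw [big, Matrix.submatrix_apply, tens_apply]
      refine Finset.sum_congr rfl fun j _ => ?_
      have h3 : tw c e (ptup D cl j) p.1 q.1 =
          (prd fun i => if cl j = i then M j else A i) (E p.1) (E q.1) := by
        rw [ptup, tw_pri, prd]
        refine Finset.prod_congr rfl fun i _ => ?_
        by_cases hi : cl j = i
        · subst hi
          rw [if_pos rfl, if_pos rfl]
          rfl
        · rw [if_neg hi, if_neg hi]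
          rfl
      rw [h3]
      rfl
    rw [h1, Matrix.det_submatrix_equiv_self, Matrix.det_mul, h0, mul_zero]
  -- change of the index type
  let ε : J ≃ Fin (Fintype.card J) := Fintype.equivFin J
  refine ⟨Fintype.card J, Fintype.card_pos, fun j => (Y' j).submatrix ε.symm ε.symm, ?_⟩
  let E' : ((Fin k → Fin (Fintype.card J)) × Fin n) ≃ ((Fin k → J) × Fin n) :=
    (Equiv.piCongrRight fun _ => ε.symm).prodCongr (Equiv.refl (Fin n))
  have h1 : tens (fun j => place (cl j) ((Y' j).submatrix ε.symm ε.symm)) B =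
      (tens (fun j => place (cl j) (Y' j)) B).submatrix E' E' := by
    ext p q
    rw [tens_apply, Matrix.submatrix_apply, tens_apply]
    refine Finset.sum_congr rfl fun j _ => ?_
    congr 1
    rw [place, place, prd, prd]
    refine Finset.prod_congr rfl fun i _ => ?_
    by_cases hi : i = cl j
    · rw [if_pos hi, if_pos hi]
      rfl
    · rw [if_neg hi, if_neg hi, Matrix.one_apply, Matrix.one_apply]
      have : (E' p).1 i = (E' q).1 i ↔ p.1 i = q.1 i := ε.symm.injective.eq_iff
      by_cases h : p.1 i = q.1 i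
      · rw [if_pos h, if_pos (this.mpr h)]
      · rw [if_neg h, if_neg fun h' => h (this.mp h')]
  rw [h1, Matrix.det_submatrix_equiv_self]
  exact hdet

end Pool.Agent.Lib.MP_64d474_lc.Pc
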